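import Pool.Agent.H95.RO.Df

/-!
# [H96 RW DC] MP_8923e7_nt, THEOREM R (all words): the core properties

`n` cells; cell `i` has a class `ρ i` prime to `Q` and a point `y i` of the torus.

`CoreW α k n`: there are cells `q_0 < … < q_k` such that for infinitely many `j` the consecutive primes `p_j, …, p_(j+k)`
(within a bounded distance) satisfy `p_(j+i) ≡ ρ (q_i) (mod Q)` and `α p_(j+i)` is within `ε` of `y (q_i)`.

`CoreWF α k n`: the same with positive upper density and `p_(j+k) ≤ p_j + η log X`, for every `η`.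
-/

set_option autoImplicit false

namespace Pool.Agent.H96.RW

open Filter Pool.Agent.H95.RO

/-- the core property for words of length `k + 1`, bounded gaps -/
def CoreW {t : ℕ} (α : Fin t → ℝ) (k n : ℕ) : Prop :=
  ∀ ε : ℝ, 0 < ε → ∀ Q : ℕ, 0 < Q →
    ∀ ρ : Fin n → ℕ, (∀ i, Nat.Coprime (ρ i) Q) → ∀ y : Fin n → Fin t → ℝ,
      ∃ (q : Fin (k + 1) → Fin n) (C : ℕ), StrictMono q ∧
        {j : ℕ | ∀ i : Fin (k + 1), Nat.nth Nat.Prime (j + i) ≤ Nat.nth Nat.Prime j + C ∧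
          Nat.nth Nat.Prime (j + i) ≡ ρ (q i) [MOD Q] ∧
          ∀ l, nd (α l * Nat.nth Nat.Prime (j + i) - y (q i) l) < ε}.Infinite

/-- the core property for words of length `k + 1` with frequencies -/
def CoreWF {t : ℕ} (α : Fin t → ℝ) (k n : ℕ) : Prop :=
  ∀ ε : ℝ, 0 < ε → ∀ Q : ℕ, 0 < Q →
    ∀ ρ : Fin n → ℕ, (∀ i, Nat.Coprime (ρ i) Q) → ∀ y : Fin n → Fin t → ℝ, ∀ η : ℝ, 0 < η →
      ∃ (q : Fin (k + 1) → Fin n) (c : ℝ), StrictMono q ∧ 0 < c ∧
        ∃ᶠ X : ℕ in atTop, c * (X / Real.log X) ≤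
          ({j : ℕ | ∀ i : Fin (k + 1), Nat.nth Nat.Prime (j + i) ≤ X ∧
            (Nat.nth Nat.Prime (j + i) : ℝ) ≤ Nat.nth Nat.Prime j + η * Real.log X ∧
            Nat.nth Nat.Prime (j + i) ≡ ρ (q i) [MOD Q] ∧
            ∀ l, nd (α l * Nat.nth Nat.Prime (j + i) - y (q i) l) < ε}.ncard : ℝ)

end Pool.Agent.H96.RW
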