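import Mathlib

/-!
# [H96 RW CS] MP_8923e7_nt, THEOREM R (all words): a window of cells with one prime each
-/

set_option autoImplicit false

namespace Pool.Agent.H96.RW

open Finset

/-- prescribed consecutive primes -/
theorem consecK {k : ℕ} (v : Fin (k + 1) → ℕ) (hv : StrictMono v) (hp : ∀ i, (v i).Prime)
    (hc : ∀ z : ℕ, v 0 ≤ z → z ≤ v (Fin.last k) → z.Prime → ∃ i, v i = z) :
    ∃ j : ℕ, ∀ i : Fin (k + 1), Nat.nth Nat.Prime (j + i) = v i := by
  classical
  have hstep : ∀ i i' : Fin (k + 1), (i' : ℕ) = i + 1 →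
      Nat.count Nat.Prime (v i') = Nat.count Nat.Prime (v i) + 1 := by
    intro i i' hii
    have hlt : i < i' := by
      rw [Fin.lt_def, hii]
      exact Nat.lt_succ_self _
    have hqlt : v i < v i' := hv hlt
    rw [Nat.count_eq_card_filter_range, Nat.count_eq_card_filter_range]
    have h1 : (range (v i')).filter Nat.Prime = insert (v i) ((range (v i)).filter Nat.Prime) := by
      ext r
      rw [mem_filter, mem_insert, mem_filter, mem_range, mem_range]
      constructor
      · rintro ⟨h2, h3⟩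
        rcases lt_trichotomy r (v i) with h4 | h4 | h4
        · exact Or.inr ⟨h4, h3⟩
        · exact Or.inl h4
        · exfalso
          have h5 : v 0 ≤ r := (hv.monotone (Fin.zero_le i)).trans h4.le
          have h6 : r ≤ v (Fin.last k) := h2.le.trans (hv.monotone (Fin.le_last i'))
          obtain ⟨c, hc⟩ := hc r h5 h6 h3
          rw [← hc] at h2 h4
          have h7 := hv.lt_iff_lt.1 h2
          have h8 := hv.lt_iff_lt.1 h4
          rw [Fin.lt_def] at h7 h8
          omega
      · rintro (h2 | ⟨h2, h3⟩)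
        · rw [h2]
          exact ⟨hqlt, hp i⟩
        · exact ⟨h2.trans hqlt, h3⟩
    rw [h1, card_insert_of_notMem]
    rw [mem_filter, mem_range]
    rintro ⟨h2, -⟩
    exact lt_irrefl _ h2
  have hcount : ∀ (i : ℕ) (hi : i < k + 1),
      Nat.count Nat.Prime (v ⟨i, hi⟩) = Nat.count Nat.Prime (v 0) + i := by
    intro i
    induction i with
    | zero => exact fun _ => rfl
    | succ i ih =>
      intro hi
      rw [hstep ⟨i, by omega⟩ ⟨i + 1, hi⟩ rfl, ih (by omega)]
      ring
  refine ⟨Nat.count Nat.Prime (v 0), fun i => ?_⟩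
  rw [← hcount i i.2]
  exact Nat.nth_count (hp i)

open Classical in
/-- if the hit cells are more than `k + (k+1)` times the cells hit twice, then some `k + 1` consecutive primes lie in different
cells -/
theorem consecW {n s k : ℕ} (N L : ℕ) (u : Fin n × Fin s → ℕ) (hu : ∀ p p', p.1 < p'.1 → u p < u p')
    (hle : ∀ p, u p ≤ L) (hcl : ∀ z ≤ L, (N + z).Prime → ∃ p, u p = z)
    (h : k + (k + 1) * (univ.filter (fun j : Fin n => ∃ l l' : Fin s, l ≠ l' ∧
      (N + u (j, l)).Prime ∧ (N + u (j, l')).Prime)).card <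
      (univ.filter (fun j : Fin n => ∃ l : Fin s, (N + u (j, l)).Prime)).card) :
    ∃ (q : Fin (k + 1) → Fin n) (l : Fin (k + 1) → Fin s) (j : ℕ), StrictMono q ∧
      ∀ r : Fin (k + 1), Nat.nth Nat.Prime (j + r) = N + u (q r, l r) := by
  obtain ⟨H, hH⟩ : ∃ H, H = univ.filter (fun j : Fin n => ∃ l : Fin s, (N + u (j, l)).Prime) :=
    ⟨_, rfl⟩
  obtain ⟨D, hD⟩ : ∃ D, D = univ.filter (fun j : Fin n => ∃ l l' : Fin s, l ≠ l' ∧
      (N + u (j, l)).Prime ∧ (N + u (j, l')).Prime) := ⟨_, rfl⟩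
  rw [← hH, ← hD] at h
  have hHm : ∀ j, j ∈ H ↔ ∃ l : Fin s, (N + u (j, l)).Prime := fun j => by
    rw [hH, mem_filter]
    simp
  have hDm : ∀ j, j ∈ D ↔ ∃ l l' : Fin s, l ≠ l' ∧
      (N + u (j, l)).Prime ∧ (N + u (j, l')).Prime := fun j => by
    rw [hD, mem_filter]
    simp
  obtain ⟨g, hg⟩ : ∃ g : Fin H.card ↪o Fin n, g = H.orderEmbOfFin rfl := ⟨_, rfl⟩
  have hgm : ∀ i, g i ∈ H := fun i => by
    rw [hg]
    exact H.orderEmbOfFin_mem rfl i
  have hgs : ∀ j ∈ H, ∃ i, g i = j := by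
    intro j hj
    have h6 : j ∈ Set.range (H.orderEmbOfFin rfl) := by
      rw [range_orderEmbOfFin]
      exact hj
    obtain ⟨i, hi⟩ := h6
    exact ⟨i, by rw [hg]; exact hi⟩
  have hHk : k < H.card := by omega
  -- a window without double cells
  obtain ⟨i0, hi0, hw⟩ : ∃ i0 : ℕ, i0 + k < H.card ∧
      ∀ (r : ℕ) (hr : i0 + r < H.card), r ≤ k → g ⟨i0 + r, hr⟩ ∉ D := by
    by_contra hcon
    push Not at hcon
    have h1 : ∀ i : Fin (H.card - k), ∃ r : Fin (k + 1), ∃ hr : (i : ℕ) + r < H.card,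
        g ⟨i + r, hr⟩ ∈ D := by
      intro i
      obtain ⟨r, hr, hrk, hrD⟩ := hcon i (by have := i.2; omega)
      exact ⟨⟨r, by omega⟩, hr, hrD⟩
    choose fr hfr hfD using h1
    have h2 : (univ : Finset (Fin (H.card - k))).card ≤
        ((univ : Finset (Fin (k + 1))) ×ˢ D).card := by
      refine card_le_card_of_injOn (fun i => (fr i, g ⟨i + fr i, hfr i⟩)) ?_ ?_
      · intro i _
        rw [mem_coe, mem_product]
        exact ⟨mem_univ _, hfD i⟩
      · intro i _ i' _ hii
        simp only [Prod.mk.injEq] at hii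
        obtain ⟨h3, h4⟩ := hii
        have h5 := g.injective h4
        rw [Fin.mk.injEq, h3] at h5
        exact Fin.ext (by omega)
    rw [card_univ, Fintype.card_fin, card_product, card_univ, Fintype.card_fin] at h2
    omega
  obtain ⟨q, hq⟩ : ∃ q : Fin (k + 1) → Fin n, q = fun r : Fin (k + 1) => g ⟨i0 + r, by
    have := r.2
    omega⟩ := ⟨_, rfl⟩
  have hqm : StrictMono q := by
    intro r r' hrr
    rw [hq]
    apply g.strictMono
    rw [Fin.lt_def]
    rw [Fin.lt_def] at hrr
    show i0 + (r : ℕ) < i0 + r'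
    omega
  have hqH : ∀ r, q r ∈ H := fun r => by
    rw [hq]
    exact hgm _
  have hqD : ∀ r, q r ∉ D := fun r => by
    rw [hq]
    exact hw r _ (by have := r.2; omega)
  choose l hl using fun r => (hHm (q r)).1 (hqH r)
  have huniq : ∀ r l', (N + u (q r, l')).Prime → l' = l r := by
    intro r l' hp
    by_contra hne
    exact hqD r ((hDm _).2 ⟨l', l r, hne, hp, hl r⟩)
  have hqs : ∀ j ∈ H, q 0 ≤ j → j ≤ q (Fin.last k) → ∃ r, q r = j := by
    intro j hj h1 h2
    obtain ⟨i, rfl⟩ := hgs j hj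
    rw [hq] at h1 h2
    have h3 := g.le_iff_le.1 h1
    have h4 := g.le_iff_le.1 h2
    rw [Fin.le_def] at h3 h4
    have h5 : i0 + 0 ≤ (i : ℕ) := h3
    have h6 : (i : ℕ) ≤ i0 + k := h4
    refine ⟨⟨i - i0, by omega⟩, ?_⟩
    rw [hq]
    show g ⟨i0 + (i - i0), _⟩ = g i
    congr 1
    exact Fin.ext (by show i0 + (i - i0) = (i : ℕ); omega)
  obtain ⟨j, hj⟩ := consecK (fun r => N + u (q r, l r)) (by
      intro r r' hrr
      have := hu (q r, l r) (q r', l r') (hqm hrr)
      show N + _ < N + _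
      omega) hl (by
      intro z hz1 hz2 hzp
      obtain ⟨y, rfl⟩ : ∃ y, z = N + y := ⟨z - N, by omega⟩
      have h1 : y ≤ u (q (Fin.last k), l (Fin.last k)) := by
        have : N + y ≤ N + u (q (Fin.last k), l (Fin.last k)) := hz2
        omega
      have h2 : u (q 0, l 0) ≤ y := by
        have : N + u (q 0, l 0) ≤ N + y := hz1
        omega
      obtain ⟨p, hp⟩ := hcl y (h1.trans (hle _)) hzp
      have hpH : p.1 ∈ H := (hHm _).2 ⟨p.2, by rw [hp]; exact hzp⟩
      have h3 : q 0 ≤ p.1 := by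
        by_contra hlt
        push Not at hlt
        have := hu p (q 0, l 0) hlt
        omega
      have h4 : p.1 ≤ q (Fin.last k) := by
        by_contra hlt
        push Not at hlt
        have := hu (q (Fin.last k), l (Fin.last k)) p hlt
        omega
      obtain ⟨r, hr⟩ := hqs p.1 hpH h3 h4
      refine ⟨r, ?_⟩
      have h5 : p.2 = l r := huniq r p.2 (by
        rw [hr, hp]
        exact hzp)
      show N + u (q r, l r) = N + y
      rw [hr, ← h5, hp])
  exact ⟨q, l, j, hqm, hj⟩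

end Pool.Agent.H96.RW
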