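import Pool.Agent.H96.RW.Mw
import Pool.Agent.H96.RW.Cs
import Pool.Agent.H96.RW.Dc
import Pool.Agent.H96.WP.Fin

/-!
# [H96 RW CF] MP_8923e7_nt, THEOREM R (all words): the core property with frequencies (from `H96/RO/Fin.lean`)
-/

set_option autoImplicit false

namespace Pool.Agent.H96.RW

open Finset Filter Pool.Agent.H21.MT Pool.Agent.H92.MM Pool.Agent.H61.UN Pool.Agent.H96.WP
  Pool.Agent.H95.RO Pool.Agent.H96.RO

/-- the strings counted in `CoreWF` -/
def JW {t n k : ℕ} (α : Fin t → ℝ) (Q : ℕ) (q : Fin (k + 1) → Fin n) (ρ : Fin n → ℕ)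
    (y : Fin n → Fin t → ℝ) (ε η : ℝ) (X : ℕ) : Set ℕ :=
  {j : ℕ | ∀ i : Fin (k + 1), Nat.nth Nat.Prime (j + i) ≤ X ∧
    (Nat.nth Nat.Prime (j + i) : ℝ) ≤ Nat.nth Nat.Prime j + η * Real.log X ∧
    Nat.nth Nat.Prime (j + i) ≡ ρ (q i) [MOD Q] ∧
    ∀ l, nd (α l * Nat.nth Nat.Prime (j + i) - y (q i) l) < ε}

theorem jw_le {t n k : ℕ} {α : Fin t → ℝ} {Q : ℕ} {q : Fin (k + 1) → Fin n} {ρ : Fin n → ℕ}
    {y : Fin n → Fin t → ℝ} {ε η : ℝ} {X : ℕ} {j : ℕ}
    (hj : j ∈ JW α Q q ρ y ε η X) : j ≤ X := by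
  have h1 := (hj 0).1
  have h2 : j ≤ Nat.nth Nat.Prime j :=
    (Nat.nth_strictMono Nat.infinite_setOfPred_prime).le_apply
  have h3 : Nat.nth Nat.Prime (j + ((0 : Fin (k + 1)) : ℕ)) = Nat.nth Nat.Prime j := by simp
  rw [h3] at h1
  exact h2.trans h1

open Classical in
/-- from the good `N` to strings of consecutive primes -/
theorem to_rotW {t : ℕ} (α : Fin t → ℝ) (k n s Q R : ℕ) (hQR : Q ∣ R) (β d ε1 ε η : ℝ)
    (ρ ρ' : Fin n → ℕ) (hρ : ∀ i, ρ' i ≡ ρ i [MOD Q]) (y : Fin n → Fin t → ℝ)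
    (hdε : d + ε1 ≤ ε) (L X : ℕ) (hLη : (L : ℝ) ≤ η * Real.log X)
    (hβn : (k : ℝ) < β * n) (G : Finset ℕ)
    (hGne : G.Nonempty) (hG : ∀ N ∈ G, N + L < X ∧
      GdW α n s R ((k : ℝ) + 1) β d ε1 (fun i => ρ' (finProdFinEquiv.symm i).1)
        (fun i => y (finProdFinEquiv.symm i).1) L N) :
    ∃ q : Fin (k + 1) → Fin n, StrictMono q ∧
      G.card ≤ n ^ (k + 1) * ((L + 1) * (JW α Q q ρ y ε η X).ncard) := by
  have hn0 : 0 < n := by
    rcases Nat.eq_zero_or_pos n with h | h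
    · exfalso
      rw [h, Nat.cast_zero, mul_zero] at hβn
      have : (0 : ℝ) ≤ k := Nat.cast_nonneg k
      linarith
    · exact h
  have hfp : ∀ p p' : Fin n × Fin s, p.1 < p'.1 → finProdFinEquiv p < finProdFinEquiv p' := by
    intro p p' hpp
    rw [Fin.lt_def]
    rw [Fin.lt_def] at hpp
    show (p.2 : ℕ) + s * p.1 < p'.2 + s * p'.1
    have h2 := p.2.2
    calc (p.2 : ℕ) + s * p.1 < s + s * p.1 := by omega
      _ = s * (p.1 + 1) := by ring
      _ ≤ s * p'.1 := Nat.mul_le_mul_left _ hpp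
      _ ≤ p'.2 + s * p'.1 := Nat.le_add_left _ _
  have h1 : ∀ N, ∃ (q : Fin (k + 1) → Fin n) (j : ℕ), N ∈ G →
      StrictMono q ∧ N ≤ Nat.nth Nat.Prime j ∧ Nat.nth Nat.Prime j ≤ N + L ∧
      j ∈ (range (X + 1)).filter (fun j => j ∈ JW α Q q ρ y ε η X) := by
    intro N
    by_cases hN : N ∈ G
    · obtain ⟨hNX, hRN, hNd, u, hu, hev, hcl⟩ := hG N hN
      obtain ⟨⟨hu1, hu2, hu3⟩, hu4⟩ := mem_BXR.1 hu
      obtain ⟨v, hv⟩ : ∃ v : Fin n × Fin s → ℕ, v = fun p => u (finProdFinEquiv p) := ⟨_, rfl⟩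
      rw [← hv] at hev
      have hvL : ∀ p, v p ≤ L := fun p => by rw [hv]; exact hu1 _
      have hcount : k + (k + 1) * dblc v N < hitc v N := by
        have h5 : β * n ≤ (hitc v N : ℝ) - ((k : ℝ) + 1) * (dblc v N : ℝ) := hev
        have h6 : (k : ℝ) + ((k : ℝ) + 1) * (dblc v N : ℝ) < hitc v N := by linarith
        exact_mod_cast h6
      obtain ⟨q, l, j, hq, hj⟩ := consecW (k := k) N L v (fun p p' hpp => by
          rw [hv]
          exact hu2 (hfp p p' hpp)) hvL (fun z hz hp => by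
          obtain ⟨i, hi⟩ := hcl z hz hp
          refine ⟨finProdFinEquiv.symm i, ?_⟩
          rw [hv]
          show u (finProdFinEquiv (finProdFinEquiv.symm i)) = z
          rw [Equiv.apply_symm_apply]
          exact hi) (by
          unfold hitc dblc at hcount
          exact hcount)
      have hj0 : Nat.nth Nat.Prime j = N + v (q 0, l 0) := by
        have := hj 0
        simpa using this
      refine ⟨q, j, fun _ => ⟨hq, ?_, ?_, ?_⟩⟩
      · rw [hj0]
        exact Nat.le_add_right _ _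
      · rw [hj0]
        exact Nat.add_le_add_left (hvL _) _
      · have hjX : ∀ i : Fin (k + 1), Nat.nth Nat.Prime (j + i) ≤ X := by
          intro i
          rw [hj i]
          have := hvL (q i, l i)
          omega
        rw [mem_filter, mem_range]
        refine ⟨?_, fun i => ?_⟩
        · have h2 : j ≤ Nat.nth Nat.Prime j :=
            (Nat.nth_strictMono Nat.infinite_setOfPred_prime).le_apply
          have h3 := hjX 0
          rw [hj 0, ← hj0] at h3
          omega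
        · refine ⟨hjX i, ?_⟩
          rw [hj i]
          have h4 := hvL (q i, l i)
          refine ⟨?_, ?_, fun l' => ?_⟩
          · rw [hj0]
            push_cast
            have h5 : ((v (q i, l i) : ℕ) : ℝ) ≤ L := by exact_mod_cast h4
            have h6 : (0 : ℝ) ≤ (v (q 0, l 0) : ℕ) := Nat.cast_nonneg _
            linarith
          · have h5 : N ≡ 0 [MOD Q] := Nat.modEq_zero_iff_dvd.2 (hQR.trans hRN)
            have h6 : v (q i, l i) ≡ ρ (q i) [MOD Q] := by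
              have h8 := (hu3 (finProdFinEquiv (q i, l i))).of_dvd hQR
              rw [Equiv.symm_apply_apply] at h8
              rw [hv]
              exact h8.trans (hρ _)
            have h7 := h5.add h6
            rwa [zero_add] at h7
          · have h1 := hu4 (finProdFinEquiv (q i, l i)) l'
            rw [Equiv.symm_apply_apply] at h1
            have h2 := hNd l'
            have hvv : v (q i, l i) = u (finProdFinEquiv (q i, l i)) := by rw [hv]
            rw [hvv]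
            push_cast
            have h3 : α l' * ((N : ℝ) + u (finProdFinEquiv (q i, l i))) - y (q i) l' =
                α l' * N + (α l' * u (finProdFinEquiv (q i, l i)) - y (q i) l') := by ring
            rw [h3]
            have h4 := nd_add (α l' * N) (α l' * u (finProdFinEquiv (q i, l i)) - y (q i) l')
            linarith
    · exact ⟨fun _ => ⟨0, hn0⟩, 0, fun h => absurd h hN⟩
  choose fA fj hf using h1
  -- pigeonhole over the cells
  obtain ⟨A, hA, hAc⟩ : ∃ A ∈ G.image fA,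
      G.card ≤ n ^ (k + 1) * (G.filter (fun N => fA N = A)).card := by
    by_contra hcon
    push Not at hcon
    have h2 : G.card = ∑ A ∈ G.image fA, (G.filter (fun N => fA N = A)).card :=
      card_eq_sum_card_fiberwise (fun N hN => mem_coe.2 (mem_image_of_mem fA hN))
    have h3 : ∑ A ∈ G.image fA, n ^ (k + 1) * (G.filter (fun N => fA N = A)).card <
        ∑ _A ∈ G.image fA, G.card :=
      sum_lt_sum_of_nonempty (hGne.image _) hcon
    rw [← mul_sum, ← h2, sum_const, smul_eq_mul] at h3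
    have h4 : (G.image fA).card ≤ n ^ (k + 1) := by
      refine (card_le_univ _).trans ?_
      rw [Fintype.card_fun, Fintype.card_fin, Fintype.card_fin]
    exact absurd h3 (not_lt.2 (Nat.mul_le_mul_right _ h4))
  obtain ⟨N0, hN0, hN0A⟩ := mem_image.1 hA
  have hAm : StrictMono A := by
    rw [← hN0A]
    exact (hf N0 hN0).1
  refine ⟨A, hAm, hAc.trans (Nat.mul_le_mul_left _ ?_)⟩
  -- at most `L + 1` of the `N` have the same `j`
  have h5 : (G.filter (fun N => fA N = A)).card ≤ (range (L + 1) ×ˢ ((range (X + 1)).filter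
      (fun j => j ∈ JW α Q A ρ y ε η X))).card := by
    refine card_le_card_of_injOn (fun N => (Nat.nth Nat.Prime (fj N) - N, fj N)) ?_ ?_
    · intro N hN
      rw [mem_coe, mem_filter] at hN
      obtain ⟨h6, h7, h8, h9⟩ := hf N hN.1
      rw [hN.2] at h9
      rw [mem_coe, mem_product, mem_range]
      exact ⟨by show _ - _ < _; omega, h9⟩
    · intro N hN N' hN' h
      rw [mem_coe, mem_filter] at hN hN'
      obtain ⟨-, h7, h8, -⟩ := hf N hN.1
      obtain ⟨-, h7', h8', -⟩ := hf N' hN'.1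
      simp only [Prod.mk.injEq] at h
      obtain ⟨h9, h10⟩ := h
      rw [h10] at h9 h7 h8
      omega
  have h6 : ((range (X + 1)).filter (fun j => j ∈ JW α Q A ρ y ε η X)).card ≤
      (JW α Q A ρ y ε η X).ncard := by
    rw [← Set.ncard_coe_finset]
    refine Set.ncard_le_ncard ?_ ?_
    · intro j hj
      rw [mem_coe, mem_filter] at hj
      exact hj.2
    · exact (Set.finite_Iic X).subset fun j hj => jw_le hj
  rw [card_product, card_range] at h5
  exact h5.trans (Nat.mul_le_mul_left _ h6)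

/-- **the core property with frequencies, from the measure theorem** -/
theorem coreWF_med {k : ℕ} {β : ℝ} (hβ : 0 < β) (hβ1 : β ≤ 1) (n : ℕ) (hn : 1 ≤ n)
    (hmed : MedW ((k : ℝ) + 1) β n) (hkn : (k : ℝ) < β / 4 * n) {t : ℕ} (α : Fin t → ℝ)
    (hα : Ind α) (hsc : Scl α) : CoreWF α k n := by
  classical
  intro ε hε Q hQ ρ hρ y η hη
  obtain ⟨d, hd⟩ : ∃ d : ℝ, d = min (ε / 4) (1 / 4) := ⟨_, rfl⟩
  have hd0 : 0 < d := by rw [hd]; positivity
  have hd1 : d ≤ ε / 4 := by rw [hd]; exact min_le_left _ _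
  have hd2 : d ≤ 1 / 4 := by rw [hd]; exact min_le_right _ _
  obtain ⟨s, w, Good, hs, hfr, hgc⟩ := good_rotW (by positivity : (0 : ℝ) ≤ (k : ℝ) + 1) hβ hβ1 n hn
    hmed α hα hsc d hd0 hd2 (ε / 2) (by positivity)
  obtain ⟨R, hRd⟩ : ∃ R, R = WR Q (primorial w) := ⟨_, rfl⟩
  have hR : 0 < R := by rw [hRd]; exact wr_pos hQ _
  have hRw : primorial w ∣ R := by rw [hRd]; exact primorial_dvd_wr Q w
  have hQR : Q ∣ R := by rw [hRd]; exact wr_dvd_R _ _
  have hcl : ∀ i, ∃ r' : ℕ, r' ≡ ρ i [MOD Q] ∧ Nat.Coprime r' R := by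
    intro i
    rw [hRd]
    exact exists_class Q _ (ρ i) (hρ i)
  choose ρ' hρ'1 hρ'2 using hcl
  obtain ⟨c, T, lam, L0, hc, hT, hlam, hL0, hev⟩ := hgc R hR hRw
    (fun i => ρ' (finProdFinEquiv.symm i).1) (fun i => hρ'2 _)
    (fun i => y (finProdFinEquiv.symm i).1)
  have hT0 : 0 < T := by linarith
  obtain ⟨r, hr⟩ : ∃ r, r = n * s := ⟨_, rfl⟩
  obtain ⟨θ, hθ⟩ : ∃ θ : ℝ, θ = min (min lam 1) η := ⟨_, rfl⟩
  have hθ0 : 0 < θ := by rw [hθ]; positivity
  have hθ1 : θ ≤ lam := by rw [hθ]; exact (min_le_left _ _).trans (min_le_left _ _)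
  have hθ2 : θ ≤ 1 := by rw [hθ]; exact (min_le_left _ _).trans (min_le_right _ _)
  have hθ3 : θ ≤ η := by rw [hθ]; exact min_le_right _ _
  have hnr : (0 : ℝ) < n := by exact_mod_cast hn
  obtain ⟨c', hc'⟩ : ∃ c' : ℝ, c' = c * (θ / 2) ^ r / ((n : ℝ) ^ (k + 1) * 2 * (3 * T)) := ⟨_, rfl⟩
  have hc'0 : 0 < c' := by rw [hc']; positivity
  -- every large good scale
  have H : ∀ᶠ x : ℝ in atTop, Good x → ∃ q : Fin (k + 1) → Fin n, StrictMono q ∧
      c' * (((⌈2 * T * x⌉₊ : ℕ) : ℝ) / Real.log ((⌈2 * T * x⌉₊ : ℕ) : ℝ)) ≤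
        ((JW α Q q ρ y ε η ⌈2 * T * x⌉₊).ncard : ℝ) := by
    filter_upwards [hev, eventually_gt_atTop (1 : ℝ),
      Real.tendsto_log_atTop.eventually_ge_atTop ((L0 + 2) / θ)] with x hev hx1 hlx2 hgx
    have hx0 : 0 < x := by linarith
    have hlx : 0 < Real.log x := Real.log_pos hx1
    obtain ⟨X, hX⟩ : ∃ X : ℕ, X = ⌈2 * T * x⌉₊ := ⟨_, rfl⟩
    rw [← hX]
    have hX1 : 2 * T * x ≤ X := by rw [hX]; exact Nat.le_ceil _
    have hX2 : (X : ℝ) < 2 * T * x + 1 := by
      rw [hX]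
      exact Nat.ceil_lt_add_one (by positivity)
    have hTx : x ≤ T * x := le_mul_of_one_le_left hx0.le hT
    have hX3 : (X : ℝ) ≤ 3 * T * x := by linarith
    have hxX : x ≤ X := by linarith
    have hlX : Real.log x ≤ Real.log X := Real.log_le_log hx0 hxX
    -- the scale `L`
    obtain ⟨L, hL⟩ : ∃ L : ℕ, L = ⌊θ * Real.log x⌋₊ := ⟨_, rfl⟩
    rw [div_le_iff₀ hθ0] at hlx2
    have hL1 : (L : ℝ) ≤ θ * Real.log x := by
      rw [hL]
      exact Nat.floor_le (by positivity)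
    have hL2 : θ * Real.log x < L + 1 := by
      rw [hL]
      exact Nat.lt_floor_add_one _
    have hL0r : (1 : ℝ) ≤ L0 := by exact_mod_cast hL0
    have hL3 : (L0 : ℝ) ≤ L := by linarith
    have hL3' : L0 ≤ L := by exact_mod_cast hL3
    have hL4 : θ / 2 ≤ (L : ℝ) / Real.log x := by
      rw [le_div_iff₀ hlx]
      linarith
    have hL5 : (L : ℝ) ≤ lam * Real.log x :=
      hL1.trans (mul_le_mul_of_nonneg_right hθ1 hlx.le)
    have hL6 : (L : ℝ) ≤ Real.log x := by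
      refine hL1.trans ?_
      calc θ * Real.log x ≤ 1 * Real.log x := mul_le_mul_of_nonneg_right hθ2 hlx.le
        _ = Real.log x := one_mul _
    have hL7 : (L : ℝ) ≤ η * Real.log X := by
      refine hL1.trans ?_
      exact mul_le_mul hθ3 hlX hlx.le hη.le
    have hgood := hev hgx L hL3' hL5
    obtain ⟨G, hG⟩ : ∃ G : Finset ℕ, G = (Tx x).filter (fun N : ℕ => (N : ℝ) ≤ T * x ∧
      GdW α n s R ((k : ℝ) + 1) (β / 4) d (ε / 2) (fun i => ρ' (finProdFinEquiv.symm i).1)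
        (fun i => y (finProdFinEquiv.symm i).1) L N) := ⟨_, rfl⟩
    rw [← hG] at hgood
    have hgood2 : c * x * (θ / 2) ^ r ≤ (G.card : ℝ) := by
      refine le_trans ?_ hgood
      rw [hr]
      apply mul_le_mul_of_nonneg_left _ (by positivity)
      exact pow_le_pow_left₀ (by positivity) hL4 (n * s)
    have hGpos : (0 : ℝ) < G.card := lt_of_lt_of_le (by positivity) hgood2
    have hGne : G.Nonempty := by
      rw [← card_pos]
      exact_mod_cast hGpos
    have hGm : ∀ N ∈ G, N + L < X ∧ GdW α n s R ((k : ℝ) + 1) (β / 4) d (ε / 2)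
        (fun i => ρ' (finProdFinEquiv.symm i).1) (fun i => y (finProdFinEquiv.symm i).1) L N := by
      intro N hN
      rw [hG, mem_filter] at hN
      refine ⟨?_, hN.2.2⟩
      have h1 : (N : ℝ) ≤ T * x := hN.2.1
      have h3 : Real.log x ≤ x - 1 := Real.log_le_sub_one_of_pos hx0
      have h4 : ((N + L : ℕ) : ℝ) < (X : ℝ) := by
        push_cast
        linarith
      exact_mod_cast h4
    obtain ⟨A, hA1, hA2⟩ := to_rotW α k n s Q R hQR (β / 4) d (ε / 2) ε η ρ ρ' hρ'1 y (by linarith)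
      L X hL7 hkn G hGne hGm
    refine ⟨A, hA1, ?_⟩
    obtain ⟨Z, hZ⟩ : ∃ Z : ℝ, Z = ((JW α Q A ρ y ε η X).ncard : ℝ) := ⟨_, rfl⟩
    have hZ0 : 0 ≤ Z := by rw [hZ]; exact Nat.cast_nonneg _
    have h2 : (G.card : ℝ) ≤ (n : ℝ) ^ (k + 1) * ((L + 1) * Z) := by
      rw [hZ]
      exact_mod_cast hA2
    rw [← hZ]
    have h3 : (G.card : ℝ) ≤ (n : ℝ) ^ (k + 1) * ((2 * Real.log x) * Z) := by
      refine h2.trans ?_
      apply mul_le_mul_of_nonneg_left _ (by positivity)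
      apply mul_le_mul_of_nonneg_right _ hZ0
      linarith
    have h4 := hgood2.trans h3
    have h5 : (X : ℝ) / Real.log X ≤ 3 * T * x / Real.log x := by
      calc (X : ℝ) / Real.log X ≤ (X : ℝ) / Real.log x :=
            div_le_div_of_nonneg_left (by positivity) hlx hlX
        _ ≤ 3 * T * x / Real.log x := div_le_div_of_nonneg_right hX3 hlx.le
    calc c' * ((X : ℝ) / Real.log X) ≤ c' * (3 * T * x / Real.log x) :=
          mul_le_mul_of_nonneg_left h5 hc'0.le
      _ = c * x * (θ / 2) ^ r / ((n : ℝ) ^ (k + 1) * 2 * Real.log x) := by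
          rw [hc']
          field_simp
      _ ≤ Z := by
          rw [div_le_iff₀ (by positivity)]
          linarith
  -- one `q` for arbitrarily large good scales
  obtain ⟨A, hA1, hA2⟩ : ∃ A : Fin (k + 1) → Fin n, StrictMono A ∧
      ∃ᶠ x : ℝ in atTop, c' * (((⌈2 * T * x⌉₊ : ℕ) : ℝ) / Real.log ((⌈2 * T * x⌉₊ : ℕ) : ℝ)) ≤
        ((JW α Q A ρ y ε η ⌈2 * T * x⌉₊).ncard : ℝ) := by
    by_contra hcon
    push Not at hcon
    have h1 : ∀ A : Fin (k + 1) → Fin n, ∀ᶠ x : ℝ in atTop, StrictMono A →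
        ¬ c' * (((⌈2 * T * x⌉₊ : ℕ) : ℝ) / Real.log ((⌈2 * T * x⌉₊ : ℕ) : ℝ)) ≤
          ((JW α Q A ρ y ε η ⌈2 * T * x⌉₊).ncard : ℝ) := by
      intro A
      by_cases h : StrictMono A
      · filter_upwards [hcon A h] with x hx _
        exact not_le.2 hx
      · exact Eventually.of_forall fun x h' => absurd h' h
    obtain ⟨x, hx1, hx2, hx3⟩ := (hfr.and_eventually (H.and (eventually_all.2 h1))).exists
    obtain ⟨A, h4, h5⟩ := hx2 hx1
    exact hx3 A h4 h5
  refine ⟨A, c', hA1, hc'0, ?_⟩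
  have htend : Tendsto (fun x : ℝ => ⌈2 * T * x⌉₊) atTop atTop :=
    tendsto_nat_ceil_atTop.comp (tendsto_id.const_mul_atTop (by positivity))
  exact htend.frequently hA2

/-- **the core property with frequencies** -/
theorem coreWF_of (k : ℕ) : ∃ n0 : ℕ, ∀ n : ℕ, n0 ≤ n → 1 ≤ n → ∀ (t : ℕ) (α : Fin t → ℝ), Ind α →
    Scl α → CoreWF α k n := by
  obtain ⟨β0, hβ0, hmed⟩ := medw ((k : ℝ) + 1) (by positivity)
  obtain ⟨β, hβ⟩ : ∃ β : ℝ, β = min β0 1 := ⟨_, rfl⟩
  have hβ1 : 0 < β := by rw [hβ]; exact lt_min hβ0 one_pos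
  have hβ2 : β ≤ 1 := by rw [hβ]; exact min_le_right _ _
  have hβ3 : β ≤ β0 := by rw [hβ]; exact min_le_left _ _
  obtain ⟨n0, hn0⟩ := exists_nat_gt ((k : ℝ) / (β / 4))
  refine ⟨n0, fun n hn hn1 t α hα hsc => ?_⟩
  refine coreWF_med hβ1 hβ2 n hn1 ?_ ?_ α hα hsc
  · intro e C0 he hC0
    obtain ⟨η0, hη0, H⟩ := hmed n hn1 e C0 he hC0
    refine ⟨η0, hη0, fun η hη hη1 => ?_⟩
    obtain ⟨s, a, C2, hs, ha, ha1, hC2, H⟩ := H η hη hη1
    refine ⟨s, a, C2, hs, ha, ha1, hC2, fun A => ?_⟩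
    obtain ⟨w0, H⟩ := H A
    refine ⟨w0, fun w hw R S δ hδ hδ1 hR => ?_⟩
    filter_upwards [H w hw R S δ hδ hδ1 hR] with x hx V W b hO
    obtain ⟨h1, ν, h2, h3, h4, h5, h6, h7⟩ := hx V W b hO
    exact ⟨h1, ν, h2, h3, h4, h5, fun j => hβ3.trans (h6 j), h7⟩
  · have h1 : (n0 : ℝ) ≤ n := by exact_mod_cast hn
    have h2 : (k : ℝ) / (β / 4) < n := by linarith
    rw [div_lt_iff₀ (by positivity)] at h2
    linarith

end Pool.Agent.H96.RW
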