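import Pool.Agent.H96.RW.Co
import Pool.Agent.H96.RW.Cf

/-!
# [H96 RW ALL] MP_8923e7_nt, THEOREM R (all words): both core properties
-/

set_option autoImplicit false

namespace Pool.Agent.H96.RW

open Pool.Agent.H95.RO

/-- **the core properties for words of length `k + 1`**: `n` depends on `k` only -/
theorem coreW_of (k : ℕ) : ∃ n : ℕ, ∀ (t : ℕ) (α : Fin t → ℝ), Ind α → Scl α →
    CoreW α k n ∧ CoreWF α k n := by
  obtain ⟨n1, h1⟩ := corew_of k
  obtain ⟨n2, h2⟩ := coreWF_of k
  exact ⟨max (max n1 n2) 1, fun t α hα hsc =>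
    ⟨h1 _ ((le_max_left _ _).trans (le_max_left _ _)) (le_max_right _ _) t α hα hsc,
      h2 _ ((le_max_right _ _).trans (le_max_left _ _)) (le_max_right _ _) t α hα hsc⟩⟩

end Pool.Agent.H96.RW
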