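import Pool.Agent.H72.NM.Ls

/-!
# [H96 RW CL] MP_8923e7_nt, THEOREM R (all words): one cell of shifts, at a fixed `x`

The mean number of hit cells minus `K` times the number of cells with two primes (from the lemmas of H92/MM/Co, Cp).
-/

set_option autoImplicit false

namespace Pool.Agent.H96.RW

open Finset Filter Pool.Agent.H21.MT Pool.Agent.H92.MM

section

variable {ι : Type} [Fintype ι] [DecidableEq ι] {L l b : ℕ} {bi : Fin L → ℕ}
  {a B η ϖ ε Δ κ : ℝ} {T : Finset ℕ} {ω : ℕ → ℝ} {m : ι → Fin L → ℕ → ℕ}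
  {c C E : ℝ} {F : ι → ℕ → ℝ}

private theorem par (hS : St (Fintype.card ι) L l b bi a B η ϖ ε Δ κ)
    (hκ : 4 * κ ≤ Δ * (1 / 4) ^ L) : 1 ≤ bn b l ^ Fintype.card ι ∧ 0 < AA b l L ∧
      κ ≤ Δ / 4 ∧ κ ≤ Δ * (bn b l ^ Fintype.card ι * AA b l L) := by
  have hn1 := bn_ge hS.hb hS.ht l
  have hn2 := bn_le hS.hb hS.ht l
  have hS1 := bS_ge hS.hb hS.ht l
  have hl0 : (0 : ℝ) ≤ l := Nat.cast_nonneg l
  have hK1 : 1 ≤ bn b l ^ Fintype.card ι := one_le_pow₀ hn1
  have hΔ0 := hS.hΔ0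
  have hp4 : ((1 : ℝ) / 4) ^ L ≤ 1 := pow_le_one₀ (by norm_num) (by norm_num)
  have hp2 : (0 : ℝ) < (1 / 2) ^ L := by positivity
  have hp42 : ((1 : ℝ) / 4) ^ L ≤ (1 / 2) ^ L := pow_le_pow_left₀ (by norm_num) (by norm_num) L
  have hA : (1 / 2) ^ L / 2 ≤ AA b l L := by
    unfold AA
    rw [div_le_div_iff₀ (by norm_num) (by linarith)]
    have h1 : 1 ≤ bS b l ^ 2 := one_le_pow₀ (by linarith)
    have h2 : (1 / 2 : ℝ) ^ L * bn b l ≤ (1 / 2) ^ L * 2 := mul_le_mul_of_nonneg_left hn2 hp2.le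
    have h3 : (1 / 2 : ℝ) ^ L * 1 ≤ (1 / 2) ^ L * bS b l ^ 2 := mul_le_mul_of_nonneg_left h1 hp2.le
    linarith
  have hA0 : 0 < AA b l L := by linarith
  have h1 : Δ * (1 / 4) ^ L ≤ Δ * 1 := mul_le_mul_of_nonneg_left hp4 hΔ0.le
  have h2 : Δ * (1 / 4) ^ L ≤ Δ * (1 / 2) ^ L := mul_le_mul_of_nonneg_left hp42 hΔ0.le
  have h3 : Δ * ((1 / 2) ^ L / 2) ≤ Δ * AA b l L := mul_le_mul_of_nonneg_left hA hΔ0.le
  have h4 : AA b l L ≤ bn b l ^ Fintype.card ι * AA b l L := by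
    have := mul_le_mul_of_nonneg_right hK1 hA0.le
    linarith
  have h5 : Δ * AA b l L ≤ Δ * (bn b l ^ Fintype.card ι * AA b l L) :=
    mul_le_mul_of_nonneg_left h4 hΔ0.le
  have h6 : 0 < Δ * AA b l L := mul_pos hΔ0 hA0
  exact ⟨hK1, hA0, by linarith, by linarith⟩

/-- upper bound for the mean -/
theorem co_up [Nonempty ι] (hS : St (Fintype.card ι) L l b bi a B η ϖ ε Δ κ)
    (hω : ∀ N, 0 ≤ ω N) (h1 : AppT T ω m a η ϖ (fun _ => 1) 1)
    (hL : Lg T ω m a η ϖ ε Δ κ c C F E) (x : ι) (hF : ∀ N ∈ T, 0 ≤ F x N) :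
    emu b l B T ω m (fun N => F x N * r0 m x N) ≤ 3 * E * AA b l L := by
  obtain ⟨hK1, hA0, hk1, hk2⟩ := par (ι := ι) hS hL.hκ
  have hz := co_z hS h1 hL.hκ
  have hzl := (fa_z hS h1).1
  have hup := (fa_up hS (hL.c0.le.trans hL.lo) (hL.one x) x).2
  have hε1 := hS.hε1
  have hε := hS.hε
  have hΔ0 := hS.hΔ0
  have hΔ1 := hS.hΔ1
  have hc := hL.c0
  have hc1 := hL.c1
  have hcE := hL.lo
  have hC1 := hL.C1
  have hΔc : 100 * Δ ≤ c / 100 := by
    have e1 := hL.hΔ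
    have e2 : c ^ 2 ≤ c := by nlinarith
    have e3 : ε * c ^ 2 ≤ 1 / 100 * c := mul_le_mul hε1 e2 (sq_nonneg c) (by norm_num)
    have e4 : 1 ≤ C ^ 2 := one_le_pow₀ hC1
    have e5 : Δ * 1 ≤ Δ * C ^ 2 := mul_le_mul_of_nonneg_left e4 hΔ0.le
    linarith
  obtain ⟨n, hn⟩ : ∃ n, n = bn b l ^ Fintype.card ι := ⟨_, rfl⟩
  rw [← hn] at hK1 hk2 hzl hup
  have hz2 : n * (9 / 10) ≤ AvT T ω (fun N => sg b l B m N ^ 2) := by
    refine le_trans ?_ hzl
    have e1 : ε * n ≤ 1 / 100 * n := mul_le_mul_of_nonneg_right hε1 (by linarith)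
    linarith
  have hle : AvT T ω (fun N => sg b l B m N ^ 2 * (F x N * r0 m x N)) ≤
      AvT T ω (fun N => sg b l B m N ^ 2 * rp bi m x N * F x N) := by
    unfold AvT
    refine sum_le_sum fun N hN => ?_
    refine mul_le_mul_of_nonneg_left ?_ (hω N)
    have e1 := r0_le_rp (m := m) hS.hbi x N
    have e2 := mul_le_mul_of_nonneg_left e1 (hF N hN)
    have e3 := mul_le_mul_of_nonneg_left e2 (sq_nonneg (sg b l B m N))
    linarith
  unfold emu
  rw [div_le_iff₀ hz]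
  refine hle.trans (hup.trans ?_)
  have hq : 0 < n * AA b l L := by positivity
  have hEn : 0 ≤ E := by linarith
  have e1 : (1 + Δ) * E * (n * AA b l L) + κ ≤ (2 * E) * (n * AA b l L) := by
    have e2 : Δ * (n * AA b l L) ≤ (E / 2) * (n * AA b l L) :=
      mul_le_mul_of_nonneg_right (by linarith) hq.le
    have e3 : Δ * E * (n * AA b l L) ≤ 1 / 2 * E * (n * AA b l L) :=
      mul_le_mul_of_nonneg_right (mul_le_mul_of_nonneg_right (by linarith) hEn) hq.le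
    linarith
  refine e1.trans ?_
  have e4 : 3 * E * AA b l L * (n * (9 / 10)) ≤
      3 * E * AA b l L * AvT T ω (fun N => sg b l B m N ^ 2) :=
    mul_le_mul_of_nonneg_left hz2 (by positivity)
  have e5 : 0 ≤ E * (n * AA b l L) := by positivity
  linarith

end

open Classical in
private theorem bonf {ι : Type} [DecidableEq ι] (V : Finset ι) (P : ι → Prop) [DecidablePred P]
    (K : ℝ) (hK : 0 ≤ K) :
    ∑ y ∈ V, (if P y then (1 : ℝ) else 0) - (K + 1) * ∑ y ∈ V, ∑ z ∈ V,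
        (if y ≠ z then (if P y ∧ P z then (1 : ℝ) else 0) else 0) ≤
      (if ∃ y ∈ V, P y then (1 : ℝ) else 0) -
        K * (if ∃ y ∈ V, ∃ z ∈ V, y ≠ z ∧ P y ∧ P z then 1 else 0) := by
  obtain ⟨U, hU⟩ : ∃ U, U = V.filter P := ⟨_, rfl⟩
  have hmem : ∀ y, y ∈ U ↔ y ∈ V ∧ P y := fun y => by rw [hU, mem_filter]
  have e1 : ∑ y ∈ V, (if P y then (1 : ℝ) else 0) = U.card := by
    rw [hU, sum_boole]
  have e2 : ∑ y ∈ V, ∑ z ∈ V, (if y ≠ z then (if P y ∧ P z then (1 : ℝ) else 0) else 0) =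
      (U.card : ℝ) * (U.card - 1) := by
    have h1 : ∀ y ∈ V, ∑ z ∈ V, (if y ≠ z then (if P y ∧ P z then (1 : ℝ) else 0) else 0) =
        if P y then (U.card : ℝ) - 1 else 0 := by
      intro y hy
      by_cases hp : P y
      · rw [if_pos hp]
        have hyU : y ∈ U := (hmem y).2 ⟨hy, hp⟩
        have h2 : ∑ z ∈ V, (if y ≠ z then (if P y ∧ P z then (1 : ℝ) else 0) else 0) =
            ((U.erase y).card : ℝ) := by
          rw [card_eq_sum_ones, Nat.cast_sum]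
          have h3 : U.erase y = V.filter (fun z => y ≠ z ∧ P z) := by
            ext z
            rw [mem_erase, hmem, mem_filter]
            constructor
            · rintro ⟨h4, h5, h6⟩
              exact ⟨h5, fun h => h4 h.symm, h6⟩
            · rintro ⟨h4, h5, h6⟩
              exact ⟨fun h => h5 h.symm, h4, h6⟩
          rw [h3, sum_filter]
          refine sum_congr rfl fun z _ => ?_
          by_cases h4 : y ≠ z
          · by_cases h5 : P z
            · rw [if_pos h4, if_pos ⟨hp, h5⟩, if_pos ⟨h4, h5⟩]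
              norm_num
            · rw [if_pos h4, if_neg (fun h => h5 h.2), if_neg (fun h => h5 h.2)]
          · rw [if_neg h4, if_neg (fun h => h4 h.1)]
        rw [h2, card_erase_of_mem hyU, Nat.cast_sub (card_pos.2 ⟨y, hyU⟩)]
        norm_num
      · rw [if_neg hp]
        refine sum_eq_zero fun z _ => ?_
        by_cases h4 : y ≠ z
        · rw [if_pos h4, if_neg (fun h => hp h.1)]
        · rw [if_neg h4]
    rw [sum_congr rfl h1, ← sum_filter, ← hU, sum_const, nsmul_eq_mul]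
  rw [e1, e2]
  rcases Nat.lt_trichotomy U.card 1 with h | h | h
  · have h0 : U.card = 0 := by omega
    have hE : U = ∅ := card_eq_zero.1 h0
    rw [if_neg, if_neg, h0]
    · simp
    · rintro ⟨y, hy, z, hz, -, hp, -⟩
      have := (hmem y).2 ⟨hy, hp⟩
      rw [hE] at this
      exact absurd this (notMem_empty _)
    · rintro ⟨y, hy, hp⟩
      have := (hmem y).2 ⟨hy, hp⟩
      rw [hE] at this
      exact absurd this (notMem_empty _)
  · obtain ⟨y, hy⟩ := card_eq_one.1 h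
    have hyU : y ∈ U := by rw [hy]; exact mem_singleton_self y
    rw [if_pos ⟨y, ((hmem y).1 hyU).1, ((hmem y).1 hyU).2⟩, if_neg, h]
    · norm_num
    · rintro ⟨z, hz, z', hz', hne, hp, hp'⟩
      have h1 : z ∈ U := (hmem z).2 ⟨hz, hp⟩
      have h2 : z' ∈ U := (hmem z').2 ⟨hz', hp'⟩
      rw [hy, mem_singleton] at h1 h2
      exact hne (h1.trans h2.symm)
  · obtain ⟨y, hy, z, hz, hne⟩ := one_lt_card.1 h
    have hy' := (hmem y).1 hy
    have hz' := (hmem z).1 hz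
    rw [if_pos ⟨y, hy'.1, hy'.2⟩, if_pos ⟨y, hy'.1, z, hz'.1, hne, hy'.2, hz'.2⟩]
    have h2 : (2 : ℝ) ≤ U.card := by exact_mod_cast h
    have h3 : (U.card : ℝ) * 1 ≤ U.card * (U.card - 1) :=
      mul_le_mul_of_nonneg_left (by linarith) (by linarith)
    have h4 : (K + 1) * ((U.card : ℝ) * 1) ≤ (K + 1) * ((U.card : ℝ) * (U.card - 1)) :=
      mul_le_mul_of_nonneg_left h3 (by linarith)
    have h5 : K * 2 ≤ K * (U.card : ℝ) := mul_le_mul_of_nonneg_left h2 hK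
    linarith

open Classical in
/-- one cell: hits minus `K` times double hits -/
theorem cell_step {ι : Type} [Fintype ι] [DecidableEq ι] [Nonempty ι] (h : ι → ℕ)
    (T : Finset ℕ) (ω : ℕ → ℝ) {L l b : ℕ} {bi : Fin L → ℕ} {a B η ϖ ε Δ κ : ℝ}
    (m : ι → Fin L → ℕ → ℕ) (hS : St (Fintype.card ι) L l b bi a B η ϖ ε Δ κ)
    (hω : ∀ N, 0 ≤ ω N) (h1 : AppT T ω m a η ϖ (fun _ => 1) 1)
    (G : ℕ → ℝ) {EG c C : ℝ} (hG : Lg T ω m a η ϖ ε Δ κ c C (fun x N => G (N + h x)) EG)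
    (hG0 : ∀ n, 0 ≤ G n)
    (hprime : ∀ x : ι, ∀ N ∈ T, (N + h x).Prime → (∀ i, m x i N = 0) ∧ 1 ≤ G (N + h x)) {pr : ℝ}
    (hlaw : ∀ x : ι, ∀ A : ι → Fin L → ℕ, (∀ i, A x i = 0) → sl a L A ≤ η →
      |AvT T ω (fun N => mon m A N * (if (N + h x).Prime then 1 else 0)) - sv L A * pr| ≤ ϖ)
    {cc : ℝ} (hcc : 1 / 10 ≤ cc) (hcc1 : cc ≤ 1)
    (hpr : cc * EG ≤ (1 + ε) ^ 2 * (2 ^ L * pr)) (V : Finset ι) (K ρ lam : ℝ) (hK : 0 ≤ K)
    (hρ : 12 * EG ≤ ρ * c) (hlam0 : 0 < lam) (hlam1 : lam ≤ V.card * (c / 4 * AA b l L))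
    (hlam2 : V.card * (c / 4 * AA b l L) ≤ 2 * lam) (hlam3 : (K + 1) * (16 * ρ * lam) ≤ cc)
    (hε2 : ε ≤ 1 / 1000) :
    cc / 4 * lam ≤ ∑ N ∈ T, ω N * sg b l B m N ^ 2 / AvT T ω (fun N => sg b l B m N ^ 2) *
      ((if ∃ y ∈ V, (N + h y).Prime then (1 : ℝ) else 0) -
        K * (if ∃ y ∈ V, ∃ z ∈ V, y ≠ z ∧ (N + h y).Prime ∧ (N + h z).Prime then 1 else 0)) := by
  have hz : 0 < AvT T ω (fun N => sg b l B m N ^ 2) := co_z hS h1 hG.hκ
  have hAA : 0 ≤ AA b l L := AA_nonneg hS.hb hS.ht l L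
  have hε := hS.hε
  have hc0 := hG.c0
  obtain ⟨μ, hμd⟩ : ∃ μ : ℕ → ℝ, μ = fun N => ω N * sg b l B m N ^ 2 /
    AvT T ω (fun N => sg b l B m N ^ 2) := ⟨_, rfl⟩
  have hμ0 : ∀ N, 0 ≤ μ N := by
    intro N
    rw [hμd]
    have := hω N
    positivity
  have hEx : ∀ f : ℕ → ℝ, ∑ N ∈ T, μ N * f N = emu b l B T ω m f := by
    intro f
    rw [hμd]
    exact ex_emu b l B T ω m f
  obtain ⟨g, hg⟩ : ∃ g : ι → ℕ → ℝ, g = fun y N => G (N + h y) * r0 m y N := ⟨_, rfl⟩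
  have hg0 : ∀ y N, 0 ≤ g y N := by
    intro y N
    rw [hg]
    exact mul_nonneg (hG0 _) (r0_nonneg _ _)
  have hg1 : ∀ y, ∀ N ∈ T, (N + h y).Prime → 1 ≤ g y N := by
    intro y N hN hp
    have h2 := hprime y N hN hp
    rw [hg]
    show 1 ≤ G (N + h y) * r0 m y N
    rw [r0, if_pos h2.1, mul_one]
    exact h2.2
  obtain ⟨M, hM⟩ : ∃ M : ι → ℝ, ∀ y, M y = ∑ N ∈ T, μ N * g y N := ⟨_, fun _ => rfl⟩
  have hM1 : ∀ y, c / 4 * AA b l L ≤ M y := by
    intro y
    rw [hM, hEx, hg]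
    exact co_mean hS hω h1 hG y
  have hM2 : ∀ y, M y ≤ 3 * EG * AA b l L := by
    intro y
    rw [hM, hEx, hg]
    exact co_up hS hω h1 hG y (fun N _ => hG0 _)
  have hM0 : ∀ y, 0 ≤ M y := fun y => le_trans (by positivity) (hM1 y)
  have hpair : ∀ y z, y ≠ z → ∑ N ∈ T, μ N * (g y N * g z N) ≤ 11 / 10 * (M y * M z) := by
    intro y z hyz
    have h3 := co_pair hS hω h1 hG hyz
    rw [hEx, hM, hM, hEx, hEx, hg]
    refine h3.trans (mul_le_mul_of_nonneg_right (by linarith) ?_)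
    have h4 := hM0 y
    have h5 := hM0 z
    rw [hM, hEx, hg] at h4 h5
    exact mul_nonneg h4 h5
  have hpri : ∀ y, 9 / 10 * cc * M y ≤ ∑ N ∈ T, μ N * (if (N + h y).Prime then 1 else 0) := by
    intro y
    have h10 := co_primeC hS hω h1 hG y (fun N _ => hG0 _)
      (fun N => (N + h y).Prime) (pr := pr)
      (fun N hN hp => (hprime y N hN hp).1)
      (fun A hA hA2 => by
        have h11 := hlaw y A hA hA2
        refine le_trans (le_of_eq ?_) h11
        congr 3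
        funext N
        congr) hcc hcc1 hpr
    rw [hEx]
    have h13 : 9 / 10 * cc ≤ (1 - 10 * ε) * cc :=
      mul_le_mul_of_nonneg_right (by linarith) (by linarith)
    have h14 : M y = emu b l B T ω m
        (fun N => (fun x N => G (N + h x)) y N * r0 m y N) := by
      rw [hM, hEx, hg]
    rw [h14]
    rw [h14.symm] at h10
    rw [← h14]
    refine (mul_le_mul_of_nonneg_right h13 (hM0 y)).trans (h10.trans (le_of_eq ?_))
    congr 1
    funext N
    congr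
  obtain ⟨X, hX⟩ : ∃ X : ℝ, X = ∑ y ∈ V, M y := ⟨_, rfl⟩
  have hX1 : lam ≤ X := by
    refine hlam1.trans ?_
    rw [hX, ← nsmul_eq_mul, ← sum_const]
    exact sum_le_sum fun y _ => hM1 y
  have hX2 : X ≤ 2 * ρ * lam := by
    have h2 : X ≤ V.card * (3 * EG * AA b l L) := by
      rw [hX, ← nsmul_eq_mul, ← sum_const]
      exact sum_le_sum fun y _ => hM2 y
    have h3 : (V.card : ℝ) * (3 * EG * AA b l L) = 12 * EG * (V.card * AA b l L) / 4 := by ring
    have h4 : 12 * EG * (V.card * AA b l L) ≤ ρ * c * (V.card * AA b l L) :=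
      mul_le_mul_of_nonneg_right hρ (by positivity)
    have h5 : ρ * c * (V.card * AA b l L) / 4 = ρ * (V.card * (c / 4 * AA b l L)) := by ring
    have hρ0 : 0 ≤ ρ := by
      by_contra hneg
      push Not at hneg
      have h6 : ρ * c < 0 := mul_neg_of_neg_of_pos hneg hc0
      have h7 : 0 ≤ EG := hc0.le.trans hG.lo
      linarith
    have h6 : ρ * (V.card * (c / 4 * AA b l L)) ≤ ρ * (2 * lam) :=
      mul_le_mul_of_nonneg_left hlam2 hρ0
    linarith
  have hX0 : 0 < X := lt_of_lt_of_le hlam0 hX1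
  have hsum : 9 / 10 * cc * X - (K + 1) * (11 / 10 * X ^ 2) ≤
      ∑ N ∈ T, μ N * (∑ y ∈ V, (if (N + h y).Prime then (1 : ℝ) else 0) -
        (K + 1) * ∑ y ∈ V, ∑ z ∈ V,
          (if y ≠ z then (if (N + h y).Prime ∧ (N + h z).Prime then (1 : ℝ) else 0) else 0)) := by
    have e1 : ∑ N ∈ T, μ N * (∑ y ∈ V, (if (N + h y).Prime then (1 : ℝ) else 0) -
        (K + 1) * ∑ y ∈ V, ∑ z ∈ V,
          (if y ≠ z then (if (N + h y).Prime ∧ (N + h z).Prime then (1 : ℝ) else 0) else 0)) =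
        ∑ y ∈ V, ∑ N ∈ T, μ N * (if (N + h y).Prime then (1 : ℝ) else 0) -
        (K + 1) * ∑ y ∈ V, ∑ z ∈ V, ∑ N ∈ T, μ N *
          (if y ≠ z then (if (N + h y).Prime ∧ (N + h z).Prime then (1 : ℝ) else 0) else 0) := by
      have e2 : ∑ y ∈ V, ∑ z ∈ V, ∑ N ∈ T, μ N *
          (if y ≠ z then (if (N + h y).Prime ∧ (N + h z).Prime then (1 : ℝ) else 0) else 0) =
          ∑ N ∈ T, μ N * ∑ y ∈ V, ∑ z ∈ V,
          (if y ≠ z then (if (N + h y).Prime ∧ (N + h z).Prime then (1 : ℝ) else 0) else 0) := by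
        simp_rw [mul_sum]
        rw [sum_comm]
        have e3 : ∀ y ∈ V, ∑ z ∈ V, ∑ N ∈ T, μ N *
          (if y ≠ z then (if (N + h y).Prime ∧ (N + h z).Prime then (1 : ℝ) else 0) else 0) =
          ∑ N ∈ T, ∑ z ∈ V, μ N *
          (if y ≠ z then (if (N + h y).Prime ∧ (N + h z).Prime then (1 : ℝ) else 0) else 0) :=
          fun y _ => sum_comm
        rw [sum_comm, sum_congr rfl e3, sum_comm]
      have e4 : ∑ y ∈ V, ∑ N ∈ T, μ N * (if (N + h y).Prime then (1 : ℝ) else 0) =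
          ∑ N ∈ T, μ N * ∑ y ∈ V, (if (N + h y).Prime then (1 : ℝ) else 0) := by
        simp_rw [mul_sum]
        rw [sum_comm]
      rw [e2, e4, mul_sum, ← sum_sub_distrib]
      refine sum_congr rfl fun N _ => ?_
      ring
    rw [e1]
    have e5 : 9 / 10 * cc * X ≤
        ∑ y ∈ V, ∑ N ∈ T, μ N * (if (N + h y).Prime then (1 : ℝ) else 0) := by
      rw [hX, mul_sum]
      exact sum_le_sum fun y _ => hpri y
    have e6 : ∑ y ∈ V, ∑ z ∈ V, ∑ N ∈ T, μ N *
          (if y ≠ z then (if (N + h y).Prime ∧ (N + h z).Prime then (1 : ℝ) else 0) else 0) ≤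
        11 / 10 * X ^ 2 := by
      have e7 : 11 / 10 * X ^ 2 = ∑ y ∈ V, ∑ z ∈ V, 11 / 10 * (M y * M z) := by
        rw [hX, sq, sum_mul_sum, mul_sum]
        refine sum_congr rfl fun y _ => ?_
        rw [mul_sum]
      rw [e7]
      refine sum_le_sum fun y _ => sum_le_sum fun z _ => ?_
      by_cases hyz : y ≠ z
      · refine le_trans (sum_le_sum fun N hN => ?_) (hpair y z hyz)
        refine mul_le_mul_of_nonneg_left ?_ (hμ0 N)
        rw [if_pos hyz]
        split_ifs with hp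
        · have f1 := hg1 y N hN hp.1
          have f2 := hg1 z N hN hp.2
          have f3 := hg0 z N
          nlinarith
        · exact mul_nonneg (hg0 _ _) (hg0 _ _)
      · have f1 := hM0 y
        have f2 := hM0 z
        have f3 : ∑ N ∈ T, μ N *
          (if y ≠ z then (if (N + h y).Prime ∧ (N + h z).Prime then (1 : ℝ) else 0) else 0) = 0 := by
          refine sum_eq_zero fun N _ => ?_
          rw [if_neg hyz, mul_zero]
        rw [f3]
        positivity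
    have e7 : (K + 1) * ∑ y ∈ V, ∑ z ∈ V, ∑ N ∈ T, μ N *
          (if y ≠ z then (if (N + h y).Prime ∧ (N + h z).Prime then (1 : ℝ) else 0) else 0) ≤
        (K + 1) * (11 / 10 * X ^ 2) := mul_le_mul_of_nonneg_left e6 (by linarith)
    linarith
  have hbo : ∑ N ∈ T, μ N * (∑ y ∈ V, (if (N + h y).Prime then (1 : ℝ) else 0) -
        (K + 1) * ∑ y ∈ V, ∑ z ∈ V,
          (if y ≠ z then (if (N + h y).Prime ∧ (N + h z).Prime then (1 : ℝ) else 0) else 0)) ≤
      ∑ N ∈ T, μ N * ((if ∃ y ∈ V, (N + h y).Prime then (1 : ℝ) else 0) -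
        K * (if ∃ y ∈ V, ∃ z ∈ V, y ≠ z ∧ (N + h y).Prime ∧ (N + h z).Prime then 1 else 0)) := by
    refine sum_le_sum fun N _ => mul_le_mul_of_nonneg_left ?_ (hμ0 N)
    exact bonf V (fun y => (N + h y).Prime) K hK
  have hfin := hsum.trans hbo
  rw [hμd] at hfin
  refine le_trans ?_ hfin
  have e1 : (K + 1) * X ≤ cc / 8 := by
    have e2 : (K + 1) * X ≤ (K + 1) * (2 * ρ * lam) := mul_le_mul_of_nonneg_left hX2 (by linarith)
    linarith
  have e3 : (K + 1) * X * X ≤ cc / 8 * X := mul_le_mul_of_nonneg_right e1 hX0.le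
  have e4 : cc * lam ≤ cc * X := mul_le_mul_of_nonneg_left hX1 (by linarith)
  have e5 : (K + 1) * (11 / 10 * X ^ 2) = 11 / 10 * ((K + 1) * X * X) := by ring
  rw [e5]
  have e6 : 0 ≤ cc * X := by
    have : 0 ≤ cc := by linarith
    positivity
  linarith

end Pool.Agent.H96.RW
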