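import Pool.Agent.H92.MM.Pc
import Pool.Agent.H92.MM.Fd

/-!
# [H96 RW PR] MP_8923e7_nt, THEOREM R (all words): parameters with a cell of prescribed small mass (from `params`, H92/MM/Pc)
-/

set_option autoImplicit false

namespace Pool.Agent.H96.RW

open Finset Filter Pool.Agent.H92.MM

private theorem st_mono {K K' L l b : ℕ} {bi : Fin L → ℕ} {a B η ϖ ε Δ κ : ℝ}
    (h : St K L l b bi a B η ϖ ε Δ κ) (hK : K' ≤ K) : St K' L l b bi a B η ϖ ε Δ κ := by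
  have hKr : (K' : ℝ) ≤ K := by exact_mod_cast hK
  refine ⟨h.hl, h.hb, h.hbi, h.ha, h.ht, h.hlt, h.hε, h.hε1, h.hΔ0, h.hΔ1, h.hΔ, h.hB,
    (mul_le_mul_of_nonneg_right hKr (Nat.cast_nonneg l)).trans h.hK, h.hlev, h.hϖ,
    le_trans ?_ h.hκ⟩
  apply mul_le_mul_of_nonneg_left _ (by positivity)
  apply mul_le_mul_of_nonneg_left _ h.hϖ
  unfold XT
  apply mul_le_mul
  · apply pow_le_pow_left₀ (by positivity)
    exact pow_le_pow_right₀ (by linarith [(Nat.cast_nonneg l : (0 : ℝ) ≤ l)]) hK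
  · apply pow_le_pow_right₀ (by norm_num)
    apply Nat.add_le_add_right
    exact Nat.mul_le_mul_right _ (Nat.mul_le_mul_right _ hK)
  · positivity
  · positivity

private theorem sq_small (y : ℝ) (hy : 0 < y) : ∃ L0 : ℕ, ∀ L : ℕ, L0 ≤ L →
    ((L : ℝ) + 1) ^ 2 * (1 / 2) ^ L ≤ y := by
  have h1 : Tendsto (fun n : ℕ => (n : ℝ) ^ 2 * (1 / 2 : ℝ) ^ n) atTop (nhds 0) :=
    tendsto_pow_const_mul_const_pow_of_abs_lt_one 2 (by rw [abs_of_pos] <;> norm_num)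
  have h2 : Tendsto (fun n : ℕ => ((n + 1 : ℕ) : ℝ) ^ 2 * (1 / 2 : ℝ) ^ (n + 1)) atTop (nhds 0) :=
    (tendsto_add_atTop_iff_nat 1).2 h1
  have h3 := h2.eventually (gt_mem_nhds (show (0 : ℝ) < y / 2 by linarith))
  obtain ⟨L0, hL0⟩ := eventually_atTop.1 h3
  refine ⟨L0, fun L hL => ?_⟩
  have h4 := hL0 L hL
  push_cast at h4
  have h5 : ((L : ℝ) + 1) ^ 2 * (1 / 2) ^ (L + 1) = ((L : ℝ) + 1) ^ 2 * (1 / 2) ^ L / 2 := by
    rw [pow_succ (1 / 2 : ℝ) L]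
    ring
  rw [h5] at h4
  linarith

theorem params2 (η ε a0 Δ : ℝ) (j0 : ℕ) (hη : 0 < η) (hη1 : η ≤ 1) (hε : 0 < ε)
    (hε1 : ε ≤ 1 / 100) (ha0 : 0 < a0) (ha1 : a0 ≤ 1 / 20) (ha2 : a0 ≤ η / 16) (hΔ : 0 < Δ)
    (hΔ1 : Δ ≤ 1 / 100) (hj : a0 * (4 * j0 + 10) ≤ η / 4)
    (ht : ∀ L : ℕ, ∏ i : Fin L, (1 + tau (2 * (j0 + L - i))) ≤ 1 + Δ)
    (k : ℕ) (hk : 1 ≤ k) (c c0 P0 : ℝ) (hc : 0 < c) (hc1 : c ≤ 1) (hc0 : 0 < c0) (hP0 : 0 < P0) :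
    ∃ (s L l b : ℕ) (B κ : ℝ), 1 ≤ s ∧
      St (k * s) L l b (fun i : Fin L => 2 * (j0 + L - i)) (a0 / 2 ^ L) B η
        (Real.exp (-(10 / (a0 / 2 ^ L)))) ε Δ κ ∧
      4 * κ ≤ Δ * (1 / 4) ^ L ∧ ((k * s : ℕ) : ℝ) * (a0 / 2 ^ L) ≤ c0 ∧
      P0 ≤ s * (c / 4 * AA b l L) ∧ s * (c / 4 * AA b l L) ≤ 2 * P0 := by
  obtain ⟨L0, hL0⟩ := sq_small P0 hP0
  obtain ⟨c0', hc0'⟩ : ∃ c0' : ℝ, c0' = min c0 (a0 / 2 ^ L0) := ⟨_, rfl⟩
  have hc0'0 : 0 < c0' := by rw [hc0']; positivity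
  obtain ⟨s, L, l, b, B, κ, hs, hSt, hκ, hKa, hP⟩ :=
    params η ε a0 Δ j0 hη hη1 hε hε1 ha0 ha1 ha2 hΔ hΔ1 hj ht k hk c c0' P0 hc hc0'0
  have hLL : L0 ≤ L := by
    have h1 : ((k * s : ℕ) : ℝ) * (a0 / 2 ^ L) ≤ a0 / 2 ^ L0 :=
      hKa.trans (by rw [hc0']; exact min_le_right _ _)
    have h2 : (1 : ℝ) ≤ ((k * s : ℕ) : ℝ) := by
      have : 1 ≤ k * s := Nat.mul_pos hk hs
      exact_mod_cast this
    have h3 : a0 / 2 ^ L ≤ a0 / 2 ^ L0 := by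
      refine le_trans ?_ h1
      exact le_mul_of_one_le_left (by positivity) h2
    have h4 : (2 : ℝ) ^ L0 ≤ 2 ^ L := by
      rw [div_le_div_iff₀ (by positivity) (by positivity)] at h3
      exact le_of_mul_le_mul_left h3 ha0
    exact (pow_le_pow_iff_right₀ (by norm_num)).1 h4
  obtain ⟨y, hy⟩ : ∃ y : ℝ, y = c / 4 * AA b l L := ⟨_, rfl⟩
  have hbn := bn_ge hSt.hb hSt.ht l
  have hbS := bS_ge hSt.hb hSt.ht l
  have hbS2 := bS_le hSt.hb l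
  have hl0 : (0 : ℝ) ≤ l := Nat.cast_nonneg l
  have hy0 : 0 < y := by
    rw [hy]
    unfold AA
    have : 0 < bS b l := by linarith
    have : 0 < bn b l := by linarith
    positivity
  have hyP : y ≤ P0 := by
    have h1 : AA b l L ≤ ((L : ℝ) + 1) ^ 2 * (1 / 2) ^ L := by
      unfold AA
      rw [div_le_iff₀ (by linarith)]
      have h2 : bS b l ^ 2 ≤ ((L : ℝ) + 1) ^ 2 := by
        apply pow_le_pow_left₀ (by linarith)
        have h3 : (l : ℝ) ≤ L := by exact_mod_cast hSt.hl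
        linarith
      have h4 : (0 : ℝ) < (1 / 2) ^ L := by positivity
      have h5 : (1 / 2 : ℝ) ^ L * bS b l ^ 2 ≤ (1 / 2) ^ L * ((L : ℝ) + 1) ^ 2 :=
        mul_le_mul_of_nonneg_left h2 h4.le
      have h6 : ((L : ℝ) + 1) ^ 2 * (1 / 2) ^ L * 1 ≤ ((L : ℝ) + 1) ^ 2 * (1 / 2) ^ L * bn b l :=
        mul_le_mul_of_nonneg_left hbn (by positivity)
      linarith
    have h2 := hL0 L hLL
    have h3 : 0 ≤ AA b l L := by
      unfold AA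
      have : 0 < bn b l := by linarith
      positivity
    rw [hy]
    calc c / 4 * AA b l L ≤ 1 * AA b l L := mul_le_mul_of_nonneg_right (by linarith) h3
      _ = AA b l L := one_mul _
      _ ≤ P0 := h1.trans h2
  obtain ⟨s', hs'⟩ : ∃ s' : ℕ, s' = ⌈P0 / y⌉₊ := ⟨_, rfl⟩
  have h1 : P0 / y ≤ s' := by rw [hs']; exact Nat.le_ceil _
  have h2 : (s' : ℝ) < P0 / y + 1 := by rw [hs']; exact Nat.ceil_lt_add_one (by positivity)
  have h3 : s' ≤ s := by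
    rw [hs']
    apply Nat.ceil_le.2
    rw [div_le_iff₀ hy0, hy]
    exact hP
  have h4 : 1 ≤ s' := by
    rw [hs']
    exact Nat.one_le_ceil_iff.2 (by positivity)
  refine ⟨s', L, l, b, B, κ, h4, st_mono hSt (Nat.mul_le_mul_left _ h3), hκ, ?_, ?_, ?_⟩
  · refine le_trans ?_ (hKa.trans (by rw [hc0']; exact min_le_left _ _))
    apply mul_le_mul_of_nonneg_right _ (by positivity)
    exact_mod_cast Nat.mul_le_mul_left _ h3
  · rw [← hy]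
    rwa [div_le_iff₀ hy0] at h1
  · rw [← hy]
    have h5 : (s' : ℝ) * y ≤ (P0 / y + 1) * y := mul_le_mul_of_nonneg_right h2.le hy0.le
    have h6 : (P0 / y + 1) * y = P0 + y := by field_simp
    linarith

end Pool.Agent.H96.RW
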