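import Pool.Agent.H96.RW.Df
import Pool.Agent.H95.RO.Twl
import Pool.Agent.H72.NU.Fin

/-!
# [H96 RW TL] MP_8923e7_nt, THEOREM R (all words): the uniform twisted laws for one and two weights of level `9/20`
-/

set_option autoImplicit false

namespace Pool.Agent.H96.RW

open Finset Filter Topology Pool.Agent.H21.MT Pool.Agent.H92.MM Pool.Agent.H89.P2 Pool.Agent.H72.NU
  Pool.Agent.H11.PT Pool.Agent.H11.RG Pool.Agent.H95.RO

theorem intd_mono {η η' a0 : ℝ} {Φ : ℝ → ℕ → ℝ} {E : ℝ → ℝ} (h : IntD η a0 Φ E) (hη : η' ≤ η) :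
    IntD η' a0 Φ E := by
  obtain ⟨c, θ, C, hc, hθ, hC, h⟩ := h
  refine ⟨c, θ, C, hc, hθ, hC, ?_⟩
  filter_upwards [h, eventually_ge_atTop (1 : ℝ)] with x h hx X1 X2 q0 r h4 h5 h6 h7 h8
  refine (h X1 X2 q0 r h4 h5 h6 (h7.trans ?_) h8).trans ?_
  · exact Real.rpow_le_rpow_of_exponent_le hx (by linarith)
  · apply mul_le_mul_of_nonneg_left _ hC.le
    have h9 : x ^ (1 - η / 128) ≤ x ^ (1 - η' / 128) :=
      Real.rpow_le_rpow_of_exponent_le hx (by linarith)
    linarith

private theorem okl_okw {δ a0 : ℝ} {W : List (ℝ × List ℕ × List ℕ)} (h : Okl δ a0 W) :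
    Okw δ a0 W := by
  refine ⟨h.1, fun w hw => ?_⟩
  obtain ⟨h1, h2⟩ := h.2 w hw
  constructor
  · linarith
  · rw [h2]
    simp only [size, List.map_nil, List.sum_nil, Nat.cast_zero, zero_mul]
    norm_num

open Classical in
/-- the twisted laws for one and two weights -/
theorem tl_law (η Θ C0 a0 δ' : ℝ) (hη : 0 < η) (hη1 : η ≤ 1 / 2000) (hΘ : 0 < Θ) (hC0 : 1 ≤ C0)
    (ha0 : 0 < a0) (ha1 : a0 ≤ 1 / 20) (hδ : 0 < δ') (U : List (ℝ × List ℕ × List ℕ))
    (hU : Okl δ' a0 U) :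
    ∃ c0 : ℝ, 0 < c0 ∧ ∀ (ι : Type) [Fintype ι] [DecidableEq ι] [Nonempty ι] (a : ℝ) (L : ℕ),
      0 < a → a * 2 ^ L = a0 → (Fintype.card ι : ℝ) * a ≤ c0 →
      ∃ w0 : ℕ, ∀ w : ℕ, w0 ≤ w → ∀ (A δ : ℝ) (R S : ℝ → ℕ → ℝ),
        RotP η A C0 δ R S → ∀ᶠ x : ℝ in atTop, ∀ (h : ι → ℕ) (W b : ℕ), Okk A w x h W b →
          (∀ j, App x a L h W b (η / 1000) (Real.exp (-(Θ / a)))
            (fun N => (R x N - 1) * ev2 U (kk x δ' (N + h j))) 0) ∧
          (∀ j j', j ≠ j' → App x a L h W b (η / 1000) (Real.exp (-(Θ / a)))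
            (fun N => (R x N - 1) *
              (ev2 U (kk x δ' (N + h j)) * ev2 U (kk x δ' (N + h j')))) 0) := by
  have hpos : ∀ w ∈ U, ∀ j ∈ w.2.1 ++ w.2.2, 0 < j := by
    intro w hw j hj
    have h3 := hU.1 w hw j hj
    rcases Nat.eq_zero_or_pos j with h4 | h4
    · rw [h4, Nat.cast_zero, zero_mul] at h3
      linarith
    · exact h4
  have hOw : Okw δ' a0 U := okl_okw hU
  have hms0 : ∀ x j, 0 ≤ ms x δ' j := by
    intro x j
    unfold ms
    positivity
  have hmvab : ∀ x, mv2 (ab U) (ms x δ') = mva2 U (ms x δ') := by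
    intro x
    unfold mv2 mva2 ab
    rw [List.map_map]
    rfl
  obtain ⟨M, hM⟩ : ∃ M : ℝ, M = |mva2 U mu| + 1 := ⟨_, rfl⟩
  have hM1 : 1 ≤ M := by
    rw [hM]
    have := abs_nonneg (mva2 U mu)
    linarith
  have hbd : ∀ᶠ x : ℝ in atTop, mv2 (ab U) (ms x δ') ≤ M := by
    have h3 := (Metric.tendsto_nhds.1 (mva2_tendsto δ' hδ U hpos)) 1 one_pos
    filter_upwards [h3] with x h3
    rw [hmvab]
    rw [Real.dist_eq] at h3
    have := (abs_lt.1 h3).2
    have := le_abs_self (mva2 U mu)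
    linarith
  have hmv0 : ∀ x, 0 ≤ mv2 (ab U) (ms x δ') := fun x =>
    (abs_nonneg _).trans (mv2_ab U (ms x δ') (hms0 x))
  have hab : ∀ k : ℕ → ℕ, |ev2 U k| ≤ ev2 (ab U) k := fun k => ev2_abs U k
  have hab0 : ∀ k : ℕ → ℕ, 0 ≤ ev2 (ab U) k := fun k => (abs_nonneg _).trans (hab k)
  obtain ⟨m, hm⟩ := ev2_poly δ' (ab U)
  obtain ⟨c0, hc0, happ⟩ := app_fun η Θ ((C0 + 1) * M ^ 2) a0 hη hη1 hΘ
    (by nlinarith [one_le_pow₀ hM1 (n := 2)]) ha0 ha1
  refine ⟨c0, hc0, ?_⟩
  intro ι _ _ _ a L ha haL hKa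
  obtain ⟨w0, hw0⟩ := happ ι a L ha haL hKa
  refine ⟨w0, fun w hw A δ R S hR => ?_⟩
  have happ := hw0 w hw
  have hb1 : ∀ x N, |R x N - 1| ≤ C0 + 1 := by
    intro x N
    have h1 := hR.rot.bR x N
    rw [abs_le]
    constructor <;> linarith
  have hMM : (C0 + 1) * M ≤ (C0 + 1) * M ^ 2 := by
    apply mul_le_mul_of_nonneg_left _ (by linarith)
    nlinarith
  -- the default shifts
  obtain ⟨e0, he0⟩ : ∃ e0 : ι → ℕ, Function.Injective e0 :=
    ⟨fun j => (Fintype.equivFin ι j : ℕ), fun i j hij => (Fintype.equivFin ι).injective (Fin.ext hij)⟩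
  have key : ∀ᶠ x : ℝ in atTop, ∀ t : (ι → ℕ) × ℕ × ℕ, Okk A w x t.1 t.2.1 t.2.2 →
      (∀ j, App x a L t.1 t.2.1 t.2.2 (η / 1000) (Real.exp (-(Θ / a)))
        (fun N => (R x N - 1) * ev2 U (kk x δ' (N + t.1 j))) 0) ∧
      (∀ j j', j ≠ j' → App x a L t.1 t.2.1 t.2.2 (η / 1000) (Real.exp (-(Θ / a)))
        (fun N => (R x N - 1) *
          (ev2 U (kk x δ' (N + t.1 j)) * ev2 U (kk x δ' (N + t.1 j')))) 0) := by
    apply Pool.Agent.H72.NU.diag
    intro f
    obtain ⟨g, hg⟩ : ∃ g : ℝ → ι → ℕ, ∀ x, g x =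
        if Okk A w x (f x).1 (f x).2.1 (f x).2.2 then (f x).1 else e0 := ⟨_, fun _ => rfl⟩
    have hginj : ∀ x, Function.Injective (g x) := by
      intro x
      rw [hg]
      split_ifs with hok
      · exact hok.inj
      · exact he0
    have hgb : ∀ j, ∀ᶠ x : ℝ in atTop, (g x j : ℝ) ≤ Real.log x ^ (max A 1) := by
      intro j
      filter_upwards [Real.tendsto_log_atTop.eventually_ge_atTop (1 : ℝ),
        Real.tendsto_log_atTop.eventually_ge_atTop (e0 j : ℝ)] with x hx1 hx2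
      rw [hg]
      split_ifs with hok
      · exact (hok.hh j).trans (Real.rpow_le_rpow_of_exponent_le hx1 (le_max_left _ _))
      · refine hx2.trans ?_
        calc Real.log x = Real.log x ^ (1 : ℝ) := (Real.rpow_one _).symm
          _ ≤ Real.log x ^ (max A 1) := Real.rpow_le_rpow_of_exponent_le hx1 (le_max_right _ _)
    have hsml : ∀ j, Sml (fun x => g x j) := fun j => sml_log _ (hgb j)
    have A1 : ∀ j : ι, ∀ᶠ x : ℝ in atTop, Okk A w x (f x).1 (f x).2.1 (f x).2.2 →
        App x a L (f x).1 (f x).2.1 (f x).2.2 (η / 1000) (Real.exp (-(Θ / a)))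
        (fun N => (R x N - 1) * ev2 U (kk x δ' (N + g x j))) 0 := by
      intro j
      refine happ A (fun x => (f x).1) (fun x => (f x).2.1) (fun x => (f x).2.2)
        (fun x N => (R x N - 1) * ev2 U (kk x δ' (N + g x j)))
        (fun x N => (C0 + 1) * ev2 (ab U) (kk x δ' (N + g x j))) (fun _ => 0)
        (fun x => (C0 + 1) * mv2 (ab U) (ms x δ')) (hR.one δ' a0 U hδ ha0 ha1 hU _ (hsml j))
        (intd_smul _ (intd_mono (ev2_one_fun δ' a0 hδ ha0 (by linarith) (ab U)
          (okw_ab δ' a0 U hOw) _ (hsml j)) hη1)) ?_ ?_ ?_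
      · refine Filter.Eventually.of_forall fun x N _ => ?_
        rw [abs_mul]
        exact mul_le_mul (hb1 x N) (hab _) (abs_nonneg _) (by linarith)
      · filter_upwards [hbd] with x hbd
        constructor
        · rw [abs_zero]
          exact mul_nonneg (by linarith) (hmv0 x)
        · exact (mul_le_mul_of_nonneg_left hbd (by linarith)).trans hMM
      · refine ⟨m + 1, ?_⟩
        filter_upwards [hm, tx_sq (max A 1), hgb j, eventually_ge_atTop (C0 + 1)]
          with x hm h3 h4 h5 N hN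
        rw [pow_succ, mul_comm]
        have h6 := h3 _ h4 N hN
        exact mul_le_mul ((le_abs_self _).trans (hm _ h6.1 h6.2)) h5 (by linarith)
          ((hab0 _).trans ((le_abs_self _).trans (hm _ h6.1 h6.2)))
    have A2 : ∀ j j' : ι, j ≠ j' → ∀ᶠ x : ℝ in atTop, Okk A w x (f x).1 (f x).2.1 (f x).2.2 →
        App x a L (f x).1 (f x).2.1 (f x).2.2 (η / 1000) (Real.exp (-(Θ / a)))
        (fun N => (R x N - 1) *
          (ev2 U (kk x δ' (N + g x j)) * ev2 U (kk x δ' (N + g x j')))) 0 := by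
      intro j j' hjj
      have hne : ∀ᶠ x : ℝ in atTop, g x j ≠ g x j' :=
        Filter.Eventually.of_forall fun x h3 => hjj (hginj x h3)
      refine happ A (fun x => (f x).1) (fun x => (f x).2.1) (fun x => (f x).2.2)
        (fun x N => (R x N - 1) *
          (ev2 U (kk x δ' (N + g x j)) * ev2 U (kk x δ' (N + g x j'))))
        (fun x N => (C0 + 1) *
          (ev2 (ab U) (kk x δ' (N + g x j)) * ev2 (ab U) (kk x δ' (N + g x j')))) (fun _ => 0)
        (fun x => (C0 + 1) * (mv2 (ab U) (ms x δ') * mv2 (ab U) (ms x δ')))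
        (hR.two δ' a0 U hδ ha0 ha1 hU _ _ (hsml j) (hsml j') hne)
        (intd_smul _ (intd_mono (ev2_fun δ' a0 hδ ha0 (by linarith) (ab U) (ab U)
          (okw_ab δ' a0 U hOw) (okw_ab δ' a0 U hOw) _ _ (hsml j) (hsml j') hne) hη1)) ?_ ?_ ?_
      · refine Filter.Eventually.of_forall fun x N _ => ?_
        rw [abs_mul, abs_mul]
        exact mul_le_mul (hb1 x N) (mul_le_mul (hab _) (hab _) (abs_nonneg _) (hab0 _))
          (by positivity) (by linarith)
      · filter_upwards [hbd] with x hbd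
        constructor
        · rw [abs_zero]
          exact mul_nonneg (by linarith) (mul_nonneg (hmv0 x) (hmv0 x))
        · rw [sq]
          apply mul_le_mul_of_nonneg_left _ (by linarith)
          exact mul_le_mul hbd hbd (hmv0 x) (by linarith)
      · refine ⟨m + m + 1, ?_⟩
        filter_upwards [hm, tx_sq (max A 1), hgb j, hgb j', eventually_ge_atTop (C0 + 1)]
          with x hm h3 h4 h4' h5 N hN
        have h6 := h3 _ h4 N hN
        have h7 := h3 _ h4' N hN
        have h8 := (le_abs_self _).trans (hm _ h6.1 h6.2)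
        have h9 := (le_abs_self _).trans (hm _ h7.1 h7.2)
        have h10 := hab0 (kk x δ' (N + g x j))
        have h11 := hab0 (kk x δ' (N + g x j'))
        rw [pow_succ, mul_comm (C0 + 1), pow_add]
        exact mul_le_mul (mul_le_mul h8 h9 h11 (h10.trans h8)) h5 (by linarith)
          (mul_nonneg (h10.trans h8) (h11.trans h9))
    have B1 := Filter.eventually_all.2 A1
    have B2 : ∀ᶠ x : ℝ in atTop, ∀ j j' : ι, j ≠ j' → Okk A w x (f x).1 (f x).2.1 (f x).2.2 →
        App x a L (f x).1 (f x).2.1 (f x).2.2 (η / 1000) (Real.exp (-(Θ / a)))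
        (fun N => (R x N - 1) *
          (ev2 U (kk x δ' (N + g x j)) * ev2 U (kk x δ' (N + g x j')))) 0 := by
      rw [Filter.eventually_all]
      intro j
      rw [Filter.eventually_all]
      intro j'
      by_cases hjj : j = j'
      · exact Filter.Eventually.of_forall fun x h3 => absurd hjj h3
      · filter_upwards [A2 j j' hjj] with x hx _
        exact hx
    filter_upwards [B1, B2] with x B1 B2 hok
    have hgx : g x = (f x).1 := by rw [hg, if_pos hok]
    constructor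
    · intro j
      have h3 := B1 j hok
      rwa [hgx] at h3
    · intro j j' hjj
      have h3 := B2 j j' hjj hok
      rwa [hgx] at h3
  filter_upwards [key] with x hx h W b hok
  exact hx (h, W, b) hok

end Pool.Agent.H96.RW
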