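import Pool.Agent.H72.NU.Main
import Pool.Agent.H95.RO.Blk
import Pool.Agent.H95.RO.Twl
import Pool.Agent.H96.RW.Tl
import Pool.Agent.H96.RW.Wt
import Pool.Agent.H96.RW.Pr
import Pool.Agent.H96.RW.Cl

/-!
# [H96 RW MS] MP_8923e7_nt, THEOREM R (all words): the measure theorem with small cells

As `med_rot` (H95/RO/Med), with the weight `R ω` throughout; every cell has mean number of hits minus `K` times the double hits
at least `β`, `β` depends on `K` only.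
-/

set_option autoImplicit false

namespace Pool.Agent.H96.RW

open Finset Filter Pool.Agent.H21.MT Pool.Agent.H92.MM Pool.Agent.H72.NU Pool.Agent.H72.NM
  Pool.Agent.H95.RO Pool.Agent.H89.P2 Pool.Agent.H11.PT Pool.Agent.H11.RG

open Classical in
/-- the measure theorem with small cells -/
def MedW (K β : ℝ) (k : ℕ) : Prop := ∀ e C0 : ℝ, 0 < e → 1 ≤ C0 → ∃ η0 : ℝ, 0 < η0 ∧
  ∀ η : ℝ, 0 < η → η ≤ η0 →
  ∃ (s : ℕ) (a C2 : ℝ), 1 ≤ s ∧ 0 < a ∧ a ≤ 1 / 20 ∧ 0 < C2 ∧ ∀ A : ℝ, ∃ w0 : ℕ, ∀ w : ℕ, w0 ≤ w →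
    ∀ (R S : ℝ → ℕ → ℝ) (δ : ℝ), 0 ≤ δ → δ ≤ 1 → RotP η A C0 δ R S → ∀ᶠ x : ℝ in atTop,
      ∀ (V : Fin k → Finset ℕ) (W b : ℕ), OkV A w s x V W b →
        0 < nm x a W (k * s) ∧ ∃ ν : ℕ → ℝ,
        (∀ N, 0 ≤ ν N) ∧ (∀ N ∈ Tx x, ν N ≤ C2 * gw x N / nm x a W (k * s)) ∧
        (∀ N ∈ Tx x, ν N ≠ 0 → N % W = b % W ∧ ∀ j, ∀ y ∈ V j, ∀ p : ℕ, p.Prime → p ∣ N + y →
          x ^ a ≤ (p : ℝ)) ∧
        ∑ N ∈ Tx x, ν N = 1 ∧
        (∀ j, β ≤ ∑ N ∈ Tx x, ν N * ((if ∃ y ∈ V j, (N + y).Prime then (1 : ℝ) else 0) -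
          K * (if ∃ y ∈ V j, ∃ z ∈ V j, y ≠ z ∧ (N + y).Prime ∧ (N + z).Prime then 1 else 0))) ∧
        ∑ N ∈ Tx x, ν N * S x N ≤ δ + e

private theorem appT_tw {ι : Type} [Fintype ι] [DecidableEq ι] {T : Finset ℕ} {ω R : ℕ → ℝ} {L : ℕ}
    {m : ι → Fin L → ℕ → ℕ} {a η ϖ ϖ1 : ℝ} {Φ : ℕ → ℝ} {E : ℝ}
    (h1 : AppT T ω m a η ϖ1 Φ E) (h2 : AppT T ω m a η ϖ1 (fun N => (R N - 1) * Φ N) 0)
    (h3 : 2 * ϖ1 ≤ ϖ) : AppT T (fun N => R N * ω N) m a η ϖ Φ E := by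
  intro A hA
  have g1 := h1 A hA
  have g2 := h2 A hA
  have e1 : AvT T (fun N => R N * ω N) (fun N => mon m A N * Φ N) =
      AvT T ω (fun N => mon m A N * Φ N) + AvT T ω (fun N => mon m A N * ((R N - 1) * Φ N)) := by
    unfold AvT
    rw [← sum_add_distrib]
    refine sum_congr rfl fun N _ => ?_
    ring
  rw [mul_zero, sub_zero] at g2
  rw [e1]
  have e2 : AvT T ω (fun N => mon m A N * Φ N) + AvT T ω (fun N => mon m A N * ((R N - 1) * Φ N)) -
      sv L A * E = (AvT T ω (fun N => mon m A N * Φ N) - sv L A * E) +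
        AvT T ω (fun N => mon m A N * ((R N - 1) * Φ N)) := by ring
  rw [e2]
  refine (abs_add_le _ _).trans ?_
  linarith

private theorem appT_le {ι : Type} [Fintype ι] [DecidableEq ι] {T : Finset ℕ} {ω : ℕ → ℝ} {L : ℕ}
    {m : ι → Fin L → ℕ → ℕ} {a η ϖ ϖ1 : ℝ} {Φ : ℕ → ℝ} {E : ℝ}
    (h1 : AppT T ω m a η ϖ1 Φ E) (h3 : ϖ1 ≤ ϖ) : AppT T ω m a η ϖ Φ E :=
  fun A hA => (h1 A hA).trans h3

/-- **the measure theorem with small cells** -/
theorem medw (K : ℝ) (hK0 : 0 ≤ K) : ∃ β : ℝ, 0 < β ∧ ∀ k : ℕ, 1 ≤ k → MedW K β k := by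
  classical
  obtain ⟨lam, hlam⟩ : ∃ lam : ℝ, lam = 1 / (5 * 16 * 97 * (K + 1)) := ⟨_, rfl⟩
  have hlam0 : 0 < lam := by rw [hlam]; positivity
  have hlam3 : (K + 1) * (16 * 97 * lam) ≤ 1 / 5 := by
    have hK1 : K + 1 ≠ 0 := by linarith
    rw [hlam]
    apply le_of_eq
    field_simp
  refine ⟨1 / 5 / 4 * lam, by positivity, fun k hk => ?_⟩
  intro e' C0 he' hC0
  refine ⟨1 / 2000, by norm_num, fun η2 hη2 hη21 => ?_⟩
  obtain ⟨η, hηd⟩ : ∃ η : ℝ, η = η2 / 1000 := ⟨_, rfl⟩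
  have hη : 0 < η := by rw [hηd]; positivity
  have hηG : η ≤ 1 / 2000 / 1000 := by rw [hηd]; linarith
  have hη1 : η ≤ 1 := by linarith
  -- parameters
  have hC00 : 0 < C0 := by linarith
  obtain ⟨ε, hεd⟩ : ∃ ε : ℝ, ε = min e' (1 / 1000) := ⟨_, rfl⟩
  have hε : 0 < ε := by
    rw [hεd]
    positivity
  have hε2 : ε ≤ 1 / 1000 := by rw [hεd]; exact min_le_right _ _
  have hε1 : ε ≤ 1 / 100 := by linarith
  have hεe : ε ≤ e' := by rw [hεd]; exact min_le_left _ _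
  have hM : Mer := Pool.Agent.H63.CF.mer
  have h1 : OneLawU η 11 := one_lawU _ _ hη (by linarith) (by norm_num)
  have h2 : PrimeLawU η 11 := prime_lawU _ _ hη (by linarith) (by norm_num)
  obtain ⟨a0, Δ, j0, ha0, ha1, ha2, hΔ, hΔ1, hCΔ, hj, ht⟩ := pa η 1 ε hη hη1 one_pos le_rfl hε hε1
  rw [one_mul] at hCΔ
  -- the upper weight
  obtain ⟨J, U, hJ, _, u1, u2, u3, u4, ⟨x0, hx0⟩, u5, u6⟩ :=
    low_final a0 (1 / 10000) ha0 ha1 (by norm_num)
  have hJR : (0 : ℝ) < J := by exact_mod_cast hJ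
  obtain ⟨δ', hδ'⟩ : ∃ δ' : ℝ, δ' = a0 / J := ⟨_, rfl⟩
  have hδ'0 : 0 < δ' := by rw [hδ']; positivity
  rw [← hδ'] at u1 u2 u3 u4 hx0
  have hokl : Okl δ' a0 U := ⟨fun w hw j hj => (u1 w hw j hj).2.1, u2⟩
  have hokw : Okw δ' a0 U := by
    refine ⟨hokl.1, fun w hw => ?_⟩
    obtain ⟨h1, h2⟩ := hokl.2 w hw
    constructor
    · linarith
    · rw [h2]
      simp only [size, List.map_nil, List.sum_nil, Nat.cast_zero, zero_mul]
      norm_num
  have hpl : PairLawU η 11 a0 (fun x n => ev2 U (kk x δ' n)) (fun _ => mv2 U mu) :=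
    pair_lawU_mono _ _ _ _ _ _ hηG
      (pair_lawU_p2 (1 / 2000) 11 a0 δ' le_rfl (by norm_num) ha0 ha1 hδ'0 U hokw)
  obtain ⟨G, hG⟩ : ∃ G : ℝ → ℕ → ℝ, G = fun x n => ev2 U (kk x δ' n) := ⟨_, rfl⟩
  obtain ⟨EG, hEG⟩ : ∃ EG : ℝ, EG = mv2 U mu := ⟨_, rfl⟩
  rw [← hG, ← hEG] at hpl
  rw [← hEG] at u5 u6
  obtain ⟨C, hCd⟩ : ∃ C : ℝ, C = 2 * Real.exp (3 / a0) := ⟨_, rfl⟩
  rw [← hCd] at hCΔ
  have hexp : Real.exp (2 / a0) ≤ Real.exp (3 / a0) := by
    apply Real.exp_le_exp.2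
    gcongr
    norm_num
  have hC2 : (2 : ℝ) ≤ C := by
    rw [hCd]
    have : (1 : ℝ) ≤ Real.exp (3 / a0) := Real.one_le_exp (by positivity)
    linarith
  have hC1 : 1 ≤ C := by linarith
  have hEG1 : EG ≤ 8039 / 1000 * a0 := by
    refine u6.trans ?_
    linarith
  have hc1 : a0 ≤ 1 := by linarith
  have hpr0 : ∀ᶠ x : ℝ in atTop, 1 / 5 * EG ≤ pr x a0 := by
    filter_upwards [Pool.Agent.H95.M3.pr_ge (1 / 10000) a0 (by norm_num) ha0] with x hx
    have he : (2.7182818283 : ℝ) < Real.exp 1 := Real.exp_one_gt_d9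
    have h9 : (1.718 : ℝ) * a0 ≤ (Real.exp 1 - 1 - 1 / 10000) * a0 := by
      apply mul_le_mul_of_nonneg_right _ ha0.le
      linarith
    linarith
  obtain ⟨d1, hd1, L1⟩ := h1
  obtain ⟨d2, hd2, L2⟩ := h2
  obtain ⟨d4, hd4, L4⟩ := hpl
  obtain ⟨d5, hd5, L5⟩ := tw_law η2 11 C0 a0 hη2 hη21 (by norm_num) hC0 ha0 ha1
  obtain ⟨d6, hd6, L6⟩ := tl_law η2 11 C0 a0 δ' hη2 hη21 (by norm_num) hC0 ha0 ha1 hδ'0 U hokl
  obtain ⟨c0, hc0d⟩ : ∃ c0 : ℝ, c0 = min (min d1 d2) (min d4 (min d5 d6)) := ⟨_, rfl⟩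
  have hc0 : 0 < c0 := by
    rw [hc0d]
    exact lt_min (lt_min hd1 hd2) (lt_min hd4 (lt_min hd5 hd6))
  obtain ⟨s, L, l, b, B, κ, hs, hSt, hκ, hKa, hP0, hP1⟩ :=
    params2 η ε a0 Δ j0 hη hη1 hε hε1 ha0 ha1 ha2 hΔ hΔ1 hj ht k hk a0 c0 lam ha0 hc1 hc0 hlam0
  obtain ⟨a, had⟩ : ∃ a : ℝ, a = a0 / 2 ^ L := ⟨_, rfl⟩
  rw [← had] at hSt hKa
  have ha : 0 < a := by
    rw [had]
    positivity
  have haL : a * 2 ^ L = a0 := by
    rw [had]
    field_simp
  have haL1 : a * 2 ^ L ≤ 1 / 20 := by rw [haL]; exact ha1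
  have ha20 : a ≤ 1 / 20 := by
    have h3 : a ≤ a * 2 ^ L := le_mul_of_one_le_right ha.le (one_le_pow₀ (by norm_num))
    exact h3.trans haL1
  have hϖ : 2 * Real.exp (-(11 / a)) ≤ Real.exp (-(10 / a)) := by
    have h3 : Real.exp (-(10 / a)) = Real.exp (-(11 / a)) * Real.exp (1 / a) := by
      rw [← Real.exp_add]
      congr 1
      ring
    rw [h3, mul_comm]
    apply mul_le_mul_of_nonneg_left _ (Real.exp_pos _).le
    have h4 : (1 : ℝ) ≤ 1 / a := by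
      rw [le_div_iff₀ ha]
      linarith
    have h5 := Real.add_one_le_exp (1 / a)
    linarith
  have hϖ1 : Real.exp (-(11 / a)) ≤ Real.exp (-(10 / a)) := by
    have := Real.exp_pos (-(11 / a))
    linarith
  have hcard : Fintype.card (Fin k × Fin s) = k * s := by
    rw [Fintype.card_prod, Fintype.card_fin, Fintype.card_fin]
  have hne : Nonempty (Fin k × Fin s) := ⟨(⟨0, hk⟩, ⟨0, hs⟩)⟩
  have hK : (Fintype.card (Fin k × Fin s) : ℝ) * a ≤ c0 := by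
    rw [hcard]
    exact hKa
  have m1 : c0 ≤ d1 := by rw [hc0d]; exact (min_le_left _ _).trans (min_le_left _ _)
  have m2 : c0 ≤ d2 := by rw [hc0d]; exact (min_le_left _ _).trans (min_le_right _ _)
  have m4 : c0 ≤ d4 := by rw [hc0d]; exact (min_le_right _ _).trans (min_le_left _ _)
  have m5 : c0 ≤ d5 := by
    rw [hc0d]; exact (min_le_right _ _).trans ((min_le_right _ _).trans (min_le_left _ _))
  have m6 : c0 ≤ d6 := by
    rw [hc0d]; exact (min_le_right _ _).trans ((min_le_right _ _).trans (min_le_right _ _))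
  obtain ⟨M, hMd⟩ : ∃ M : ℕ, M = ⌊2 / a⌋₊ := ⟨_, rfl⟩
  obtain ⟨S0, hS0⟩ : ∃ S0 : ℝ, S0 = ((l : ℝ) + 1) ^ (k * s) * ((2 : ℝ) ^ M) ^ (L * (k * s)) :=
    ⟨_, rfl⟩
  have hS00 : 0 < S0 := by rw [hS0]; positivity
  refine ⟨s, a, 2 * C0 * S0 ^ 2, hs, ha, ha20, by positivity, fun A => ?_⟩
  obtain ⟨w1, E1⟩ := L1 (Fin k × Fin s) a L ha haL1 (hK.trans m1) A
  obtain ⟨w2, E2⟩ := L2 (Fin k × Fin s) a L ha haL1 (hK.trans m2) A
  obtain ⟨w4, E4⟩ := L4 (Fin k × Fin s) a L ha haL1 (hK.trans m4) A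
  obtain ⟨w5, E5⟩ := L5 (Fin k × Fin s) a L ha haL (hK.trans m5)
  obtain ⟨w6, E6⟩ := L6 (Fin k × Fin s) a L ha haL (hK.trans m6)
  refine ⟨max (max w1 w2) (max (max w4 (max w5 w6)) (k * s)), fun w hw R S δ hδ0 hδ1 hRP => ?_⟩
  have hRD := hRP.rot
  have hw1 : w1 ≤ w := by omega
  have hw2 : w2 ≤ w := by omega
  have hw4 : w4 ≤ w := by omega
  have hw5 : w5 ≤ w := by omega
  have hw6 : w6 ≤ w := by omega
  have hw7 : k * s ≤ w := by omega
  have T6 := hM ε a0 hε ha0 L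
  rw [← had] at T6
  filter_upwards [E1 w hw1, E2 w hw2, E4 w hw4, tx_bdU A, T6, hpr0, eventually_ge_atTop x0,
    eventually_ge_atTop (4 : ℝ), E5 w hw5 A δ R S hδ0 hδ1 hRD, E6 w hw6 A δ R S hRP] with x x1 x2 x4
    x5 x6 xpr xx0 hx4 x7 x8 V W β hO
  obtain ⟨h, hinj, hmem, hsur⟩ := enum V hO.dis hO.card
  have hk0 : Okk A w x h W β := by
    refine ⟨hinj, fun q => hO.hh q.1 _ (hmem q), hO.pos, hO.pw, hO.wle, ?_, fun q => hO.cop q.1 _ (hmem q)⟩
    intro q q' hq p hp hpd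
    exact hO.dif q.1 q'.1 _ (hmem q) _ (hmem q') (fun h3 => hq (hinj h3)) p hp hpd
  have hx1 : 1 ≤ x := by linarith
  have hx1' : 1 < x := by linarith
  have hW0 : 0 < W := hO.pos
  have hnm : 0 < nm x a W (Fintype.card (Fin k × Fin s)) := by
    rw [hcard]
    exact nm_posU hx4 hW0 hO.pw hw7
  obtain ⟨T, hT⟩ : ∃ T : Finset ℕ, T = TT x a h W β := ⟨_, rfl⟩
  obtain ⟨ω, hω⟩ : ∃ ω : ℕ → ℝ, ω = ww x a W (Fintype.card (Fin k × Fin s)) := ⟨_, rfl⟩
  obtain ⟨m, hm⟩ : ∃ m : Fin k × Fin s → Fin L → ℕ → ℕ, m = mm x a h := ⟨_, rfl⟩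
  have hmemT : ∀ N, N ∈ T ↔ N ∈ Tx x ∧ Adm x a h W β N := by
    intro N
    rw [hT, TT, mem_filter]
  have hω0 : ∀ N, 0 ≤ ω N := by
    intro N
    rw [hω, ww]
    exact div_nonneg (gw_pos x N).le hnm.le
  have A1 : AppT T ω m a η (Real.exp (-(11 / a))) (fun _ => 1) 1 := by
    rw [hT, hω, hm]
    exact (app_iff x a h W β η _ _ _).1 (x1 h W β hk0)
  have A2 : ∀ y : Fin k × Fin s, ∀ A : Fin k × Fin s → Fin L → ℕ, (∀ i, A y i = 0) →
      sl a L A ≤ η →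
      |AvT T ω (fun N => mon m A N * (if (N + h y).Prime then 1 else 0)) - sv L A * pr x a| ≤
        Real.exp (-(11 / a)) := by
    intro y A hA hA2
    have h5 := x2 h W β hk0 y A hA hA2
    rw [hT, hω, hm, avt_eq]
    refine le_trans (le_of_eq ?_) h5
    congr 3
  obtain ⟨A5, A6⟩ := x4 h W β hk0 haL
  have hxx : ∀ y : Fin k × Fin s, ∀ N ∈ T, 0 < N ∧ Real.sqrt x < ((N + h y : ℕ) : ℝ) ∧
      ((N + h y : ℕ) : ℝ) ≤ x ^ (1 + 1 / 1000 : ℝ) := fun y N hN =>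
    x5 (h y) (hk0.hh y) N ((hmemT N).1 hN).1
  have hpos : ∀ y : Fin k × Fin s, ∀ N ∈ T, 0 < N + h y := by
    intro y N hN
    have := (hxx y N hN).1
    omega
  -- the weight
  obtain ⟨B1, B2, B3⟩ := x7 h W β hk0
  obtain ⟨B4, B5⟩ := x8 h W β hk0
  have hηe : η2 / 1000 = η := hηd.symm
  rw [hηe] at B1 B3
  have T1 : AppT T ω m a η (Real.exp (-(11 / a))) (fun N => R x N - 1) 0 := by
    rw [hT, hω, hm]
    exact (app_iff x a h W β η _ _ _).1 B1
  have T3 : AppT T ω m a η (Real.exp (-(11 / a))) (fun N => R x N * S x N - δ) 0 := by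
    rw [hT, hω, hm]
    exact (app_iff x a h W β η _ _ _).1 B3
  have T2 : ∀ y : Fin k × Fin s, AppT T ω m a η (Real.exp (-(11 / a)))
      (fun N => if (N + h y).Prime then R x N - 1 else 0) 0 := by
    intro y
    have h5 := B2 y
    rw [hηe] at h5
    rw [hT, hω, hm]
    exact (app_iff x a h W β η _ _ _).1 h5
  have T4 : ∀ y : Fin k × Fin s, AppT T ω m a η (Real.exp (-(11 / a)))
      (fun N => (R x N - 1) * G x (N + h y)) 0 := by
    intro y
    have h5 := B4 y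
    rw [hηe] at h5
    rw [hT, hω, hm, hG]
    exact (app_iff x a h W β η _ _ _).1 h5
  have T5 : ∀ y z : Fin k × Fin s, y ≠ z → AppT T ω m a η (Real.exp (-(11 / a)))
      (fun N => (R x N - 1) * (G x (N + h y) * G x (N + h z))) 0 := by
    intro y z hyz
    have h5 := B5 y z hyz
    rw [hηe] at h5
    rw [hT, hω, hm, hG]
    exact (app_iff x a h W β η _ _ _).1 h5
  -- the weighted laws
  obtain ⟨ω', hω'⟩ : ∃ ω' : ℕ → ℝ, ω' = fun N => R x N * ω N := ⟨_, rfl⟩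
  have hR0 : ∀ N, 0 ≤ R x N := fun N => (hRD.bR x N).1
  have hR1 : ∀ N, R x N ≤ C0 := fun N => (hRD.bR x N).2
  have hS0' : ∀ N, 0 ≤ S x N := fun N => (hRD.bS x N).1
  have hω'0 : ∀ N, 0 ≤ ω' N := by
    intro N
    rw [hω']
    exact mul_nonneg (hR0 N) (hω0 N)
  have A1' : AppT T ω' m a η (Real.exp (-(10 / a))) (fun _ => 1) 1 := by
    rw [hω']
    refine appT_tw A1 ?_ hϖ
    simp only [mul_one]
    exact T1
  have A2' : ∀ y : Fin k × Fin s, ∀ A : Fin k × Fin s → Fin L → ℕ, (∀ i, A y i = 0) →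
      sl a L A ≤ η →
      |AvT T ω' (fun N => mon m A N * (if (N + h y).Prime then 1 else 0)) - sv L A * pr x a| ≤
        Real.exp (-(10 / a)) := by
    intro y A hA hA2
    have g1 := A2 y A hA hA2
    have g2 := T2 y A hA2
    rw [mul_zero, sub_zero] at g2
    have e1 : AvT T ω' (fun N => mon m A N * (if (N + h y).Prime then (1 : ℝ) else 0)) =
        AvT T ω (fun N => mon m A N * (if (N + h y).Prime then (1 : ℝ) else 0)) +
        AvT T ω (fun N => mon m A N * (if (N + h y).Prime then R x N - 1 else 0)) := by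
      rw [hω']
      unfold AvT
      rw [← sum_add_distrib]
      refine sum_congr rfl fun N _ => ?_
      by_cases hp : (N + h y).Prime
      · simp only [hp, if_true]
        ring
      · simp only [hp, if_false]
        ring
    rw [e1, add_sub_right_comm]
    refine (abs_add_le _ _).trans ?_
    linarith
  have lgG : Lg T ω' m a η (Real.exp (-(10 / a))) ε Δ κ a0 C (fun y N => G x (N + h y)) EG := by
    refine ⟨fun y => ?_, fun y z hyz => ?_, fun y N hN => ?_, ha0, hc1, hC1, u5, ?_, hCΔ, hκ⟩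
    · rw [hω']
      refine appT_tw ?_ (T4 y) hϖ
      rw [hT, hω, hm]
      exact (app_iff x a h W β η _ _ _).1 (A5 y)
    · rw [hω']
      refine appT_tw ?_ (T5 y z hyz) hϖ
      rw [hT, hω, hm]
      exact (app_iff x a h W β η _ _ _).1 (A6 y z hyz)
    · have h5 := hx0 x xx0 (N + h y) (hpos y N hN) (hxx y N hN).2.2
      rw [hG]
      show |ev2 U (kk x δ' (N + h y))| ≤ C
      rw [hCd]
      linarith
    · linarith
  have hsq : ∀ n : ℕ, Real.sqrt x < (n : ℝ) → x ^ a0 ≤ (n : ℝ) := by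
    intro n hn
    refine le_trans ?_ hn.le
    rw [Real.sqrt_eq_rpow]
    exact Real.rpow_le_rpow_of_exponent_le hx1 (by linarith)
  have hSt' : St (Fintype.card (Fin k × Fin s)) L l b (fun i : Fin L => 2 * (j0 + L - i)) a B η
      (Real.exp (-(10 / a))) ε Δ κ := by
    rw [hcard]
    exact hSt
  have hprime : ∀ y : Fin k × Fin s, ∀ N ∈ T, (N + h y).Prime →
      (∀ i, m y i N = 0) ∧ 1 ≤ G x (N + h y) := by
    intro y N hN hp
    have h6 := hxx y N hN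
    refine ⟨fun i => ?_, ?_⟩
    · rw [hm, mm]
      exact mc_prime hx1 ha haL hp (hsq _ h6.2.1) i.2
    · rw [hG]
      exact u4 x hx1' (N + h y) hp h6.2.1
  have hprr : 1 / 5 * EG ≤ (1 + ε) ^ 2 * (2 ^ L * pr x a) := by
    have h8 : pr x a0 ≤ (1 + ε) * (2 ^ L * pr x a) := by
      have h9 : (2 : ℝ) ^ L * ((1 / 2) ^ L * pr x a0) ≤ 2 ^ L * ((1 + ε) * pr x a) :=
        mul_le_mul_of_nonneg_left x6 (by positivity)
      have h10 : (2 : ℝ) ^ L * ((1 / 2) ^ L * pr x a0) = pr x a0 := by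
        rw [← mul_assoc, ← mul_pow]
        norm_num
      rw [h10] at h9
      linarith
    have hpr1 : 0 ≤ pr x a0 := by
      have : 0 < EG := by linarith
      linarith
    calc 1 / 5 * EG ≤ pr x a0 := xpr
      _ ≤ (1 + ε) * pr x a0 := le_mul_of_one_le_left hpr1 (by linarith)
      _ ≤ (1 + ε) * ((1 + ε) * (2 ^ L * pr x a)) := by
          apply mul_le_mul_of_nonneg_left h8
          positivity
      _ = _ := by ring
  have h4L : (1 / 4 : ℝ) ^ L ≤ 1 := pow_le_one₀ (by norm_num) (by norm_num)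
  have hΔe : Δ ≤ ε / 100 := by
    have h5 : a0 ^ 2 ≤ 1 := pow_le_one₀ ha0.le hc1
    have h6 : 1 ≤ C ^ 2 := one_le_pow₀ hC1
    have h7 : ε * a0 ^ 2 ≤ ε * 1 := mul_le_mul_of_nonneg_left h5 hε.le
    have h8 : Δ * 1 ≤ Δ * C ^ 2 := mul_le_mul_of_nonneg_left h6 hΔ.le
    linarith
  have hκ0 : 0 ≤ κ := by
    have h5 := hSt.hκ
    refine le_trans ?_ h5
    have h6 : 0 ≤ XT (k * s) l b (fun i : Fin L => 2 * (j0 + L - i)) := by
      unfold XT
      positivity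
    exact mul_nonneg (by positivity) (mul_nonneg (Real.exp_pos _).le h6)
  have hκe : κ ≤ ε / 400 := by
    have h5 : Δ * (1 / 4 : ℝ) ^ L ≤ Δ * 1 := mul_le_mul_of_nonneg_left h4L hΔ.le
    linarith
  obtain ⟨z, hz⟩ : ∃ z : ℝ, z = AvT T ω (fun N => sg b l B m N ^ 2) := ⟨_, rfl⟩
  obtain ⟨z', hz'⟩ : ∃ z' : ℝ, z' = AvT T ω' (fun N => sg b l B m N ^ 2) := ⟨_, rfl⟩
  have hzb : ∀ (w : ℕ → ℝ), AppT T w m a η (Real.exp (-(10 / a))) (fun _ => 1) 1 →
      3 / 4 ≤ AvT T w (fun N => sg b l B m N ^ 2) := by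
    intro w hw
    have h3 := (fa_z hSt' hw).1
    have h4 : 1 ≤ bn b l := bn_ge hSt.hb hSt.ht l
    have h5 : 1 ≤ bn b l ^ Fintype.card (Fin k × Fin s) := one_le_pow₀ h4
    have h8 : (1 - ε) * 1 ≤ (1 - ε) * bn b l ^ Fintype.card (Fin k × Fin s) :=
      mul_le_mul_of_nonneg_left h5 (by linarith)
    linarith
  have hz2 : 3 / 4 ≤ z := by rw [hz]; exact hzb ω (appT_le A1 hϖ1)
  have hz2' : 3 / 4 ≤ z' := by rw [hz']; exact hzb ω' A1'
  have hz0 : 0 < z := by linarith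
  have hz0' : 0 < z' := by linarith
  have hsgN : ∀ N ∈ T, sg b l B m N ^ 2 ≤ S0 ^ 2 := by
    intro N hN
    have hcount : ∀ (y : Fin k × Fin s) (i : Fin L), m y i N ≤ M := by
      intro y i
      have h6 := hxx y N hN
      rw [hm, mm, hMd]
      refine Nat.le_floor ?_
      refine mc_le (by linarith) ha (hpos y N hN) (h6.2.2.trans ?_) i
      exact Real.rpow_le_rpow_of_exponent_le hx1 (by norm_num)
    have h7 := sg_le (l := l) (B := B) hSt.hb hSt.ht m N M hcount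
    rw [hcard, ← hS0] at h7
    exact sq_le_sq' (abs_le.1 h7).1 (abs_le.1 h7).2
  have hTsub : T ⊆ Tx x := fun N hN => ((hmemT N).1 hN).1
  -- `z'` and the control function
  have hzz : z - κ ≤ z' := by
    have h5 := (abs_le.1 (av_small hSt' (appT_le T1 hϖ1))).1
    have h6 : AvT T ω (fun N => sg b l B m N ^ 2 * (R x N - 1)) = z' - z := by
      rw [hz, hz', hω']
      unfold AvT
      rw [← sum_sub_distrib]
      refine sum_congr rfl fun N _ => ?_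
      ring
    linarith
  have hout : AvT T ω (fun N => sg b l B m N ^ 2 * (R x N * S x N)) ≤ δ * z + κ := by
    have h5 := (abs_le.1 (av_small hSt' (appT_le T3 hϖ1))).2
    have h6 : AvT T ω (fun N => sg b l B m N ^ 2 * (R x N * S x N - δ)) =
        AvT T ω (fun N => sg b l B m N ^ 2 * (R x N * S x N)) - δ * z := by
      rw [hz]
      unfold AvT
      rw [mul_sum, ← sum_sub_distrib]
      refine sum_congr rfl fun N _ => ?_
      ring
    linarith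
  obtain ⟨μ, hμd⟩ : ∃ μ : ℕ → ℝ, ∀ N, μ N = ω' N * sg b l B m N ^ 2 / z' := ⟨_, fun _ => rfl⟩
  have hμ0 : ∀ N, 0 ≤ μ N := by
    intro N
    rw [hμd]
    have := hω'0 N
    positivity
  have hμ1 : ∑ N ∈ T, μ N = 1 := by
    simp only [hμd]
    rw [← sum_div, div_eq_one_iff_eq hz0'.ne', hz']
    rfl
  have hTf : (Tx x).filter (fun N => N ∈ T) = T := by
    ext N
    rw [mem_filter]
    exact ⟨fun h => h.2, fun h => ⟨hTsub h, h⟩⟩
  have hsumT : ∀ f : ℕ → ℝ, ∑ N ∈ Tx x, (if N ∈ T then μ N else 0) * f N = ∑ N ∈ T, μ N * f N := by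
    intro f
    have h6 : ∀ N, (if N ∈ T then μ N else 0) * f N = if N ∈ T then μ N * f N else 0 := by
      intro N
      split_ifs
      · rfl
      · rw [zero_mul]
    simp only [h6]
    rw [← sum_filter, hTf]
  refine ⟨by rw [← hcard]; exact hnm, fun N => if N ∈ T then μ N else 0, ?_, ?_, ?_, ?_, ?_, ?_⟩
  · intro N
    show 0 ≤ if N ∈ T then μ N else 0
    split_ifs
    · exact hμ0 N
    · exact le_rfl
  · intro N hN
    show (if N ∈ T then μ N else 0) ≤ 2 * C0 * S0 ^ 2 * gw x N / nm x a W (k * s)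
    have h9 : 2 * C0 * S0 ^ 2 * gw x N / nm x a W (k * s) = 2 * (C0 * ω N) * S0 ^ 2 := by
      rw [hω, ww, hcard]
      ring
    rw [h9]
    split_ifs with hNT
    · rw [hμd, div_le_iff₀ hz0']
      have h10 := hsgN N hNT
      have h11 := hω0 N
      have h12 : ω' N ≤ C0 * ω N := by
        rw [hω']
        exact mul_le_mul_of_nonneg_right (hR1 N) h11
      have h13 : ω' N * sg b l B m N ^ 2 ≤ C0 * ω N * S0 ^ 2 :=
        mul_le_mul h12 h10 (sq_nonneg _) (by positivity)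
      have h14 : 0 ≤ 2 * (C0 * ω N) * S0 ^ 2 := by positivity
      have h15 : 2 * (C0 * ω N) * S0 ^ 2 * (1 / 2) ≤ 2 * (C0 * ω N) * S0 ^ 2 * z' :=
        mul_le_mul_of_nonneg_left (by linarith) h14
      linarith
    · have h11 := hω0 N
      positivity
  · intro N hN hN0
    have hNT : N ∈ T := by
      by_contra h15
      exact hN0 (if_neg h15)
    have h16 := ((hmemT N).1 hNT).2
    refine ⟨h16.1, fun j y hy p hp hpd => ?_⟩
    obtain ⟨q, hq⟩ := hsur j y hy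
    rw [← hq] at hpd
    exact h16.2 q p hp hpd
  · have h17 := hsumT (fun _ => 1)
    simp only [mul_one] at h17
    rw [h17, hμ1]
  · intro j
    obtain ⟨V', hV'⟩ : ∃ V' : Finset (Fin k × Fin s), V' = univ.image (fun l : Fin s => (j, l)) :=
      ⟨_, rfl⟩
    have hV'c : V'.card = s := by
      rw [hV', card_image_of_injective, card_univ, Fintype.card_fin]
      intro l l' hl
      exact (Prod.ext_iff.1 hl).2
    have hV'm : ∀ q ∈ V', q.1 = j := by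
      intro q hq
      rw [hV', mem_image] at hq
      obtain ⟨l, -, rfl⟩ := hq
      rfl
    have hV'1 : ∀ q ∈ V', h q ∈ V j := by
      intro q hq
      have h5 := hmem q
      rwa [hV'm q hq] at h5
    have hV'2 : ∀ y ∈ V j, ∃ q ∈ V', h q = y := by
      intro y hy
      obtain ⟨q, hq⟩ := hsur j y hy
      have h5 := hmem q
      rw [hq] at h5
      have h6 : q.1 = j := by
        by_contra h7
        exact (disjoint_left.1 (hO.dis _ _ h7)) h5 hy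
      refine ⟨q, ?_, hq⟩
      rw [hV', mem_image]
      refine ⟨q.2, mem_univ _, ?_⟩
      rw [← h6]
    have hb := cell_step h T ω' m hSt' hω'0 A1' (G x) lgG (fun n => by rw [hG]; exact u3 x n) hprime
      A2' (cc := 1 / 5) (by norm_num) (by norm_num) hprr V' K 97 lam hK0 (by linarith) hlam0
      (by rw [hV'c]; exact hP0) (by rw [hV'c]; exact hP1) hlam3 hε2
    rw [hsumT]
    refine hb.trans (le_of_eq ?_)
    refine sum_congr rfl fun N _ => ?_
    rw [hμd, ← hz']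
    have e1 : (∃ y ∈ V', (N + h y).Prime) ↔ ∃ y ∈ V j, (N + y).Prime := by
      constructor
      · rintro ⟨q, hq, hp⟩
        exact ⟨h q, hV'1 q hq, hp⟩
      · rintro ⟨y, hy, hp⟩
        obtain ⟨q, hq, rfl⟩ := hV'2 y hy
        exact ⟨q, hq, hp⟩
    have e2 : (∃ y ∈ V', ∃ z ∈ V', y ≠ z ∧ (N + h y).Prime ∧ (N + h z).Prime) ↔
        ∃ y ∈ V j, ∃ z ∈ V j, y ≠ z ∧ (N + y).Prime ∧ (N + z).Prime := by
      constructor
      · rintro ⟨q, hq, q', hq', hne', hp, hp'⟩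
        exact ⟨h q, hV'1 q hq, h q', hV'1 q' hq', fun h5 => hne' (hinj h5), hp, hp'⟩
      · rintro ⟨y, hy, y', hy', hne', hp, hp'⟩
        obtain ⟨q, hq, rfl⟩ := hV'2 y hy
        obtain ⟨q', hq', rfl⟩ := hV'2 y' hy'
        exact ⟨q, hq, q', hq', fun h5 => hne' (by rw [h5]), hp, hp'⟩
    simp only [e1, e2]
  · rw [hsumT]
    have h5 : ∑ N ∈ T, μ N * S x N =
        AvT T ω (fun N => sg b l B m N ^ 2 * (R x N * S x N)) / z' := by
      unfold AvT
      rw [sum_div]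
      refine sum_congr rfl fun N _ => ?_
      rw [hμd, hω']
      ring
    rw [h5, div_le_iff₀ hz0']
    refine hout.trans ?_
    have g3 : (δ + e') * (z - κ) ≤ (δ + e') * z' :=
      mul_le_mul_of_nonneg_left hzz (by linarith)
    have g1 : κ * δ ≤ κ * 1 := mul_le_mul_of_nonneg_left hδ1 hκ0
    have g2 : κ * e' ≤ 1 / 1000 * e' := mul_le_mul_of_nonneg_right (by linarith) he'.le
    have g4 : (δ + e') * (z - κ) = δ * z + e' * z - κ * δ - κ * e' := by ring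
    have g5 : e' * (3 / 4) ≤ e' * z := mul_le_mul_of_nonneg_left hz2 he'.le
    have g6 : κ ≤ e' / 400 := by linarith
    linarith

end Pool.Agent.H96.RW
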