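import Pool.Agent.H95.RO.Df
import Pool.Agent.H72.NU.Pat

/-!
# [H96 RW DF] MP_8923e7_nt, THEOREM R (all words): definitions

`Okl δ a0 W`: a weight given by patterns of primes `≥ x^a0` of level `≤ x^(9/20)`.  `RotP`: `RotD` and the twisted laws for
one and for two such weights.
-/

set_option autoImplicit false

namespace Pool.Agent.H96.RW

open Finset Filter Pool.Agent.H95.RO Pool.Agent.H11.PT Pool.Agent.H11.RG Pool.Agent.H89.P2
  Pool.Agent.H72.NU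

/-- weights of level `9/20` -/
def Okl (δ a0 : ℝ) (W : List (ℝ × List ℕ × List ℕ)) : Prop :=
  (∀ w ∈ W, ∀ j ∈ w.2.1 ++ w.2.2, a0 ≤ (j : ℝ) * δ) ∧
  ∀ w ∈ W, (size w.2.1 : ℝ) * δ ≤ 9 / 20 ∧ w.2.2 = []

/-- the data of a weight `R` with the twisted laws -/
structure RotP (η A C0 δ : ℝ) (R S : ℝ → ℕ → ℝ) : Prop where
  rot : RotD η A C0 δ R S
  one : ∀ (δ' a0 : ℝ) (W : List (ℝ × List ℕ × List ℕ)), 0 < δ' → 0 < a0 → a0 ≤ 1 / 20 →
    Okl δ' a0 W → ∀ h : ℝ → ℕ, Sml h →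
      IntD η a0 (fun x N => (R x N - 1) * ev2 W (kk x δ' (N + h x))) (fun _ => 0)
  two : ∀ (δ' a0 : ℝ) (W : List (ℝ × List ℕ × List ℕ)), 0 < δ' → 0 < a0 → a0 ≤ 1 / 20 →
    Okl δ' a0 W → ∀ h h' : ℝ → ℕ, Sml h → Sml h' → (∀ᶠ x : ℝ in atTop, h x ≠ h' x) →
      IntD η a0 (fun x N => (R x N - 1) *
        (ev2 W (kk x δ' (N + h x)) * ev2 W (kk x δ' (N + h' x)))) (fun _ => 0)

end Pool.Agent.H96.RW
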