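import Pool.Agent.H96.RW.Tc
import Pool.Agent.H96.RW.Df
import Pool.Agent.H95.RO.Fej

/-!
# [H96 RW TQ] MP_8923e7_nt, THEOREM R (all words): the twisted laws for the Fejer weight
-/

set_option autoImplicit false

namespace Pool.Agent.H96.RW

open Finset Filter Pool.Agent.H95.RO Pool.Agent.H11.PT Pool.Agent.H11.RG Pool.Agent.H89.P2
  Pool.Agent.H72.NU

private theorem sml_le {h : ℝ → ℕ} (hh : Sml h) (c : ℝ) (hc : 0 < c) :
    ∀ᶠ x : ℝ in atTop, (h x : ℝ) ≤ x ^ c := hh c hc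

open Classical in
/-- one cosine, two patterns -/
private theorem cos_two (τ δ a0 : ℝ) (hτ : 0 < τ) (hτ1 : τ ≤ 1 / 4) (hδ : 0 < δ) (ha0 : 0 < a0)
    (P Q : List ℕ) (hP : ∀ j ∈ P, a0 ≤ (j : ℝ) * δ) (hQ : ∀ j ∈ Q, a0 ≤ (j : ℝ) * δ)
    (hPQ : ((size P : ℝ) + size Q) * δ ≤ 19 / 20) (η : ℝ) (hη1 : η ≤ τ) (β : ℝ)
    (G : ℝ → Prop) (hG : ∀ x, G x → Gs τ x β) (h h' : ℝ → ℕ) (hh : Sml h) (hh' : Sml h')
    (hne : ∀ᶠ x : ℝ in atTop, h x ≠ h' x) :
    IntD η a0 (fun x N => (if G x then Real.cos (2 * Real.pi * (β * N)) else 0) *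
      (mono P (kk x δ (N + h x)) * mono Q (kk x δ (N + h' x)))) (fun _ => 0) := by
  obtain ⟨C, hC, H⟩ := tw_pat τ δ a0 hτ hτ1 hδ ha0 P Q hP hQ hPQ
  refine ⟨τ / 8, τ / 8, C, by positivity, by positivity, hC, ?_⟩
  filter_upwards [H, sml_le hh (a0 / 2) (by positivity), sml_le hh' (a0 / 2) (by positivity), hne,
    eventually_ge_atTop (1 : ℝ)] with x H h1 h2 h3 hx X1 X2 q0 r hX hX2 hq hqx hqp
  have hx0 : 0 < x := by linarith
  have hq0 : (0 : ℝ) < q0 := by exact_mod_cast hq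
  rw [mul_zero, sub_zero]
  have e1 : x ^ (η / 64) ≤ x ^ (τ / 8) := Real.rpow_le_rpow_of_exponent_le hx (by linarith)
  have e2 : x ^ (1 - τ / 8) ≤ x ^ (1 - η / 128) := Real.rpow_le_rpow_of_exponent_le hx (by linarith)
  have e3 : 0 ≤ x ^ (1 - τ / 8) / q0 := by positivity
  by_cases hp : G x
  · have g := H β (hG x hp) X1 X2 q0 r (h x) (h' x) hX hX2 hq (hqx.trans e1) hqp h1 h2 h3
    have g2 : ∑ N ∈ (Ioc X1 X2).filter (fun N => N % q0 = r % q0),
        (if G x then Real.cos (2 * Real.pi * (β * N)) else 0) *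
          (mono P (kk x δ (N + h x)) * mono Q (kk x δ (N + h' x))) =
        ∑ N ∈ (Ioc X1 X2).filter (fun N => N % q0 = r % q0), Real.cos (2 * Real.pi * (β * N)) *
          (mono P (kk x δ (N + h x)) * mono Q (kk x δ (N + h' x))) :=
      sum_congr rfl fun N _ => by rw [if_pos hp]
    rw [g2]
    refine g.trans (mul_le_mul_of_nonneg_left ?_ hC.le)
    linarith
  · have g2 : ∑ N ∈ (Ioc X1 X2).filter (fun N => N % q0 = r % q0),
        (if G x then Real.cos (2 * Real.pi * (β * N)) else 0) *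
          (mono P (kk x δ (N + h x)) * mono Q (kk x δ (N + h' x))) = 0 :=
      sum_eq_zero fun N _ => by rw [if_neg hp, zero_mul]
    rw [g2, abs_zero]
    have : 0 < x ^ (1 - η / 128) := Real.rpow_pos_of_pos hx0 _
    positivity

private theorem intd_sum {η a0 : ℝ} {ι : Type} (s : Finset ι) (Φ : ι → ℝ → ℕ → ℝ)
    (h : ∀ i ∈ s, IntD η a0 (Φ i) (fun _ => 0)) :
    IntD η a0 (fun x N => ∑ i ∈ s, Φ i x N) (fun _ => 0) := by
  classical
  induction s using Finset.induction_on with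
  | empty => exact intd_congr (intd_zero η a0) (fun _ _ _ => rfl) (fun _ => rfl)
  | insert a s ha ih =>
    have h1 := intd_add (h a (mem_insert_self _ _)) (ih (fun i hi => h i (mem_insert_of_mem hi)))
    exact intd_congr h1 (fun x N _ => by rw [sum_insert ha]) (fun _ => by simp)

open Classical in
/-- one cosine, two weights -/
private theorem cos_ev (τ δ a0 : ℝ) (hτ : 0 < τ) (hτ1 : τ ≤ 1 / 4) (hδ : 0 < δ) (ha0 : 0 < a0)
    (V W : List (ℝ × List ℕ × List ℕ)) (hV : Okl δ a0 V) (hW : Okl δ a0 W) (η : ℝ) (hη1 : η ≤ τ)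
    (β : ℝ) (G : ℝ → Prop) (hG : ∀ x, G x → Gs τ x β) (h h' : ℝ → ℕ) (hh : Sml h) (hh' : Sml h')
    (hne : ∀ᶠ x : ℝ in atTop, h x ≠ h' x) :
    IntD η a0 (fun x N => (if G x then Real.cos (2 * Real.pi * (β * N)) else 0) *
      (ev2 V (kk x δ (N + h x)) * ev2 W (kk x δ (N + h' x)))) (fun _ => 0) := by
  have h1 := intd_list (η := η) (a0 := a0) V (fun v => v.1)
    (fun v x N => (W.map fun w => w.1 * ((if G x then Real.cos (2 * Real.pi * (β * N)) else 0) *
      (mono (v.2.1 ++ v.2.2) (kk x δ (N + h x)) *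
      mono (w.2.1 ++ w.2.2) (kk x δ (N + h' x))))).sum)
    (fun v x => (W.map fun w => w.1 * (0 : ℝ)).sum)
    (fun v hv => intd_list W (fun w => w.1)
      (fun w x N => (if G x then Real.cos (2 * Real.pi * (β * N)) else 0) *
        (mono (v.2.1 ++ v.2.2) (kk x δ (N + h x)) *
        mono (w.2.1 ++ w.2.2) (kk x δ (N + h' x))))
      (fun w x => 0)
      (fun w hw => by
        refine cos_two τ δ a0 hτ hτ1 hδ ha0 _ _ (hV.1 v hv) (hW.1 w hw) ?_ η hη1 β G hG h h' hh hh'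
          hne
        have e1 := hV.2 v hv
        have e2 := hW.2 w hw
        rw [e1.2, e2.2, List.append_nil, List.append_nil, add_mul]
        linarith [e1.1, e2.1]))
  refine intd_congr h1 ?_ ?_
  · intro x N _
    show (V.map fun v => v.1 * (W.map fun w => w.1 * ((if G x then Real.cos (2 * Real.pi *
      (β * N)) else 0) * (mono (v.2.1 ++ v.2.2) (kk x δ (N + h x)) *
      mono (w.2.1 ++ w.2.2) (kk x δ (N + h' x))))).sum).sum = _
    unfold ev2
    rw [← List.sum_map_mul_right, ← List.sum_map_mul_left]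
    congr 1
    apply List.map_congr_left
    intro v _
    rw [← List.sum_map_mul_left, ← List.sum_map_mul_left, ← List.sum_map_mul_left]
    congr 1
    apply List.map_congr_left
    intro w _
    ring
  · intro x
    simp

/-- the twisted laws -/
theorem rotp (t : ℕ) (α : Fin t → ℝ) (n : ℕ) (hn : 1 ≤ n) (d : ℝ) (hd : 0 < d) (hd1 : d < 1 / 2)
    (τ : ℝ) (hτ : 0 < τ) (hτ1 : τ ≤ 1 / 4) : ∃ η0 : ℝ, 0 < η0 ∧ ∀ η : ℝ, 0 < η → η ≤ η0 → ∀ A : ℝ,
      RotP η A ((n : ℝ) ^ t * (1 + 2 * t / (1 - Real.cos (2 * Real.pi * d))))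
        (t / (n * (1 - Real.cos (2 * Real.pi * d)))) (Rf τ n α) (Sf τ n α d) := by
  classical
  obtain ⟨η0, hη0, H⟩ := rotd t α n hn d hd hd1 τ hτ hτ1
  refine ⟨min η0 τ, lt_min hη0 hτ, fun η hη hη1 A => ?_⟩
  have hητ : η ≤ τ := hη1.trans (min_le_right _ _)
  obtain ⟨s1, c1, hs1, hf1⟩ := fej_one (t := t) n hn
  have key : ∀ (V W : List (ℝ × List ℕ × List ℕ)) (δ' a0 : ℝ), 0 < δ' → 0 < a0 → a0 ≤ 1 / 20 →
      Okl δ' a0 V → Okl δ' a0 W → ∀ h h' : ℝ → ℕ, Sml h → Sml h' →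
      (∀ᶠ x : ℝ in atTop, h x ≠ h' x) →
      IntD η a0 (fun x N => (Rf τ n α x N - 1) *
        (ev2 V (kk x δ' (N + h x)) * ev2 W (kk x δ' (N + h' x)))) (fun _ => 0) := by
    intro V W δ' a0 hδ' ha0 ha1 hV hW h h' hh hh' hne
    have h1 := intd_sum (η := η) (a0 := a0) s1 (fun z x N => c1 z * ((if GoodSc τ n α x then
        Real.cos (2 * Real.pi * ((∑ l, (z l : ℝ) * α l) * N)) else 0) *
        (ev2 V (kk x δ' (N + h x)) * ev2 W (kk x δ' (N + h' x)))))
      (fun z hz => intd_congr (intd_smul (c1 z) (cos_ev τ δ' a0 hτ hτ1 hδ' ha0 V W hV hW η hητ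
        (∑ l, (z l : ℝ) * α l) (fun x => GoodSc τ n α x) (fun x hx => good_gs (hs1 z hz) hx)
        h h' hh hh' hne)) (fun _ _ _ => rfl) (fun _ => by simp))
    refine intd_congr h1 (fun x N _ => ?_) (fun _ => rfl)
    unfold Rf
    split_ifs with hg
    · rw [hf1 α N, sum_mul]
      refine sum_congr rfl fun z _ => ?_
      ring
    · simp
  refine ⟨H η hη (hη1.trans (min_le_left _ _)) A, ?_, fun δ' a0 W h1 h2 h3 hW h h' hh hh' hne =>
    key W W δ' a0 h1 h2 h3 hW hW h h' hh hh' hne⟩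
  intro δ' a0 W h1 h2 h3 hW h hh
  have hE : Okl δ' a0 [((1 : ℝ), ([] : List ℕ), ([] : List ℕ))] := by
    constructor
    · intro w hw
      rw [List.mem_singleton] at hw
      subst hw
      intro j hj
      simp at hj
    · intro w hw
      rw [List.mem_singleton] at hw
      subst hw
      simp only [size, List.map_nil, List.sum_nil]
      norm_num
  refine intd_congr (key W _ δ' a0 h1 h2 h3 hW hE h (fun x => h x + 1) hh hh.succ
    (Eventually.of_forall fun x => by omega)) (fun x N _ => ?_) (fun _ => rfl)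
  simp [ev2, mono]

end Pool.Agent.H96.RW
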