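import Pool.Agent.H95.RO.Cor
import Pool.Agent.H96.RW.Ms
import Pool.Agent.H96.RW.Tq
import Pool.Agent.H96.RW.Cs
import Pool.Agent.H96.RW.Dc

/-!
# [H96 RW CO] MP_8923e7_nt, THEOREM R (all words): the core property, bounded gaps
-/

set_option autoImplicit false

namespace Pool.Agent.H96.RW

open Finset Filter Pool.Agent.H21.MT Pool.Agent.H92.MM Pool.Agent.H72.NU Pool.Agent.H96.WP
  Pool.Agent.H95.RO

/-- a point inside the box with large value -/
theorem pickW {n : ℕ} (hn : 1 ≤ n) {X : Finset ℕ} {ν S : ℕ → ℝ} {β e2 : ℝ} (hν : ∀ N, 0 ≤ ν N)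
    (h1 : ∑ N ∈ X, ν N = 1) (g : Fin n → ℕ → ℝ) (hg : ∀ j N, g j N ≤ 1)
    (hE : ∀ j, β ≤ ∑ N ∈ X, ν N * g j N)
    (hS0 : ∀ N, 0 ≤ S N) (hS : ∑ N ∈ X, ν N * S N ≤ e2) (In : ℕ → Prop)
    (hIn : ∀ N ∈ X, ¬ In N → 1 ≤ S N) (c' : ℝ) (hc' : 0 ≤ c') (hlt : c' + n * e2 < β * n) :
    ∃ N ∈ X, ν N ≠ 0 ∧ In N ∧ c' < ∑ j, g j N := by
  by_contra hcon
  push Not at hcon
  have hn0 : (0 : ℝ) < n := by exact_mod_cast hn
  have h2 : β * n ≤ ∑ N ∈ X, ν N * ∑ j, g j N := by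
    calc β * n = ∑ _j : Fin n, β := by
          rw [sum_const, card_univ, Fintype.card_fin, nsmul_eq_mul, mul_comm]
      _ ≤ ∑ j : Fin n, ∑ N ∈ X, ν N * g j N := sum_le_sum fun j _ => hE j
      _ = ∑ N ∈ X, ν N * ∑ j, g j N := by
          rw [sum_comm]
          refine sum_congr rfl fun N _ => ?_
          rw [mul_sum]
  have h3 : ∀ N ∈ X, ν N * (∑ j, g j N) ≤ ν N * c' + n * (ν N * S N) := by
    intro N hN
    have hS1 := hS0 N
    have hν1 := hν N
    by_cases h0 : ν N = 0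
    · rw [h0]
      simp
    by_cases h4 : In N
    · have h5 := mul_le_mul_of_nonneg_left (hcon N hN h0 h4) hν1
      have h6 : 0 ≤ n * (ν N * S N) := by positivity
      linarith
    · have h5 := hIn N hN h4
      have h6 : (∑ j, g j N) ≤ n := by
        calc (∑ j, g j N) ≤ ∑ _j : Fin n, (1 : ℝ) := sum_le_sum fun j _ => hg j N
          _ = n := by rw [sum_const, card_univ, Fintype.card_fin, nsmul_eq_mul, mul_one]
      have h7 : ν N * (∑ j, g j N) ≤ ν N * n := mul_le_mul_of_nonneg_left h6 hν1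
      have h8 : ν N * n * 1 ≤ ν N * n * S N :=
        mul_le_mul_of_nonneg_left h5 (mul_nonneg hν1 hn0.le)
      have h9 : 0 ≤ ν N * c' := mul_nonneg hν1 hc'
      linarith
  have h4 := h2.trans (sum_le_sum h3)
  rw [sum_add_distrib, ← sum_mul, ← mul_sum, h1, one_mul] at h4
  have h5 := mul_le_mul_of_nonneg_left hS hn0.le
  linarith

theorem corew_of (k : ℕ) : ∃ n0 : ℕ, ∀ n : ℕ, n0 ≤ n → 1 ≤ n → ∀ (t : ℕ) (α : Fin t → ℝ), Ind α →
    Scl α → CoreW α k n := by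
  classical
  obtain ⟨β, hβ, hmed⟩ := medw ((k : ℝ) + 1) (by positivity)
  obtain ⟨n0, hn0⟩ := exists_nat_gt (2 * ((k : ℝ) + 1) / β)
  refine ⟨n0, fun n hn hn1 t α hα hsc ε hε => ?_⟩
  have hnr : 2 * ((k : ℝ) + 1) < β * n := by
    have h1 : (n0 : ℝ) ≤ n := by exact_mod_cast hn
    have h2 := hn0.trans_le h1
    rw [div_lt_iff₀ hβ] at h2
    linarith
  obtain ⟨e, hed⟩ : ∃ e : ℝ, e = min (β / 2) (1 / 100) := ⟨_, rfl⟩
  have he : 0 < e := by rw [hed]; positivity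
  have he1 : e ≤ 1 / 100 := by rw [hed]; exact min_le_right _ _
  have heβ : e ≤ β / 2 := by rw [hed]; exact min_le_left _ _
  obtain ⟨d, hd⟩ : ∃ d : ℝ, d = min (ε / 4) (1 / 4) := ⟨_, rfl⟩
  have hd0 : 0 < d := by rw [hd]; positivity
  have hd1 : d ≤ ε / 4 := by rw [hd]; exact min_le_left _ _
  have hd2 : d ≤ 1 / 4 := by rw [hd]; exact min_le_right _ _
  obtain ⟨Kc, hKc⟩ : ∃ Kc : ℝ, Kc = 1 - Real.cos (2 * Real.pi * d) := ⟨_, rfl⟩
  have hKc0 : 0 < Kc := by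
    rw [hKc]
    have hpi := Real.pi_pos
    have h1 : Real.cos (2 * Real.pi * d) < Real.cos 0 := by
      apply Real.cos_lt_cos_of_nonneg_of_le_pi le_rfl
      · nlinarith
      · positivity
    rw [Real.cos_zero] at h1
    linarith
  obtain ⟨f, hf⟩ := exists_nat_ge (8 * (t : ℝ) / (e * Kc) + 1)
  have ht0 : (0 : ℝ) ≤ t := Nat.cast_nonneg t
  have hf0 : (1 : ℝ) ≤ f := by
    have : 0 ≤ 8 * (t : ℝ) / (e * Kc) := by positivity
    linarith
  have hf1 : 1 ≤ f := by exact_mod_cast hf0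
  obtain ⟨δ, hδ⟩ : ∃ δ : ℝ, δ = t / (f * Kc) := ⟨_, rfl⟩
  have hδ0 : 0 ≤ δ := by rw [hδ]; positivity
  have hδe : δ ≤ e / 8 := by
    rw [hδ, div_le_iff₀ (by positivity)]
    have h1 : 8 * (t : ℝ) / (e * Kc) ≤ f := by linarith
    rw [div_le_iff₀ (by positivity)] at h1
    nlinarith
  obtain ⟨C0, hC0⟩ : ∃ C0 : ℝ, C0 = (f : ℝ) ^ t * (1 + 2 * t / Kc) := ⟨_, rfl⟩
  have hC01 : 1 ≤ C0 := by
    rw [hC0]
    have h1 : (1 : ℝ) ≤ (f : ℝ) ^ t := one_le_pow₀ hf0
    have h2 : 0 ≤ 2 * (t : ℝ) / Kc := by positivity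
    nlinarith
  obtain ⟨τ, hτ, hτ1, hfr⟩ := hsc f
  obtain ⟨η1, hη1, H1⟩ := hmed n hn1 (e / 8) C0 (by positivity) hC01
  obtain ⟨η2, hη2, H2⟩ := rotp t α f hf1 d hd0 (by linarith) τ hτ hτ1
  obtain ⟨η, hη⟩ : ∃ η : ℝ, η = min η1 η2 := ⟨_, rfl⟩
  have hη0 : 0 < η := by rw [hη]; exact lt_min hη1 hη2
  have hRD := H2 η hη0 (by rw [hη]; exact min_le_right _ _) 1
  rw [← hKc, ← hC0, ← hδ] at hRD
  obtain ⟨s, a, C2, hs, ha, ha1, hC2, H3⟩ := H1 η hη0 (by rw [hη]; exact min_le_left _ _)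
  obtain ⟨w0, H3⟩ := H3 1
  obtain ⟨w, hw⟩ : ∃ w : ℕ, w = max w0 (n * s) := ⟨_, rfl⟩
  have H4 := H3 w (by rw [hw]; exact le_max_left _ _) (Rf τ f α) (Sf τ f α d) δ hδ0
    (by linarith) hRD
  intro Q hQ ρ hρ y
  -- the shifts
  obtain ⟨W0, hW0d⟩ : ∃ W0 : ℕ, W0 = WR Q (primorial w) := ⟨_, rfl⟩
  have hW0 : 0 < W0 := by rw [hW0d]; exact wr_pos hQ _
  have hQW : Q ∣ W0 := by rw [hW0d]; exact wr_dvd_R _ _
  have hpW : primorial w ∣ W0 := by rw [hW0d]; exact primorial_dvd_wr Q w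
  choose ρ' hρ1 hρ2 using fun i => exists_class Q (primorial w) (ρ i) (hρ i)
  obtain ⟨v, hv, hv1⟩ := incr (fun (i : Fin (n * s)) (h : ℕ) => h ≡ ρ' i.divNat [MOD W0] ∧
    ∀ l, nd (α l * h - y i.divNat l) < ε / 2) (fun i M => by
      obtain ⟨h, h1, h2, h3⟩ := krn α hα W0 hW0 (ρ' i.divNat) (y i.divNat) (ε / 2) (by positivity) M
      exact ⟨h, h1, h2, h3⟩)
  have hvcop : ∀ i, Nat.Coprime (v i) W0 := by
    intro i
    have h1 := (hv1 i).1
    have h2 := hρ2 i.divNat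
    rw [← hW0d] at h2
    rw [Nat.coprime_iff_gcd_eq_one, h1.gcd_eq]
    exact h2
  obtain ⟨Y, hY⟩ : ∃ Y : ℕ, Y = ∑ i, v i := ⟨_, rfl⟩
  have hvY : ∀ i, v i ≤ Y := fun i => by
    rw [hY]
    exact Finset.single_le_sum (f := v) (fun _ _ => Nat.zero_le _) (Finset.mem_univ i)
  obtain ⟨W, b, hWp, hWW, hWb, hbc, hdif, hcl⟩ := tup v hv.injective w W0 Y hW0 hpW
    (by rw [hw]; exact le_max_right _ _) hvcop
  obtain ⟨u, hu⟩ : ∃ u : Fin n × Fin s → ℕ, ∀ p, u p = v (finProdFinEquiv p) := ⟨_, fun _ => rfl⟩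
  have hdivNat : ∀ p : Fin n × Fin s, (finProdFinEquiv p).divNat = p.1 := by
    intro p
    have h2 := finProdFinEquiv.symm_apply_apply p
    exact congrArg Prod.fst h2
  have huinj : Function.Injective u := by
    intro p p' h
    rw [hu, hu] at h
    exact finProdFinEquiv.injective (hv.injective h)
  have huord : ∀ p p' : Fin n × Fin s, p.1 < p'.1 → u p < u p' := by
    intro p p' hpp
    rw [hu, hu]
    apply hv
    rw [Fin.lt_def]
    show (p.2 : ℕ) + s * p.1 < (p'.2 : ℕ) + s * p'.1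
    have h1 : (p.1 : ℕ) + 1 ≤ p'.1 := hpp
    have h2 := Nat.mul_le_mul_left s h1
    have h3 := p.2.2
    rw [mul_add, mul_one] at h2
    omega
  -- the cells
  obtain ⟨V, hV⟩ : ∃ V : Fin n → Finset ℕ, V = fun j =>
    univ.image (fun l : Fin s => u (j, l)) := ⟨_, rfl⟩
  have hmemV : ∀ j z, z ∈ V j ↔ ∃ l : Fin s, u (j, l) = z := by
    intro j z
    rw [hV, mem_image]
    simp
  have hOk : ∀ᶠ x : ℝ in atTop, OkV 1 w s x V W b := by
    filter_upwards [Real.tendsto_log_atTop.eventually_ge_atTop (Y : ℝ),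
      Real.tendsto_log_atTop.eventually_ge_atTop (W : ℝ)] with x hx1 hx2
    refine ⟨fun i j hij => ?_, fun j => ?_, fun j z hz => ?_, hWp, hpW.trans hWW, ?_,
      fun j j' z hz z' hz' hzz p hp hpd => ?_, fun j z hz => ?_⟩
    · rw [disjoint_left]
      intro z hz hz'
      obtain ⟨l, hl⟩ := (hmemV _ _).1 hz
      obtain ⟨l', hl'⟩ := (hmemV _ _).1 hz'
      have h1 := huinj (hl.trans hl'.symm)
      exact hij (Prod.ext_iff.1 h1).1
    · rw [hV, card_image_of_injective, card_univ, Fintype.card_fin]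
      intro l l' hll
      exact (Prod.ext_iff.1 (huinj hll)).2
    · obtain ⟨l, rfl⟩ := (hmemV _ _).1 hz
      rw [Real.rpow_one, hu]
      have : ((v (finProdFinEquiv (j, l)) : ℕ) : ℝ) ≤ Y := by exact_mod_cast hvY _
      linarith
    · rw [Real.rpow_one]
      exact hx2
    · obtain ⟨l, rfl⟩ := (hmemV _ _).1 hz
      obtain ⟨l', rfl⟩ := (hmemV _ _).1 hz'
      rw [hu, hu] at hpd hzz
      exact hdif _ _ (fun h => hzz (by rw [h])) p hp hpd
    · obtain ⟨l, rfl⟩ := (hmemV _ _).1 hz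
      rw [hu]
      exact hbc _
  -- the two kinds of cells
  have hhit : ∀ j N, (∃ z ∈ V j, (N + z).Prime) ↔ ∃ l : Fin s, (N + u (j, l)).Prime := by
    intro j N
    constructor
    · rintro ⟨z, hz, hp⟩
      obtain ⟨l, rfl⟩ := (hmemV _ _).1 hz
      exact ⟨l, hp⟩
    · rintro ⟨l, hp⟩
      exact ⟨_, (hmemV _ _).2 ⟨l, rfl⟩, hp⟩
  have hdbl : ∀ j N, (∃ z ∈ V j, ∃ z' ∈ V j, z ≠ z' ∧ (N + z).Prime ∧ (N + z').Prime) ↔
      ∃ l l' : Fin s, l ≠ l' ∧ (N + u (j, l)).Prime ∧ (N + u (j, l')).Prime := by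
    intro j N
    constructor
    · rintro ⟨z, hz, z', hz', hne, hp, hp'⟩
      obtain ⟨l, rfl⟩ := (hmemV _ _).1 hz
      obtain ⟨l', rfl⟩ := (hmemV _ _).1 hz'
      exact ⟨l, l', fun h => hne (by rw [h]), hp, hp'⟩
    · rintro ⟨l, l', hne, hp, hp'⟩
      refine ⟨_, (hmemV _ _).2 ⟨l, rfl⟩, _, (hmemV _ _).2 ⟨l', rfl⟩, fun h => hne ?_, hp, hp'⟩
      exact (Prod.ext_iff.1 (huinj h)).2
  -- good `N` beyond every bound
  have hgood : ∀ B : ℕ, ∃ N : ℕ, B < N ∧ N % W = b % W ∧ (∀ l, nd (α l * N) < d) ∧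
      k + (k + 1) * (univ.filter (fun j : Fin n => ∃ l l' : Fin s, l ≠ l' ∧
        (N + u (j, l)).Prime ∧ (N + u (j, l')).Prime)).card <
      (univ.filter (fun j : Fin n => ∃ l : Fin s, (N + u (j, l)).Prime)).card := by
    intro B
    have hbig : ∀ᶠ x : ℝ in atTop, (B : ℝ) < Real.sqrt x := by
      filter_upwards [eventually_gt_atTop ((B : ℝ) ^ 2)] with x hx
      exact (Real.lt_sqrt (Nat.cast_nonneg B)).2 hx
    obtain ⟨x, hxg, hx1, hx2, hx3⟩ := (hfr.and_eventually (H4.and (hOk.and hbig))).exists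
    obtain ⟨-, ν, hν0, -, hν2, hν3, hν4, hν5⟩ := hx1 V W b hx2
    obtain ⟨N, hN, hN0, hN1, hN2⟩ := pickW (β := β) (e2 := δ + e / 8) hn1 hν0 hν3
      (fun j N => (if ∃ l : Fin s, (N + u (j, l)).Prime then (1 : ℝ) else 0) -
        ((k : ℝ) + 1) * (if ∃ l l' : Fin s, l ≠ l' ∧ (N + u (j, l)).Prime ∧ (N + u (j, l')).Prime
          then 1 else 0)) (fun j N => by
        have hk0 : (0 : ℝ) ≤ (k : ℝ) + 1 := by positivity
        split_ifs <;> linarith) (fun j => by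
        refine (hν4 j).trans (le_of_eq (sum_congr rfl fun N _ => ?_))
        congr 1
        simp only [hhit, hdbl])
      (fun N => (hRD.rot.bS x N).1) hν5 (fun N => ∀ l, nd (α l * N) < d) (fun N _ hno => by
        push Not at hno
        obtain ⟨l, hl⟩ := hno
        exact sf_ge τ f α d x hd0 (by linarith) hxg N l hl) k (Nat.cast_nonneg k) (by
          have h1 : δ + e / 8 ≤ β / 2 := by linarith
          have h2 : (n : ℝ) * (δ + e / 8) ≤ n * (β / 2) :=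
            mul_le_mul_of_nonneg_left h1 (Nat.cast_nonneg n)
          linarith)
    refine ⟨N, ?_, (hν2 N hN hN0).1, hN1, ?_⟩
    · rw [Tx, mem_Ioc] at hN
      have h1 : Real.sqrt x < (N : ℝ) := Nat.lt_of_floor_lt hN.1
      have h2 : (B : ℝ) < N := hx3.trans h1
      exact_mod_cast h2
    · rw [sum_sub_distrib, ← mul_sum, sum_boole, sum_boole] at hN2
      have h1 : (k : ℝ) + ((k : ℝ) + 1) * ((univ.filter (fun j : Fin n => ∃ l l' : Fin s, l ≠ l' ∧
        (N + u (j, l)).Prime ∧ (N + u (j, l')).Prime)).card : ℝ) <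
        ((univ.filter (fun j : Fin n => ∃ l : Fin s, (N + u (j, l)).Prime)).card : ℝ) := by linarith
      exact_mod_cast h1
  -- the strings of primes
  have hstr : ∀ B : ℕ, ∃ (q : Fin (k + 1) → Fin n) (j : ℕ), B < j ∧ StrictMono q ∧
      ∀ i : Fin (k + 1), Nat.nth Nat.Prime (j + i) ≤ Nat.nth Nat.Prime j + Y ∧
          Nat.nth Nat.Prime (j + i) ≡ ρ (q i) [MOD Q] ∧
          ∀ l, nd (α l * Nat.nth Nat.Prime (j + i) - y (q i) l) < ε := by
    intro B
    obtain ⟨N, hN1, hN2, hN3, hN4⟩ := hgood (Nat.nth Nat.Prime B + W)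
    have hNW : N ≡ b [MOD W] := hN2
    obtain ⟨q, l0, j, hq, hj⟩ := consecW N Y u huord (fun p => by rw [hu]; exact hvY _)
      (fun z hz hp => by
      by_contra hno
      push Not at hno
      obtain ⟨p, hpp, hpW', hpb⟩ := hcl z hz (fun i hi => by
        apply hno (finProdFinEquiv.symm i)
        rw [hu, Equiv.apply_symm_apply]
        exact hi)
      have h1 : N + z ≡ b + z [MOD p] := (hNW.of_dvd hpW').add_right z
      have h2 : p ∣ N + z := (h1.dvd_iff dvd_rfl).2 hpb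
      have h3 : p = N + z := (Nat.prime_dvd_prime_iff_eq hpp hp).1 h2
      have h4 : p ≤ W := Nat.le_of_dvd hWp hpW'
      omega) hN4
    have hj0 : Nat.nth Nat.Prime j = N + u (q 0, l0 0) := by
      have := hj 0
      rwa [Fin.val_zero, add_zero] at this
    refine ⟨q, j, ?_, hq, fun i => ?_⟩
    · by_contra hjB
      push Not at hjB
      have h1 : Nat.nth Nat.Prime j ≤ Nat.nth Nat.Prime B :=
        (Nat.nth_strictMono Nat.infinite_setOfPred_prime).monotone hjB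
      rw [hj0] at h1
      have h6 : Nat.nth Nat.Prime B + W < N := hN1
      generalize Nat.nth Nat.Prime B = q' at h1 h6
      generalize u (q 0, l0 0) = q'' at h1
      omega
    · rw [hj i]
      have hui : u (q i, l0 i) = v (finProdFinEquiv (q i, l0 i)) := hu _
      refine ⟨?_, ?_, fun l => ?_⟩
      · rw [hj0, hui]
        have := hvY (finProdFinEquiv (q i, l0 i))
        omega
      · have h1 : N ≡ 0 [MOD Q] := by
          have h2 : N ≡ b [MOD Q] := hNW.of_dvd (hQW.trans hWW)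
          exact h2.trans (Nat.modEq_zero_iff_dvd.2 (hQW.trans hWb))
        have h2 : u (q i, l0 i) ≡ ρ (q i) [MOD Q] := by
          rw [hui]
          have h4 := (hv1 (finProdFinEquiv (q i, l0 i))).1
          rw [hdivNat] at h4
          exact (h4.of_dvd hQW).trans (hρ1 _)
        have h3 := h1.add h2
        rwa [zero_add] at h3
      · have h1 := (hv1 (finProdFinEquiv (q i, l0 i))).2 l
        rw [hdivNat] at h1
        have h2 := hN3 l
        rw [hui]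
        push_cast
        have h3 : α l * ((N : ℝ) + v (finProdFinEquiv (q i, l0 i))) - y (q i) l =
            α l * N + (α l * v (finProdFinEquiv (q i, l0 i)) - y (q i) l) := by ring
        rw [h3]
        have h4 := nd_add (α l * N) (α l * v (finProdFinEquiv (q i, l0 i)) - y (q i) l)
        linarith
  -- pigeonhole
  by_contra hcon
  push Not at hcon
  have hfin : ∀ q : Fin (k + 1) → Fin n, ∃ B : ℕ, StrictMono q → ∀ j : ℕ,
      (∀ i : Fin (k + 1), Nat.nth Nat.Prime (j + i) ≤ Nat.nth Nat.Prime j + Y ∧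
          Nat.nth Nat.Prime (j + i) ≡ ρ (q i) [MOD Q] ∧
          ∀ l, nd (α l * Nat.nth Nat.Prime (j + i) - y (q i) l) < ε) → j ≤ B := by
    intro q
    by_cases h1 : StrictMono q
    · have h2 := hcon q Y h1
      obtain ⟨B, hB⟩ := h2.bddAbove
      exact ⟨B, fun _ j hj => hB hj⟩
    · exact ⟨0, fun h => absurd h h1⟩
  choose B hB using hfin
  obtain ⟨q, j, h1, h2, h3⟩ := hstr (∑ q, B q)
  have h4 := hB q h2 j h3
  have h5 := Finset.single_le_sum (f := B) (fun _ _ => Nat.zero_le _) (Finset.mem_univ q)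
  omega

end Pool.Agent.H96.RW
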