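import Pool.Agent.H95.RO.Coa

/-!
# [H96 RW TAS] MP_8923e7_nt, THEOREM R (all words): linear sums on average over the modulus (second item of TA)
-/

set_option autoImplicit false

namespace Pool.Agent.H96.RW

open Finset Filter Pool.Agent.H95.RO

private theorem gb_succ {A d : ℝ} (hA : 0 ≤ A) (hd : 0 ≤ d) : gb (A + 1) d ≤ gb A d + 1 := by
  unfold gb
  have h1 : 0 ≤ A * d := mul_nonneg hA hd
  have h2 : 0 < 1 + A * d := by linarith
  have h3 : 0 < 1 + (A + 1) * d := by nlinarith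
  rw [div_add_one h2.ne', div_le_div_iff₀ h3 h2]
  nlinarith [mul_nonneg h1 hd, mul_nonneg h1 h1, mul_nonneg hA h1]

private theorem big (τ : ℝ) (hτ : 0 < τ) : ∀ᶠ x : ℝ in atTop,
    200 * (1 + Real.log x) ^ 2 * x ^ (1 - τ / 5) ≤ x ^ (1 - τ / 8) := by
  have h1 := (isLittleO_log_rpow_atTop (show (0 : ℝ) < τ / 40 by positivity)).bound
    (show (0 : ℝ) < 1 / 40 by norm_num)
  have h2 := (tendsto_rpow_atTop (show (0 : ℝ) < τ / 40 by positivity)).eventually_ge_atTop 40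
  filter_upwards [h1, h2, eventually_ge_atTop (1 : ℝ)] with x h1 h2 hx
  have hx0 : 0 < x := by linarith
  have hl : 0 ≤ Real.log x := Real.log_nonneg hx
  have hp : 0 < x ^ (τ / 40) := Real.rpow_pos_of_pos hx0 _
  rw [Real.norm_of_nonneg hl, Real.norm_of_nonneg hp.le] at h1
  have h3 : 1 + Real.log x ≤ x ^ (τ / 40) / 20 := by linarith
  have h4 : (1 + Real.log x) ^ 2 ≤ (x ^ (τ / 40) / 20) ^ 2 :=
    pow_le_pow_left₀ (by linarith) h3 2
  have h5 : x ^ (1 - τ / 8) = (x ^ (τ / 40)) ^ 3 * x ^ (1 - τ / 5) := by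
    rw [← Real.rpow_natCast, ← Real.rpow_mul hx0.le, ← Real.rpow_add hx0]
    congr 1
    push_cast
    ring
  rw [h5]
  apply mul_le_mul_of_nonneg_right _ (Real.rpow_nonneg hx0.le _)
  calc 200 * (1 + Real.log x) ^ 2 ≤ 200 * (x ^ (τ / 40) / 20) ^ 2 :=
        mul_le_mul_of_nonneg_left h4 (by norm_num)
    _ = (x ^ (τ / 40)) ^ 2 * (1 / 2) := by ring
    _ ≤ (x ^ (τ / 40)) ^ 2 * x ^ (τ / 40) := by
        apply mul_le_mul_of_nonneg_left _ (by positivity)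
        linarith
    _ = (x ^ (τ / 40)) ^ 3 := by ring

theorem sum_gb' (τ : ℝ) (hτ : 0 < τ) (hτ1 : τ ≤ 1 / 4) : ∀ᶠ x : ℝ in atTop, ∀ β : ℝ, Gs τ x β →
    ∀ (q0 M : ℕ) (Y : ℝ), 1 ≤ q0 → (q0 : ℝ) ≤ x ^ (τ / 8) → (M : ℝ) ≤ x ^ (19 / 20 : ℝ) → 0 ≤ Y →
      Y ≤ x ^ (1 + τ / 8) →
      ∑ m ∈ Icc 1 M, gb (Y / ((q0 * m : ℕ) : ℝ) + 1) (nd (((q0 * m : ℕ) : ℝ) * β)) ≤
        x ^ (1 - τ / 8) := by
  filter_upwards [big τ hτ, eventually_ge_atTop (1 : ℝ),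
    (tendsto_rpow_atTop (show (0 : ℝ) < τ / 2 by positivity)).eventually_ge_atTop 4]
    with x hbig hx hx4 β hG q0 M Y hq hqx hM hY hYx
  have hx0 : 0 < x := by linarith
  have hq0 : (0 : ℝ) < q0 := by exact_mod_cast hq
  have hlx : 0 ≤ Real.log x := Real.log_nonneg hx
  rcases Nat.eq_zero_or_pos M with hM0 | hM0
  · rw [hM0]
    simp only [Icc_eq_empty_of_lt Nat.zero_lt_one, sum_empty]
    exact Real.rpow_nonneg hx0.le _
  -- rational approximation of `q0 β`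
  have hn1 : 1 ≤ ⌊x ^ (1 - τ / 2)⌋₊ := by
    rw [Nat.one_le_floor_iff]
    exact Real.one_le_rpow hx (by linarith)
  obtain ⟨q, h1, h2⟩ := Real.exists_rat_abs_sub_le_and_den_le ((q0 : ℝ) * β) hn1
  have hk0 : (0 : ℝ) < (q.den : ℝ) := by exact_mod_cast q.den_pos
  have hqc : ((q.num : ℤ) : ℝ) / (q.den : ℝ) = (q : ℝ) := by
    rw [Rat.cast_def]
  have hkn : (q.den : ℝ) ≤ ⌊x ^ (1 - τ / 2)⌋₊ := by exact_mod_cast h2
  have hfl : ((⌊x ^ (1 - τ / 2)⌋₊ : ℕ) : ℝ) ≤ x ^ (1 - τ / 2) :=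
    Nat.floor_le (Real.rpow_nonneg hx0.le _)
  have hfl2 : x ^ (1 - τ / 2) < (⌊x ^ (1 - τ / 2)⌋₊ : ℝ) + 1 := Nat.lt_floor_add_one _
  have hkx : (q.den : ℝ) ≤ x ^ (1 - τ / 2) := hkn.trans hfl
  have hcop : IsCoprime q.num (q.den : ℤ) := by
    rw [Int.isCoprime_iff_gcd_eq_one]
    exact q.reduced
  have happ : |(q0 : ℝ) * β - ((q.num : ℤ) : ℝ) / (q.den : ℕ)| ≤ 1 / ((q.den : ℕ) : ℝ) ^ 2 := by
    rw [hqc]
    refine h1.trans ?_
    apply one_div_le_one_div_of_le (by positivity)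
    rw [sq]
    apply mul_le_mul_of_nonneg_right _ hk0.le
    linarith
  have hlow : x ^ (τ / 2) ≤ (q.den : ℝ) := by
    by_contra hlt
    rw [not_le] at hlt
    have hr1 : 1 ≤ q.den * q0 := Nat.one_le_iff_ne_zero.2 (mul_ne_zero q.den_ne_zero (by omega))
    have hrx : ((q.den * q0 : ℕ) : ℝ) ≤ x ^ τ := by
      push_cast
      calc (q.den : ℝ) * q0 ≤ x ^ (τ / 2) * x ^ (τ / 8) := by
            apply mul_le_mul hlt.le hqx hq0.le (Real.rpow_nonneg hx0.le _)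
        _ = x ^ (τ / 2 + τ / 8) := by rw [Real.rpow_add hx0]
        _ ≤ x ^ τ := Real.rpow_le_rpow_of_exponent_le hx (by linarith)
    have hG1 := hG (q.den * q0) hr1 hrx
    have h3 := nd_le (((q.den * q0 : ℕ) : ℝ) * β) q.num
    have h4 : ((q.den * q0 : ℕ) : ℝ) * β - ((q.num : ℤ) : ℝ) =
        (q.den : ℝ) * ((q0 : ℝ) * β - (q : ℝ)) := by
      rw [← hqc]
      push_cast
      field_simp
    rw [h4, abs_mul, abs_of_pos hk0] at h3
    have h5 : (q.den : ℝ) * |(q0 : ℝ) * β - (q : ℝ)| ≤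
        (q.den : ℝ) * (1 / (((⌊x ^ (1 - τ / 2)⌋₊ : ℝ) + 1) * q.den)) :=
      mul_le_mul_of_nonneg_left h1 hk0.le
    have h6 : (q.den : ℝ) * (1 / (((⌊x ^ (1 - τ / 2)⌋₊ : ℝ) + 1) * q.den)) =
        1 / ((⌊x ^ (1 - τ / 2)⌋₊ : ℝ) + 1) := by
      field_simp
    have h7 : (1 : ℝ) / ((⌊x ^ (1 - τ / 2)⌋₊ : ℝ) + 1) ≤ 1 / x ^ (1 - τ / 2) :=
      one_div_le_one_div_of_le (Real.rpow_pos_of_pos hx0 _) hfl2.le
    have h8 : 1 / x ^ (1 - τ / 2) = x ^ (-(1 - τ / 2)) := by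
      rw [Real.rpow_neg hx0.le, one_div]
    have h9 : x ^ (-(1 - τ / 2)) ≤ x ^ (-(1 - τ)) :=
      Real.rpow_le_rpow_of_exponent_le hx (by linarith)
    linarith
  obtain ⟨k, hk⟩ : ∃ k : ℕ, k = q.den := ⟨_, rfl⟩
  rw [← hk] at hk0 hkx hcop happ hlow
  have hk4 : 4 ≤ k := by
    have : (4 : ℝ) ≤ k := hx4.trans hlow
    exact_mod_cast this
  have hM1 : (1 : ℝ) ≤ M := by exact_mod_cast hM0
  have hsum := sumI k q.num ((q0 : ℝ) * β) hk4 hcop happ (Y / q0) (by positivity) M hM0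
  -- the terms
  have hle : ∑ m ∈ Icc 1 M, gb (Y / ((q0 * m : ℕ) : ℝ) + 1) (nd (((q0 * m : ℕ) : ℝ) * β)) ≤
      ∑ m ∈ Icc 1 M, gb (Y / q0 / m) (nd (m * ((q0 : ℝ) * β))) + M := by
    have e1 : (M : ℝ) = ∑ _m ∈ Icc 1 M, (1 : ℝ) := by
      rw [sum_const, Nat.card_Icc, nsmul_eq_mul, mul_one, Nat.add_sub_cancel]
    rw [e1, ← sum_add_distrib]
    refine sum_le_sum fun m hm => ?_
    have e2 : Y / ((q0 * m : ℕ) : ℝ) = Y / q0 / m := by
      push_cast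
      rw [div_div]
    have e3 : ((q0 * m : ℕ) : ℝ) * β = m * ((q0 : ℝ) * β) := by
      push_cast
      ring
    rw [e2, e3]
    exact gb_succ (by positivity) (nd_nonneg _)
  refine hle.trans ?_
  have hlM : Real.log M ≤ Real.log x := by
    apply Real.log_le_log (by linarith)
    refine hM.trans ?_
    calc x ^ (19 / 20 : ℝ) ≤ x ^ (1 : ℝ) := Real.rpow_le_rpow_of_exponent_le hx (by norm_num)
      _ = x := Real.rpow_one x
  have hlk : Real.log k ≤ Real.log x := by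
    apply Real.log_le_log hk0
    refine hkx.trans ?_
    calc x ^ (1 - τ / 2) ≤ x ^ (1 : ℝ) := Real.rpow_le_rpow_of_exponent_le hx (by linarith)
      _ = x := Real.rpow_one x
  have hZ : x ^ (19 / 20 : ℝ) ≤ x ^ (1 - τ / 5) :=
    Real.rpow_le_rpow_of_exponent_le hx (by linarith)
  have hZ2 : x ^ (1 - τ / 2) ≤ x ^ (1 - τ / 5) :=
    Real.rpow_le_rpow_of_exponent_le hx (by linarith)
  have hZ3 : Y / q0 / k ≤ x ^ (1 - τ / 5) := by
    have hq1 : (1 : ℝ) ≤ q0 := by exact_mod_cast hq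
    have e1 : Y / q0 ≤ Y := div_le_self hY hq1
    have e2 : Y / q0 / k ≤ x ^ (1 + τ / 8) / x ^ (τ / 2) :=
      div_le_div₀ (Real.rpow_nonneg hx0.le _) (e1.trans hYx) (Real.rpow_pos_of_pos hx0 _) hlow
    rw [← Real.rpow_sub hx0] at e2
    exact e2.trans (Real.rpow_le_rpow_of_exponent_le hx (by linarith))
  obtain ⟨Z, hZd⟩ : ∃ Z : ℝ, Z = x ^ (1 - τ / 5) := ⟨_, rfl⟩
  rw [← hZd] at hZ hZ2 hZ3 hbig
  have hZ0 : 0 ≤ Z := by rw [hZd]; exact Real.rpow_nonneg hx0.le _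
  have hlM0 : 0 ≤ Real.log M := Real.log_natCast_nonneg M
  have hlk0 : 0 ≤ Real.log k := Real.log_natCast_nonneg k
  have hfin : 64 * (Y / q0 / k + M + k) * (1 + Real.log M) * (1 + Real.log k) ≤
      64 * (3 * Z) * (1 + Real.log x) * (1 + Real.log x) := by
    have e1 : 64 * (Y / q0 / k + M + k) ≤ 64 * (3 * Z) := by linarith
    have e0 : 0 ≤ 64 * (Y / q0 / k + M + k) := by positivity
    have e2 : 64 * (Y / q0 / k + M + k) * (1 + Real.log M) ≤ 64 * (3 * Z) * (1 + Real.log x) :=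
      mul_le_mul e1 (by linarith) (by linarith) (by linarith)
    exact mul_le_mul e2 (by linarith) (by linarith) (mul_nonneg (by linarith) (by linarith))
  have hM2 : (M : ℝ) ≤ Z * (1 + Real.log x) ^ 2 := by
    have e1 : (1 : ℝ) ≤ (1 + Real.log x) ^ 2 := one_le_pow₀ (by linarith)
    calc (M : ℝ) ≤ Z := hM.trans hZ
      _ = Z * 1 := (mul_one _).symm
      _ ≤ Z * (1 + Real.log x) ^ 2 := mul_le_mul_of_nonneg_left e1 hZ0
  refine le_trans ?_ hbig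
  have e3 : 0 ≤ Z * (1 + Real.log x) ^ 2 := by positivity
  have e4 : 64 * (3 * Z) * (1 + Real.log x) * (1 + Real.log x) = 192 * (Z * (1 + Real.log x) ^ 2) := by
    ring
  have e5 : 200 * (1 + Real.log x) ^ 2 * Z = 200 * (Z * (1 + Real.log x) ^ 2) := by ring
  linarith

end Pool.Agent.H96.RW
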