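import Pool.Agent.H96.RW.Tac
import Pool.Agent.H96.RW.Tas

/-!
# [H96 RW TA] MP_8923e7_nt, THEOREM R (all words): linear sums over a class and their average over the modulus

PROOF.
* `cos_gb`: exactly as `cos_lin` in `H95/RO/Coa.lean` (same set description `coa_set`, private there: copy it): the sum over the class is
  `Re (ee ((r' - q) β) ∑_(i in Ioc u v) ee (i (q β)))`, `u = (X1 + q - r')/q`, `v = (X2 + q - r')/q`, and `geo u v _ (q β) K` with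
  `v - u ≤ K = (X2 - X1)/q + 1` (floors: `u > (X1 + q - r')/q - 1` and `v ≤ (X2 + q - r')/q`).
* `sum_gb`: first `gb (A + 1) d ≤ gb A d + 1` for `A, d ≥ 0`. So the sum is `≤ ∑_(m ≤ M) gb ((Y/q0)/m) (nd (m γ)) + M` with `γ = q0 β`.
  Approximation of `γ`: Dirichlet (Mathlib `Real.exists_rat_abs_sub_le_and_den_le`) with `n = ⌊x^(1-τ/2)⌋₊`: reduced `a/k`, `k ≤ n`,
  `|γ - a/k| ≤ 1/((n+1) k) ≤ 1/k^2`. If `k < x^(τ/2)` then `r = k q0 ≤ x^(τ/2 + τ/8) ≤ x^τ` and `nd (r β) ≤ |k γ - a| ≤ 1/(n+1) ≤ x^(-(1-τ/2)) ≤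
  x^(-(1-τ))`, against `Gs τ x β` (copy `app` of `H95/RO/Coa.lean`). So `x^(τ/2) ≤ k ≤ x^(1-τ/2)` (in particular `k ≥ 4` for large `x`), and `sumI` (H95/RO/Sep, for `M ≥ 1`; the
  case `M = 0` is trivial) gives
  `≤ 64 (Y/(q0 k) + M + k)(1 + log M)(1 + log k) ≤ 64 (x^(1+τ/8-τ/2) + x^(19/20) + x^(1-τ/2)) (1 + log x)^2`; all exponents are `≤ 1 - τ/5`
  (`τ ≤ 1/4`), and `200 (1 + log x)^2 x^(1-τ/5) ≤ x^(1-τ/8)` for large `x`.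
-/

set_option autoImplicit false

namespace Pool.Agent.H96.RW

open Finset Filter Pool.Agent.H95.RO

theorem cos_gb (β : ℝ) (X1 X2 q r : ℕ) (hX : X1 ≤ X2) (hq : 0 < q) :
    |∑ N ∈ (Ioc X1 X2).filter (fun N => N % q = r % q), Real.cos (2 * Real.pi * (β * N))| ≤
      2 * gb (((X2 : ℝ) - X1) / q + 1) (nd ((q : ℝ) * β)) :=
  cos_gb' β X1 X2 q r hX hq

theorem sum_gb (τ : ℝ) (hτ : 0 < τ) (hτ1 : τ ≤ 1 / 4) : ∀ᶠ x : ℝ in atTop, ∀ β : ℝ, Gs τ x β →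
    ∀ (q0 M : ℕ) (Y : ℝ), 1 ≤ q0 → (q0 : ℝ) ≤ x ^ (τ / 8) → (M : ℝ) ≤ x ^ (19 / 20 : ℝ) → 0 ≤ Y →
      Y ≤ x ^ (1 + τ / 8) →
      ∑ m ∈ Icc 1 M, gb (Y / ((q0 * m : ℕ) : ℝ) + 1) (nd (((q0 * m : ℕ) : ℝ) * β)) ≤
        x ^ (1 - τ / 8) :=
  sum_gb' τ hτ hτ1

end Pool.Agent.H96.RW
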