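import Pool.Agent.H95.RO.Coa

/-!
# [H96 RW TAC] MP_8923e7_nt, THEOREM R (all words): linear sums over a class (first item of TA)
-/

set_option autoImplicit false

namespace Pool.Agent.H96.RW

open Finset Filter Pool.Agent.H21.BV Pool.Agent.H95.RO

private theorem coa_re (t : ℝ) : Real.cos (2 * Real.pi * t) = (ee t).re := by
  unfold ee
  rw [Complex.exp_ofReal_mul_I_re]

private theorem coa_set (X1 X2 q0 r' : ℕ) (hq : 0 < q0) (hr : r' < q0) :
    (Ioc X1 X2).filter (fun N => N % q0 = r') =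
      (Ioc ((X1 + q0 - r') / q0) ((X2 + q0 - r') / q0)).image (fun i => q0 * i + r' - q0) := by
  ext N
  simp only [mem_filter, mem_Ioc, mem_image]
  constructor
  · rintro ⟨⟨h1, h2⟩, h3⟩
    have h4 := Nat.div_add_mod N q0
    rw [h3] at h4
    refine ⟨N / q0 + 1, ⟨?_, ?_⟩, ?_⟩
    · rw [Nat.div_lt_iff_lt_mul hq, mul_comm, mul_add, mul_one]
      omega
    · rw [Nat.le_div_iff_mul_le hq, mul_comm, mul_add, mul_one]
      omega
    · rw [mul_add, mul_one]
      omega
  · rintro ⟨i, ⟨h1, h2⟩, h3⟩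
    rw [Nat.div_lt_iff_lt_mul hq] at h1
    rw [Nat.le_div_iff_mul_le hq] at h2
    rw [mul_comm] at h1 h2
    have hi : 1 ≤ i := by
      rcases Nat.eq_zero_or_pos i with h | h
      · rw [h, mul_zero] at h1
        omega
      · exact h
    have h5 : q0 * 1 ≤ q0 * i := Nat.mul_le_mul_left _ hi
    rw [mul_one] at h5
    refine ⟨⟨by omega, by omega⟩, ?_⟩
    obtain ⟨j, rfl⟩ : ∃ j, i = j + 1 := ⟨i - 1, by omega⟩
    have h6 : N = r' + q0 * j := by
      rw [mul_add, mul_one] at h3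
      omega
    rw [h6, Nat.add_mul_mod_self_left, Nat.mod_eq_of_lt hr]

theorem cos_gb' (β : ℝ) (X1 X2 q r : ℕ) (hX : X1 ≤ X2) (hq : 0 < q) :
    |∑ N ∈ (Ioc X1 X2).filter (fun N => N % q = r % q), Real.cos (2 * Real.pi * (β * N))| ≤
      2 * gb (((X2 : ℝ) - X1) / q + 1) (nd ((q : ℝ) * β)) := by
  obtain ⟨r', hr'⟩ : ∃ r', r' = r % q := ⟨_, rfl⟩
  have hr : r' < q := by rw [hr']; exact Nat.mod_lt _ hq
  rw [← hr', coa_set X1 X2 q r' hq hr]
  have hlow : ∀ i ∈ Ioc ((X1 + q - r') / q) ((X2 + q - r') / q), q ≤ q * i := by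
    intro i hi
    rw [mem_Ioc] at hi
    have h1 : 1 ≤ i := Nat.succ_le_of_lt (lt_of_le_of_lt (Nat.zero_le _) hi.1)
    calc q = q * 1 := (mul_one _).symm
      _ ≤ q * i := Nat.mul_le_mul_left _ h1
  rw [sum_image (by
    intro i hi j hj hij
    have h1 := hlow i hi
    have h2 := hlow j hj
    have h3 : q * i = q * j := by
      simp only at hij
      omega
    exact Nat.eq_of_mul_eq_mul_left hq h3)]
  have hterm : ∀ i ∈ Ioc ((X1 + q - r') / q) ((X2 + q - r') / q),
      Real.cos (2 * Real.pi * (β * ((q * i + r' - q : ℕ) : ℝ))) =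
        (ee (((r' : ℝ) - q) * β) * ee (i * ((q : ℝ) * β))).re := by
    intro i hi
    rw [coa_re, ← ee_add]
    congr 2
    rw [Nat.cast_sub (by have := hlow i hi; omega)]
    push_cast
    ring
  rw [sum_congr rfl hterm, ← Complex.re_sum, ← mul_sum]
  refine (Complex.abs_re_le_norm _).trans ?_
  rw [norm_mul, norm_ee, one_mul]
  have hxy : (X1 + q - r') / q ≤ (X2 + q - r') / q := Nat.div_le_div_right (by omega)
  refine geo _ _ hxy ((q : ℝ) * β) _ ?_
  have hqR : (0 : ℝ) < q := by exact_mod_cast hq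
  have h1 : (((X2 + q - r') / q : ℕ) : ℝ) ≤ ((X2 : ℝ) + q - r') / q := by
    have h2 : (((X2 + q - r') / q : ℕ) : ℝ) ≤ ((X2 + q - r' : ℕ) : ℝ) / q := Nat.cast_div_le
    rwa [Nat.cast_sub (by omega), Nat.cast_add] at h2
  have h2 : ((X1 : ℝ) + q - r') / q < (((X1 + q - r') / q : ℕ) : ℝ) + 1 := by
    rw [div_lt_iff₀ hqR]
    have h3 : X1 + q - r' < ((X1 + q - r') / q + 1) * q := by
      have := Nat.lt_div_mul_add hq (a := X1 + q - r')
      rw [add_mul, one_mul]
      exact this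
    have h4 : ((X1 + q - r' : ℕ) : ℝ) < (((X1 + q - r') / q + 1) * q : ℕ) := by exact_mod_cast h3
    rw [Nat.cast_sub (by omega)] at h4
    push_cast at h4
    exact_mod_cast h4
  have h3 : ((X2 : ℝ) + q - r') / q - ((X1 : ℝ) + q - r') / q = ((X2 : ℝ) - X1) / q := by ring
  linarith

end Pool.Agent.H96.RW
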