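import Pool.Agent.H11.PT.Mon

/-!
# [H96 RW TB] MP_8923e7_nt, THEOREM R (all words): few tuples of primes with given product

PROOF. `z = (t, u)` in the set: all `t i`, `u i` are primes (`cell_prime`) and their product is `m`, so all of them lie in `m.primeFactors`
(`m ≠ 0`), which has at most `P.length + Q.length` elements: `m.primeFactors` is contained in the image of `t` together with the image of `u`
(a prime dividing a product of primes is one of them: `Prime.exists_mem_finset_dvd`/`Prime.dvd_finset_prod_iff` and `Nat.prime_dvd_prime_iff_eq`). So, with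
`F = m.primeFactors`, `#F ≤ P.length + Q.length =: n`, the set is contained in (`piFinset F`) x (`piFinset F`), of cardinality `#F^P.length #F^Q.length ≤ n^n`
(`Fintype.card_piFinset`; if `n = 0` all cardinalities are `≤ 1`, `0^0 = 1`).
* `mono_pair`: `mono_card` twice: `mono P (kk x δ n) = #{t ∈ tp x δ P | ∀ i, t i ∣ n}`, and for `t ∈ tp` (distinct primes) `∀ i, t i ∣ n` iff `∏ t i ∣ n`
  (`Finset.prod_primes_dvd` / `Nat.Coprime.prod_dvd`, or `Finset.prod_dvd_of_coprime`); product of the two cardinalities as a sum of `if` over the product set.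
-/

set_option autoImplicit false

namespace Pool.Agent.H96.RW

open Finset Pool.Agent.H11.PT Pool.Agent.H89.P2

private theorem tb_tp {x δ : ℝ} {P : List ℕ} {t : Fin P.length → ℕ} (ht : t ∈ tp x δ P) :
    (∀ i, (t i).Prime) ∧ Function.Injective t := by
  unfold tp at ht
  rw [Finset.mem_filter, Fintype.mem_piFinset] at ht
  exact ⟨fun i => cell_prime (ht.1 i), ht.2⟩

private theorem tb_dvd {x δ : ℝ} {P : List ℕ} {t : Fin P.length → ℕ} (ht : t ∈ tp x δ P) (n : ℕ) :
    (∀ i, t i ∣ n) ↔ (∏ i, t i) ∣ n := by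
  obtain ⟨hp, hu⟩ := tb_tp ht
  constructor
  · intro hd
    apply Finset.prod_dvd_of_isRelPrime
    · intro i _ j _ hij
      exact Nat.coprime_iff_isRelPrime.1 ((Nat.coprime_primes (hp i) (hp j)).2 fun h => hij (hu h))
    · intro i _
      exact hd i
  · intro h i
    exact (Finset.dvd_prod_of_mem t (Finset.mem_univ i)).trans h

open Classical in
theorem tup_cnt (x δ : ℝ) (P Q : List ℕ) (m : ℕ) (hm : 0 < m) :
    ((tp x δ P ×ˢ tp x δ Q).filter (fun z => (∏ i, z.1 i) * (∏ i, z.2 i) = m)).card ≤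
      (P.length + Q.length) ^ (P.length + Q.length) := by
  obtain ⟨T, hT⟩ : ∃ T, T = (tp x δ P ×ˢ tp x δ Q).filter
    (fun z => (∏ i, z.1 i) * (∏ i, z.2 i) = m) := ⟨_, rfl⟩
  rw [← hT]
  rcases T.eq_empty_or_nonempty with h0 | ⟨z₀, hz₀⟩
  · rw [h0, Finset.card_empty]
    exact Nat.zero_le _
  have hmem : ∀ z ∈ T, (z.1 ∈ tp x δ P ∧ z.2 ∈ tp x δ Q) ∧ (∏ i, z.1 i) * (∏ i, z.2 i) = m := by
    intro z hz
    rw [hT, Finset.mem_filter, Finset.mem_product] at hz
    exact hz
  have hF : m.primeFactors.card ≤ P.length + Q.length := by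
    have h1 : m.primeFactors ⊆ univ.image z₀.1 ∪ univ.image z₀.2 := by
      intro p hp
      obtain ⟨hpp, hpd, -⟩ := Nat.mem_primeFactors.1 hp
      obtain ⟨⟨h2, h3⟩, h4⟩ := hmem z₀ hz₀
      rw [← h4] at hpd
      rw [Finset.mem_union, Finset.mem_image, Finset.mem_image]
      rcases hpp.dvd_mul.1 hpd with h5 | h5
      · obtain ⟨i, -, hi⟩ := (Prime.dvd_finsetProd_iff hpp.prime _).1 h5
        exact Or.inl ⟨i, Finset.mem_univ _, ((Nat.prime_dvd_prime_iff_eq hpp ((tb_tp h2).1 i)).1 hi).symm⟩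
      · obtain ⟨i, -, hi⟩ := (Prime.dvd_finsetProd_iff hpp.prime _).1 h5
        exact Or.inr ⟨i, Finset.mem_univ _, ((Nat.prime_dvd_prime_iff_eq hpp ((tb_tp h3).1 i)).1 hi).symm⟩
    calc m.primeFactors.card ≤ (univ.image z₀.1 ∪ univ.image z₀.2).card := Finset.card_le_card h1
      _ ≤ (univ.image z₀.1).card + (univ.image z₀.2).card := Finset.card_union_le _ _
      _ ≤ P.length + Q.length := by
        refine Nat.add_le_add ?_ ?_
        · exact Finset.card_image_le.trans (by rw [Finset.card_univ, Fintype.card_fin])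
        · exact Finset.card_image_le.trans (by rw [Finset.card_univ, Fintype.card_fin])
  have hsub : T ⊆ (Fintype.piFinset fun _ : Fin P.length => m.primeFactors) ×ˢ
      (Fintype.piFinset fun _ : Fin Q.length => m.primeFactors) := by
    intro z hz
    obtain ⟨⟨h2, h3⟩, h4⟩ := hmem z hz
    rw [Finset.mem_product, Fintype.mem_piFinset, Fintype.mem_piFinset]
    refine ⟨fun i => ?_, fun i => ?_⟩
    · refine Nat.mem_primeFactors.2 ⟨(tb_tp h2).1 i, ?_, hm.ne'⟩
      rw [← h4]
      exact (Finset.dvd_prod_of_mem z.1 (Finset.mem_univ i)).trans (Dvd.intro _ rfl)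
    · refine Nat.mem_primeFactors.2 ⟨(tb_tp h3).1 i, ?_, hm.ne'⟩
      rw [← h4]
      exact (Finset.dvd_prod_of_mem z.2 (Finset.mem_univ i)).trans (Dvd.intro_left _ rfl)
  refine (Finset.card_le_card hsub).trans ?_
  rw [Finset.card_product, Fintype.card_piFinset, Fintype.card_piFinset, Finset.prod_const,
    Finset.prod_const, Finset.card_univ, Finset.card_univ, Fintype.card_fin, Fintype.card_fin, ← pow_add]
  exact Nat.pow_le_pow_left hF _

open Classical in
theorem mono_pair (x δ : ℝ) (hx : 1 < x) (hδ : 0 < δ) (P Q : List ℕ) (n n' : ℕ) :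
    mono P (kk x δ n) * mono Q (kk x δ n') =
      ∑ z ∈ tp x δ P ×ˢ tp x δ Q,
        if (∏ i, z.1 i) ∣ n ∧ (∏ i, z.2 i) ∣ n' then (1 : ℝ) else 0 := by
  have h1 : ∀ (R : List ℕ) (k : ℕ), mono R (kk x δ k) =
      ∑ t ∈ tp x δ R, if (∏ i, t i) ∣ k then (1 : ℝ) else 0 := by
    intro R k
    rw [mono_card x δ hx hδ R k, Finset.card_filter]
    push_cast
    refine Finset.sum_congr rfl fun t ht => ?_
    by_cases h : ∀ i, t i ∣ k
    · rw [if_pos h, if_pos ((tb_dvd ht k).1 h)]
    · rw [if_neg h, if_neg fun h2 => h ((tb_dvd ht k).2 h2)]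
  rw [h1 P n, h1 Q n', Finset.sum_mul_sum, Finset.sum_product]
  refine Finset.sum_congr rfl fun s _ => Finset.sum_congr rfl fun t _ => ?_
  by_cases h2 : (∏ i, s i) ∣ n
  · by_cases h3 : (∏ i, t i) ∣ n'
    · simp [h2, h3]
    · simp [h2, h3]
  · simp [h2]

end Pool.Agent.H96.RW
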