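import Pool.Agent.H96.RW.Ta
import Pool.Agent.H96.RW.Tb

/-!
# [H96 RW TC] MP_8923e7_nt, THEOREM R (all words): the twisted pair law for two patterns

PROOF. `C = 2 (n)^n`, `n = P.length + Q.length`. Let `x` be large, `Y = X2 - X1 ≤ x^(1+τ/8)`. By `mono_pair` the sum is
`∑_z S(a, b)`, `a = ∏ z.1`, `b = ∏ z.2`, `S(a,b) = ∑ cos (2π β N)` over `N ∈ (X1, X2]`, `N ≡ r (q0)`, `a ∣ N + h`, `b ∣ N + h'`.
(1) All primes of `a` and of `b` are `≥ x^(a0)` (`cell_lo`, `P.get i ∈ P`); `a, b ≤ x^(size P δ)`, `x^(size Q δ)` (`prod_le`), so `1 ≤ a b ≤ x^(19/20)`.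
(2) If a prime `p` divides `a` and `b`, `S(a,b) = 0`: `p` divides `(N + h) - (N + h')`, i.e. `h - h' ≠ 0` in absolute value `≤ x^(a0/2) < x^(a0) ≤ p` (`x > 1`): no `N`.
(3) Otherwise `a`, `b` coprime, both prime to `q0` (primes of `q0` are `< x^(a0)`), so the three conditions are either one class modulo `q = q0 a b`
(`Nat.chineseRemainder` twice, or: if some `N1` satisfies them, then `N` satisfies them iff `N ≡ N1 (mod q0 a b)`: the first form `N % q = N1 % q`; if no `N` satisfies them the sum is `0`):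
`|S(a,b)| ≤ 2 gb (Y/q + 1) (nd (q β))` by `cos_gb`.
(4) Group by `m = a b ∈ [1, M]`, `M = ⌊x^(19/20)⌋₊`: at most `n^n` pairs for each `m` (`tup_cnt`), `gb ≥ 0`: total `≤ n^n ∑_(m ≤ M) 2 gb (Y/(q0 m) + 1) (nd (q0 m β)) ≤
2 n^n x^(1-τ/8)` by `sum_gb`.
-/

set_option autoImplicit false

namespace Pool.Agent.H96.RW

open Finset Filter Pool.Agent.H95.RO Pool.Agent.H11.PT Pool.Agent.H89.P2

/-- the sum attached to one pair of products -/
private theorem tw_one (β x a0 : ℝ) (hx : 1 < x) (ha0 : 0 < a0) (X1 X2 q0 r h h' a b : ℕ) (hX : X1 ≤ X2)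
    (hq : 0 < q0) (hqp : ∀ p : ℕ, p.Prime → p ∣ q0 → (p : ℝ) < x ^ a0)
    (hh : (h : ℝ) ≤ x ^ (a0 / 2)) (hh' : (h' : ℝ) ≤ x ^ (a0 / 2)) (hne : h ≠ h') (ha : 0 < a) (hb : 0 < b)
    (hap : ∀ p : ℕ, p.Prime → p ∣ a → x ^ a0 ≤ (p : ℝ))
    (hbp : ∀ p : ℕ, p.Prime → p ∣ b → x ^ a0 ≤ (p : ℝ)) :
    |∑ N ∈ (Ioc X1 X2).filter (fun N => N % q0 = r % q0), Real.cos (2 * Real.pi * (β * N)) *
        (if a ∣ N + h ∧ b ∣ N + h' then (1 : ℝ) else 0)| ≤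
      2 * gb (((X2 : ℝ) - X1) / ((q0 * (a * b) : ℕ) : ℝ) + 1) (nd (((q0 * (a * b) : ℕ) : ℝ) * β)) := by
  have hx0 : 0 < x := by linarith
  have hgb : 0 ≤ 2 * gb (((X2 : ℝ) - X1) / ((q0 * (a * b) : ℕ) : ℝ) + 1)
      (nd (((q0 * (a * b) : ℕ) : ℝ) * β)) := by
    have h1 : (X1 : ℝ) ≤ (X2 : ℝ) := by exact_mod_cast hX
    have h2 : 0 ≤ ((X2 : ℝ) - X1) / ((q0 * (a * b) : ℕ) : ℝ) :=
      div_nonneg (by linarith) (Nat.cast_nonneg _)
    exact mul_nonneg (by norm_num) (gb_nonneg (by linarith) (nd_nonneg _))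
  have e1 : ∑ N ∈ (Ioc X1 X2).filter (fun N => N % q0 = r % q0), Real.cos (2 * Real.pi * (β * N)) *
        (if a ∣ N + h ∧ b ∣ N + h' then (1 : ℝ) else 0) =
      ∑ N ∈ ((Ioc X1 X2).filter (fun N => N % q0 = r % q0)).filter
        (fun N => a ∣ N + h ∧ b ∣ N + h'), Real.cos (2 * Real.pi * (β * N)) := by
    rw [Finset.sum_filter (fun N => a ∣ N + h ∧ b ∣ N + h')]
    refine Finset.sum_congr rfl fun N _ => ?_
    rw [mul_ite, mul_one, mul_zero]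
  rw [e1, Finset.filter_filter]
  by_cases hem : ((Ioc X1 X2).filter (fun N => N % q0 = r % q0 ∧ (a ∣ N + h ∧ b ∣ N + h'))).Nonempty
  · obtain ⟨N1, hN1⟩ := hem
    rw [Finset.mem_filter] at hN1
    obtain ⟨-, hNq, hNa, hNb⟩ := hN1
    have hab : Nat.Coprime a b := by
      rw [Nat.coprime_iff_gcd_eq_one]
      by_contra hg
      obtain ⟨p, hp, hpg⟩ := Nat.exists_prime_and_dvd hg
      have p1 : p ∣ a := hpg.trans (Nat.gcd_dvd_left _ _)
      have p2 : p ∣ b := hpg.trans (Nat.gcd_dvd_right _ _)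
      have p3 : p ∣ N1 + h := p1.trans hNa
      have p4 : p ∣ N1 + h' := p2.trans hNb
      have p5 := hap p hp p1
      have p6 : x ^ (a0 / 2) < x ^ a0 := Real.rpow_lt_rpow_of_exponent_lt hx (by linarith)
      rcases lt_or_gt_of_ne hne with hl | hl
      · have p7 : p ∣ (N1 + h') - (N1 + h) := Nat.dvd_sub p4 p3
        have p8 : (N1 + h') - (N1 + h) = h' - h := by omega
        rw [p8] at p7
        have p9 : p ≤ h' - h := Nat.le_of_dvd (by omega) p7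
        have p10 : (p : ℝ) ≤ (h' : ℝ) := by
          exact_mod_cast (p9.trans (Nat.sub_le _ _))
        linarith
      · have p7 : p ∣ (N1 + h) - (N1 + h') := Nat.dvd_sub p3 p4
        have p8 : (N1 + h) - (N1 + h') = h - h' := by omega
        rw [p8] at p7
        have p9 : p ≤ h - h' := Nat.le_of_dvd (by omega) p7
        have p10 : (p : ℝ) ≤ (h : ℝ) := by
          exact_mod_cast (p9.trans (Nat.sub_le _ _))
        linarith
    have hqa : Nat.Coprime q0 (a * b) := by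
      rw [Nat.coprime_iff_gcd_eq_one]
      by_contra hg
      obtain ⟨p, hp, hpg⟩ := Nat.exists_prime_and_dvd hg
      have p1 : p ∣ q0 := hpg.trans (Nat.gcd_dvd_left _ _)
      have p2 : p ∣ a * b := hpg.trans (Nat.gcd_dvd_right _ _)
      have p3 := hqp p hp p1
      rcases (Nat.Prime.dvd_mul hp).1 p2 with p4 | p4
      · have := hap p hp p4
        linarith
      · have := hbp p hp p4
        linarith
    have hset : (Ioc X1 X2).filter (fun N => N % q0 = r % q0 ∧ (a ∣ N + h ∧ b ∣ N + h')) =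
        (Ioc X1 X2).filter (fun N => N % (q0 * (a * b)) = N1 % (q0 * (a * b))) := by
      refine Finset.filter_congr fun N _ => ?_
      have k1 : N % (q0 * (a * b)) = N1 % (q0 * (a * b)) ↔
          N ≡ N1 [MOD q0] ∧ (N ≡ N1 [MOD a] ∧ N ≡ N1 [MOD b]) := by
        rw [Nat.modEq_and_modEq_iff_modEq_mul hab, Nat.modEq_and_modEq_iff_modEq_mul hqa]
        rfl
      rw [k1]
      have k2 : ∀ c g : ℕ, c ∣ N1 + g → (N ≡ N1 [MOD c] ↔ c ∣ N + g) := by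
        intro c g hc
        rw [← Nat.modEq_zero_iff_dvd] at hc ⊢
        constructor
        · intro h1
          exact (Nat.ModEq.add_right g h1).trans hc
        · intro h1
          exact Nat.ModEq.add_right_cancel' g (h1.trans hc.symm)
      rw [k2 a h hNa, k2 b h' hNb]
      constructor
      · rintro ⟨h1, h2⟩
        exact ⟨h1.trans hNq.symm, h2⟩
      · rintro ⟨h1, h2⟩
        exact ⟨Eq.trans h1 hNq, h2⟩
    rw [hset]
    exact cos_gb β X1 X2 (q0 * (a * b)) N1 hX (Nat.mul_pos hq (Nat.mul_pos ha hb))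
  · rw [Finset.not_nonempty_iff_eq_empty] at hem
    rw [hem, Finset.sum_empty, abs_zero]
    exact hgb

/-- the product of a tuple is positive and its primes are large -/
private theorem tw_tup (x δ a0 : ℝ) (hx : 1 < x) (P : List ℕ)
    (hP : ∀ j ∈ P, a0 ≤ (j : ℝ) * δ) (t : Fin P.length → ℕ) (ht : t ∈ tp x δ P) :
    0 < ∏ i, t i ∧ ∀ p : ℕ, p.Prime → p ∣ ∏ i, t i → x ^ a0 ≤ (p : ℝ) := by
  unfold tp at ht
  rw [Finset.mem_filter, Fintype.mem_piFinset] at ht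
  refine ⟨Finset.prod_pos fun i _ => (cell_prime (ht.1 i)).pos, ?_⟩
  intro p hp hd
  obtain ⟨i, -, hi⟩ := (Prime.dvd_finsetProd_iff hp.prime _).1 hd
  have h1 : p = t i := (Nat.prime_dvd_prime_iff_eq hp (cell_prime (ht.1 i))).1 hi
  have h2 := cell_lo (ht.1 i)
  rw [h1]
  refine le_trans ?_ h2
  exact Real.rpow_le_rpow_of_exponent_le hx.le (hP _ (List.get_mem P i))

theorem tw_pat (τ δ a0 : ℝ) (hτ : 0 < τ) (hτ1 : τ ≤ 1 / 4) (hδ : 0 < δ) (ha0 : 0 < a0)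
    (P Q : List ℕ) (hP : ∀ j ∈ P, a0 ≤ (j : ℝ) * δ) (hQ : ∀ j ∈ Q, a0 ≤ (j : ℝ) * δ)
    (hPQ : ((size P : ℝ) + size Q) * δ ≤ 19 / 20) :
    ∃ C : ℝ, 0 < C ∧ ∀ᶠ x : ℝ in atTop, ∀ β : ℝ, Gs τ x β → ∀ (X1 X2 q0 r h h' : ℕ), X1 ≤ X2 →
      (X2 : ℝ) ≤ x ^ (1 + τ / 8) → 0 < q0 → (q0 : ℝ) ≤ x ^ (τ / 8) →
      (∀ p : ℕ, p.Prime → p ∣ q0 → (p : ℝ) < x ^ a0) →
      (h : ℝ) ≤ x ^ (a0 / 2) → (h' : ℝ) ≤ x ^ (a0 / 2) → h ≠ h' →
      |∑ N ∈ (Ioc X1 X2).filter (fun N => N % q0 = r % q0), Real.cos (2 * Real.pi * (β * N)) *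
        (mono P (kk x δ (N + h)) * mono Q (kk x δ (N + h')))| ≤ C * x ^ (1 - τ / 8) := by
  classical
  obtain ⟨n, hn⟩ : ∃ n : ℕ, n = P.length + Q.length := ⟨_, rfl⟩
  refine ⟨2 * (n : ℝ) ^ n + 1, by positivity, ?_⟩
  filter_upwards [sum_gb τ hτ hτ1, eventually_gt_atTop (1 : ℝ)] with x hsum hx β hG X1 X2 q0 r h h' hX
    hX2 hq0 hq0x hq0p hh hh' hne
  have hx0 : 0 < x := by linarith
  obtain ⟨M, hM⟩ : ∃ M : ℕ, M = ⌊x ^ (19 / 20 : ℝ)⌋₊ := ⟨_, rfl⟩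
  obtain ⟨F, hF⟩ : ∃ F : ℕ → ℝ, F = fun m => gb (((X2 : ℝ) - X1) / ((q0 * m : ℕ) : ℝ) + 1)
      (nd (((q0 * m : ℕ) : ℝ) * β)) := ⟨_, rfl⟩
  have hXr : (X1 : ℝ) ≤ (X2 : ℝ) := by exact_mod_cast hX
  have hX1 : (0 : ℝ) ≤ (X1 : ℝ) := Nat.cast_nonneg _
  have hF0 : ∀ m, 0 ≤ F m := by
    intro m
    rw [hF]
    have h2 : 0 ≤ ((X2 : ℝ) - X1) / ((q0 * m : ℕ) : ℝ) :=
      div_nonneg (by linarith) (Nat.cast_nonneg _)
    exact gb_nonneg (by linarith) (nd_nonneg _)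
  have hFs : ∑ m ∈ Icc 1 M, F m ≤ x ^ (1 - τ / 8) := by
    rw [hF]
    exact hsum β hG q0 M ((X2 : ℝ) - X1) hq0 hq0x
      (by rw [hM]; exact Nat.floor_le (Real.rpow_nonneg hx0.le _)) (by linarith) (by linarith)
  have e1 : ∑ N ∈ (Ioc X1 X2).filter (fun N => N % q0 = r % q0), Real.cos (2 * Real.pi * (β * N)) *
        (mono P (kk x δ (N + h)) * mono Q (kk x δ (N + h'))) =
      ∑ z ∈ tp x δ P ×ˢ tp x δ Q, ∑ N ∈ (Ioc X1 X2).filter (fun N => N % q0 = r % q0),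
        Real.cos (2 * Real.pi * (β * N)) *
          (if (∏ i, z.1 i) ∣ N + h ∧ (∏ i, z.2 i) ∣ N + h' then (1 : ℝ) else 0) := by
    rw [Finset.sum_comm]
    refine Finset.sum_congr rfl fun N _ => ?_
    rw [mono_pair x δ hx hδ P Q (N + h) (N + h'), Finset.mul_sum]
  rw [e1]
  refine (Finset.abs_sum_le_sum_abs _ _).trans ?_
  have e2 : ∀ z ∈ tp x δ P ×ˢ tp x δ Q,
      |∑ N ∈ (Ioc X1 X2).filter (fun N => N % q0 = r % q0), Real.cos (2 * Real.pi * (β * N)) *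
          (if (∏ i, z.1 i) ∣ N + h ∧ (∏ i, z.2 i) ∣ N + h' then (1 : ℝ) else 0)| ≤
        2 * F ((∏ i, z.1 i) * (∏ i, z.2 i)) := by
    intro z hz
    rw [Finset.mem_product] at hz
    obtain ⟨a1, a2⟩ := tw_tup x δ a0 hx P hP z.1 hz.1
    obtain ⟨b1, b2⟩ := tw_tup x δ a0 hx Q hQ z.2 hz.2
    rw [hF]
    exact tw_one β x a0 hx ha0 X1 X2 q0 r h h' _ _ hX hq0 hq0p hh hh' hne a1 b1 a2 b2
  refine (Finset.sum_le_sum e2).trans ?_
  have hmap : ∀ z ∈ tp x δ P ×ˢ tp x δ Q, (∏ i, z.1 i) * (∏ i, z.2 i) ∈ Icc 1 M := by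
    intro z hz
    rw [Finset.mem_product] at hz
    obtain ⟨a1, -⟩ := tw_tup x δ a0 hx P hP z.1 hz.1
    obtain ⟨b1, -⟩ := tw_tup x δ a0 hx Q hQ z.2 hz.2
    have a3 := prod_le x δ hx hδ P z.1 hz.1
    have b3 := prod_le x δ hx hδ Q z.2 hz.2
    rw [Finset.mem_Icc]
    refine ⟨Nat.mul_pos a1 b1, ?_⟩
    rw [hM]
    apply Nat.le_floor
    rw [Nat.cast_mul]
    calc ((∏ i, z.1 i : ℕ) : ℝ) * ((∏ i, z.2 i : ℕ) : ℝ)
        ≤ x ^ ((size P : ℝ) * δ) * x ^ ((size Q : ℝ) * δ) :=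
          mul_le_mul a3 b3 (Nat.cast_nonneg _) (Real.rpow_nonneg hx0.le _)
      _ = x ^ (((size P : ℝ) + size Q) * δ) := by
          rw [← Real.rpow_add hx0]
          congr 1
          ring
      _ ≤ x ^ (19 / 20 : ℝ) := Real.rpow_le_rpow_of_exponent_le hx.le hPQ
  rw [← Finset.sum_fiberwise_of_maps_to hmap]
  have e3 : ∀ m ∈ Icc 1 M, ∑ z ∈ (tp x δ P ×ˢ tp x δ Q).filter
        (fun z => (∏ i, z.1 i) * (∏ i, z.2 i) = m), 2 * F ((∏ i, z.1 i) * (∏ i, z.2 i)) ≤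
      2 * (n : ℝ) ^ n * F m := by
    intro m hm
    rw [Finset.mem_Icc] at hm
    have s1 : ∑ z ∈ (tp x δ P ×ˢ tp x δ Q).filter
        (fun z => (∏ i, z.1 i) * (∏ i, z.2 i) = m), 2 * F ((∏ i, z.1 i) * (∏ i, z.2 i)) =
        ∑ z ∈ (tp x δ P ×ˢ tp x δ Q).filter
        (fun z => (∏ i, z.1 i) * (∏ i, z.2 i) = m), 2 * F m := by
      refine Finset.sum_congr rfl fun z hz => ?_
      rw [(Finset.mem_filter.1 hz).2]
    rw [s1, Finset.sum_const, nsmul_eq_mul]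
    have s2 : (((tp x δ P ×ˢ tp x δ Q).filter
        (fun z => (∏ i, z.1 i) * (∏ i, z.2 i) = m)).card : ℝ) ≤ (n : ℝ) ^ n := by
      have s3 := tup_cnt x δ P Q m (by omega)
      rw [← hn] at s3
      have s4 : ((tp x δ P ×ˢ tp x δ Q).filter
        (fun z => (∏ i, z.1 i) * (∏ i, z.2 i) = m)).card ≤ n ^ n := by
        refine le_trans (le_of_eq ?_) s3
        congr
      exact_mod_cast s4
    have s5 := hF0 m
    have s6 : (((tp x δ P ×ˢ tp x δ Q).filter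
        (fun z => (∏ i, z.1 i) * (∏ i, z.2 i) = m)).card : ℝ) * (2 * F m) ≤
        (n : ℝ) ^ n * (2 * F m) := mul_le_mul_of_nonneg_right s2 (by linarith)
    linarith
  refine (Finset.sum_le_sum e3).trans ?_
  rw [← Finset.mul_sum]
  have e4 : 2 * (n : ℝ) ^ n * ∑ m ∈ Icc 1 M, F m ≤ 2 * (n : ℝ) ^ n * x ^ (1 - τ / 8) :=
    mul_le_mul_of_nonneg_left hFs (by positivity)
  have e5 : 0 ≤ x ^ (1 - τ / 8) := Real.rpow_nonneg hx0.le _
  linarith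

end Pool.Agent.H96.RW
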